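import Pool.Agent.E8helper29.PC.VarA

/-! The local bound and the bound for the averaged number of pairs. -/

open Filter Topology MeasureTheory Set

namespace Pool.Agent.E8helper29.PC

open H370 TH803TW Pool.Agent.Y744
open Pool.Agent.TH850.UV (NS cnt mS NS_nonneg)

lemma Zt_zset {T : ℝ} : ∀ s ∈ Zt T, s ∈ zset riemannZeta 0 T := fun _ hs => mem_Zt.1 hs

lemma Zb_zset {A B : ℝ} (hA : 1 ≤ A) : ∀ s ∈ Zb A B, s ∈ zset riemannZeta 0 B := by
  intro s hs
  obtain ⟨a1, a2, a3, a4, a5⟩ := (mem_Zb hA).1 hs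
  exact ⟨a1, a2, by linarith, a4, a5⟩

/-- second moment of a subset of the zeros in a block -/
lemma NS_block {S : Finset ℂ} {T h h' A B : ℝ} (hS : ∀ s ∈ S, s ∈ zset riemannZeta 0 T)
    (hA : 1 ≤ A) (hAB : A ≤ B) (hh : h ≤ h')
    (hi : IntervalIntegrable (fun t => (cnt t h' : ℝ) ^ 2) volume A B) :
    ∫ t in A..B, NS S h t ^ 2 ≤ ∫ t in A..B, (cnt t h' : ℝ) ^ 2 := by
  refine intervalIntegral.integral_mono_on hAB ((NS_sq_integrable S h).intervalIntegrable) hi
    fun t ht => ?_
  exact pow_le_pow_left₀ (NS_nonneg S h t)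
    ((NS_le_cnt hS (hA.trans ht.1)).trans (cnt_mono (hA.trans ht.1) hh)) 2

lemma blk0 : ∃ C1 T1 : ℝ, 0 < C1 ∧ 10 ≤ T1 ∧ ∀ V : ℝ, T1 ≤ V →
    PP1 (Zb V (2 * V)) mz (fun s => s.im) (Real.log V) ≤ C1 * (V * Real.log V) := by
  classical
  obtain ⟨C, hC, h⟩ := cnt_second
  have hpi := Real.pi_pos
  obtain ⟨V1, hV1, h1⟩ := h (1 / Real.pi) (by positivity) 1 one_pos
  set β := (1 / Real.pi) ^ 2 + C + Real.log (1 + 1 / Real.pi) / Real.pi ^ 2 + 1 with hβ
  have hβ0 : 0 < β := by
    have : 0 ≤ Real.log (1 + 1 / Real.pi) := Real.log_nonneg (by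
      have : 0 < 1 / Real.pi := by positivity
      linarith)
    positivity
  refine ⟨2 * β, 2 * V1, by positivity, by linarith, fun V hV => ?_⟩
  have hV20 : 20 ≤ V := by linarith
  have hL : 1 ≤ Real.log V := by
    rw [Real.le_log_iff_exp_le (by linarith)]
    linarith [Real.exp_one_lt_d9]
  have hL2 : 1 ≤ Real.log (V / 2) := by
    rw [Real.le_log_iff_exp_le (by linarith)]
    linarith [Real.exp_one_lt_d9]
  set S := Zb V (2 * V) with hS
  have hSz : ∀ s ∈ S, s ∈ zset riemannZeta 0 (2 * V) := Zb_zset (by linarith)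
  set g := 2 / Real.log V with hg
  have hg0 : 0 < g := by positivity
  have hg2 : g ≤ 2 := by rw [hg, div_le_iff₀ (by linarith)]; linarith
  -- the pair sum
  have e1 : PP1 S mz (fun s => s.im) (Real.log V) ≤ Real.log V * ∫ t, NS S g t ^ 2 := by
    rw [NS_sq_int, Finset.mul_sum]
    unfold PP1
    refine Finset.sum_le_sum fun s _ => ?_
    rw [Finset.mul_sum]
    refine Finset.sum_le_sum fun s' _ => ?_
    have hm : 0 ≤ mz s * mz s' := mul_nonneg (mz_nonneg s) (mz_nonneg s')
    have h2 : (if |s.im - s'.im| ≤ 1 / Real.log V then (1 : ℝ) else 0) ≤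
        Real.log V * max 0 (g - |s.im - s'.im|) := by
      split_ifs with h3
      · have h4 : 1 / Real.log V ≤ g - |s.im - s'.im| := by
          have : g = 1 / Real.log V + 1 / Real.log V := by rw [hg]; ring
          linarith
        calc (1 : ℝ) = Real.log V * (1 / Real.log V) := by field_simp
          _ ≤ _ := by
            have := h4.trans (le_max_right 0 _)
            gcongr
      · exact mul_nonneg (by linarith) (le_max_left _ _)
    calc mz s * mz s' * (if |s.im - s'.im| ≤ 1 / Real.log V then (1 : ℝ) else 0) ≤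
        mz s * mz s' * (Real.log V * max 0 (g - |s.im - s'.im|)) :=
          mul_le_mul_of_nonneg_left h2 hm
      _ = _ := by ring
  -- the integral
  have e2 : ∫ t, NS S g t ^ 2 = ∫ t in (V / 2)..(2 * V), NS S g t ^ 2 := by
    rw [intervalIntegral.integral_of_le (by linarith), ← integral_indicator measurableSet_Ioc]
    congr 1
    funext t
    by_cases ht : t ∈ Set.Ioc (V / 2) (2 * V)
    · rw [Set.indicator_of_mem ht]
    · rw [Set.indicator_of_notMem ht]
      have : NS S g t = 0 := by
        unfold NS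
        refine Finset.sum_eq_zero fun s hs => ?_
        rw [if_neg, mul_zero]
        rintro ⟨h3, h4⟩
        rw [hS, mem_Zb (by linarith)] at hs
        obtain ⟨a1, a2, a3, a4, a5⟩ := hs
        exact ht ⟨by linarith, by linarith⟩
      rw [this]
      norm_num
  have hint : ∀ a b : ℝ, IntervalIntegrable (fun t => NS S g t ^ 2) volume a b := fun a b =>
    (NS_sq_integrable S g).intervalIntegrable
  have e3 : ∫ t in (V / 2)..(2 * V), NS S g t ^ 2 =
      (∫ t in (V / 2)..V, NS S g t ^ 2) + ∫ t in V..(2 * V), NS S g t ^ 2 :=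
    (intervalIntegral.integral_add_adjacent_intervals (hint _ _) (hint _ _)).symm
  have ea : ∀ W : ℝ, 2 * Real.pi * (1 / Real.pi) / Real.log W = 2 / Real.log W := by
    intro W
    congr 1
    field_simp
  obtain ⟨i1, b1⟩ := h1 (V / 2) (by linarith)
  obtain ⟨i2, b2⟩ := h1 V (by linarith)
  have hV2 : 2 * (V / 2) = V := by ring
  rw [hV2] at i1 b1
  simp_rw [ea] at i1 b1 i2 b2
  have c1 := NS_block (T := 2 * V) (h := g) hSz (show 1 ≤ V / 2 by linarith) (by linarith)
    (show g ≤ 2 / Real.log (V / 2) from by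
      rw [hg]
      have : Real.log (V / 2) ≤ Real.log V := Real.log_le_log (by linarith) (by linarith)
      gcongr) i1
  have c2 := NS_block (T := 2 * V) (h := g) hSz (show 1 ≤ V by linarith) (by linarith) le_rfl i2
  have e4 : ∫ t, NS S g t ^ 2 ≤ 2 * β * V := by
    rw [e2, e3]
    have d1 := c1.trans b1
    have d2 := c2.trans b2
    have : 0 ≤ V * β := by positivity
    linarith
  calc PP1 S mz (fun s => s.im) (Real.log V) ≤ Real.log V * ∫ t, NS S g t ^ 2 := e1
    _ ≤ Real.log V * (2 * β * V) := by gcongr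
    _ = 2 * β * (V * Real.log V) := by ring

/-- **the local bound**, unconditionally -/
theorem PPB_true : PPB := PP_of_blk blk0

/-- summation over dyadic blocks -/
lemma ladder {f : ℝ → ℝ} (hf : Integrable f) (hf0 : ∀ t, 0 ≤ f t) {V1 β T : ℝ} (hV1 : 0 < V1)
    (hβ : 0 ≤ β) (hb : ∀ V, V1 ≤ V → V ≤ T → ∫ t in V..(2 * V), f t ≤ β * V) (hT : V1 ≤ T) :
    ∫ t in Set.Iic T, f t ≤ (∫ t in Set.Iic (2 * V1), f t) + β * T := by
  have main : ∀ n : ℕ, ∀ W : ℝ, V1 ≤ W → W ≤ T → W ≤ 2 ^ n * (2 * V1) →
      ∫ t in Set.Iic W, f t ≤ (∫ t in Set.Iic (2 * V1), f t) + β * W := by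
    intro n
    induction n with
    | zero =>
      intro W hW hWT hWn
      rw [pow_zero, one_mul] at hWn
      have h1 : ∫ t in Set.Iic W, f t ≤ ∫ t in Set.Iic (2 * V1), f t :=
        setIntegral_mono_set hf.integrableOn (Eventually.of_forall hf0)
          (Eventually.of_forall fun x hx => le_trans hx hWn)
      have : 0 ≤ β * W := mul_nonneg hβ (by linarith)
      linarith
    | succ n ih =>
      intro W hW hWT hWn
      rcases le_or_gt W (2 * V1) with h | h
      · have h1 : ∫ t in Set.Iic W, f t ≤ ∫ t in Set.Iic (2 * V1), f t :=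
          setIntegral_mono_set hf.integrableOn (Eventually.of_forall hf0)
            (Eventually.of_forall fun x hx => le_trans hx h)
        have : 0 ≤ β * W := mul_nonneg hβ (by linarith)
        linarith
      · have h1 := ih (W / 2) (by linarith) (by linarith) (by
          rw [pow_succ] at hWn
          linarith)
        have h2 := hb (W / 2) (by linarith) (by linarith)
        have e : 2 * (W / 2) = W := by ring
        rw [e] at h2
        have h3 : (∫ t in Set.Iic W, f t) - ∫ t in Set.Iic (W / 2), f t = ∫ t in (W / 2)..W, f t :=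
          intervalIntegral.integral_Iic_sub_Iic hf.integrableOn hf.integrableOn
        linarith
  obtain ⟨n, hn⟩ := pow_unbounded_of_one_lt (T / (2 * V1)) (one_lt_two)
  refine main n T hT le_rfl ?_
  rw [div_lt_iff₀ (by linarith)] at hn
  exact hn.le

/-- **the averaged number of pairs** -/
theorem tent_bound : ∃ C : ℝ, 0 < C ∧ ∀ a : ℝ, 0 < a → ∀ ε : ℝ, 0 < ε → ∀ᶠ T in atTop,
    ∫ t, NS (Zt T) (2 * Real.pi * a / Real.log T) t ^ 2 ≤
      T * (a ^ 2 + C + Real.log (1 + a) / Real.pi ^ 2 + ε) := by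
  classical
  obtain ⟨C, hC, h⟩ := cnt_second
  refine ⟨C, hC, fun a ha ε hε => ?_⟩
  have hpi := Real.pi_pos
  obtain ⟨V1, hV1, h1⟩ := h a ha (ε / 2) (by positivity)
  set β := a ^ 2 + C + Real.log (1 + a) / Real.pi ^ 2 + ε / 2 with hβ
  have hlog : 0 ≤ Real.log (1 + a) := Real.log_nonneg (by linarith)
  have hβ0 : 0 ≤ β := by positivity
  set N1 : ℝ := ∑ s ∈ Zt (2 * V1 + 1), mz s with hN1
  have hN10 : 0 ≤ N1 := Finset.sum_nonneg fun s _ => mz_nonneg s
  set B1 := (2 * V1 + 1) * N1 ^ 2 with hB1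
  have ev1 : ∀ᶠ T : ℝ in atTop, 2 * Real.pi * a ≤ Real.log T :=
    Real.tendsto_log_atTop.eventually_ge_atTop _
  filter_upwards [ev1, eventually_ge_atTop V1, eventually_ge_atTop (2 * B1 / ε)] with T e1 e2 e3
  have hT10 : 10 ≤ T := hV1.trans e2
  have hL : 0 < Real.log T := Real.log_pos (by linarith)
  set g := 2 * Real.pi * a / Real.log T with hg
  have hg0 : 0 ≤ g := by positivity
  have hg1 : g ≤ 1 := by rw [hg, div_le_one hL]; exact e1
  set f : ℝ → ℝ := fun t => NS (Zt T) g t ^ 2 with hf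
  have hfi : Integrable f := NS_sq_integrable _ _
  have hf0 : ∀ t, 0 ≤ f t := fun t => sq_nonneg _
  have h2 : ∫ t in Set.Iic T, f t ≤ (∫ t in Set.Iic (2 * V1), f t) + β * T := by
    refine ladder hfi hf0 (by linarith) hβ0 (fun V hV hVT => ?_) e2
    obtain ⟨i1, b1⟩ := h1 V hV
    have hLV : 0 < Real.log V := Real.log_pos (by linarith)
    have c1 := NS_block (T := T) (h := g) (S := Zt T) Zt_zset (show 1 ≤ V by linarith)
      (show V ≤ 2 * V by linarith) (show g ≤ 2 * Real.pi * a / Real.log V from by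
        rw [hg]
        have : Real.log V ≤ Real.log T := Real.log_le_log (by linarith) hVT
        gcongr) i1
    linarith
  have h3 : ∫ t in Set.Iic (2 * V1), f t ≤ B1 := by
    have e4 : ∫ t in Set.Iic (2 * V1), f t = ∫ t in Set.Icc (-1) (2 * V1), f t := by
      rw [← integral_indicator measurableSet_Iic, ← integral_indicator measurableSet_Icc]
      congr 1
      funext t
      by_cases ht : t ∈ Set.Icc (-1) (2 * V1)
      · rw [Set.indicator_of_mem ht, Set.indicator_of_mem (show t ∈ Set.Iic (2 * V1) from ht.2)]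
      · rw [Set.indicator_of_notMem ht]
        by_cases ht2 : t ∈ Set.Iic (2 * V1)
        · rw [Set.indicator_of_mem ht2]
          have h5 : t < -1 := by
            by_contra hc
            exact ht ⟨not_lt.1 hc, ht2⟩
          have : NS (Zt T) g t = 0 := by
            unfold NS
            refine Finset.sum_eq_zero fun s hs => ?_
            rw [if_neg, mul_zero]
            rintro ⟨h3, h4⟩
            obtain ⟨a1, a2, a3, a4, a5⟩ := mem_Zt.1 hs
            linarith
          show NS (Zt T) g t ^ 2 = 0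
          rw [this]
          norm_num
        · rw [Set.indicator_of_notMem ht2]
    rw [e4]
    have h4 : ∀ t ∈ Set.Icc (-1) (2 * V1), f t ≤ N1 ^ 2 := by
      intro t ht
      refine pow_le_pow_left₀ (NS_nonneg _ _ _) ?_ 2
      unfold NS
      have h5 : ∀ s : ℂ, mS s * (if t < s.im ∧ s.im ≤ t + g then (1 : ℝ) else 0) =
          if t < s.im ∧ s.im ≤ t + g then mS s else 0 := by
        intro s
        split_ifs <;> simp
      simp_rw [h5]
      rw [← Finset.sum_filter]
      refine Finset.sum_le_sum_of_subset_of_nonneg (fun s hs => ?_) fun s _ _ => mz_nonneg s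
      rw [Finset.mem_filter] at hs
      rw [mem_Zt]
      obtain ⟨a1, a2, a3, a4, a5⟩ := mem_Zt.1 hs.1
      exact ⟨a1, a2, a3, by linarith [hs.2.2, ht.2], a5⟩
    have h5 : ∫ t in Set.Icc (-1) (2 * V1), f t ≤ ∫ _ in Set.Icc (-1) (2 * V1), N1 ^ 2 :=
      setIntegral_mono_on hfi.integrableOn (integrableOn_const (by simp [Real.volume_Icc]))
        measurableSet_Icc h4
    refine h5.trans (le_of_eq ?_)
    rw [setIntegral_const, smul_eq_mul, Real.volume_real_Icc, max_eq_left (by linarith), hB1]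
    ring
  have h4 : ∫ t, f t = ∫ t in Set.Iic T, f t := by
    rw [← integral_indicator measurableSet_Iic]
    congr 1
    funext t
    by_cases ht : t ∈ Set.Iic T
    · rw [Set.indicator_of_mem ht]
    · rw [Set.indicator_of_notMem ht]
      have : NS (Zt T) g t = 0 := by
        unfold NS
        refine Finset.sum_eq_zero fun s hs => ?_
        rw [if_neg, mul_zero]
        rintro ⟨h3, h4⟩
        obtain ⟨a1, a2, a3, a4, a5⟩ := mem_Zt.1 hs
        have : T < t := not_le.1 ht
        linarith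
      show NS (Zt T) g t ^ 2 = 0
      rw [this]
      norm_num
  have h5 : B1 ≤ ε / 2 * T := by
    rw [div_le_iff₀ hε] at e3
    linarith
  show ∫ t, f t ≤ _
  rw [h4]
  have e5 : T * (a ^ 2 + C + Real.log (1 + a) / Real.pi ^ 2 + ε) = β * T + ε / 2 * T := by
    rw [hβ]
    ring
  rw [e5]
  linarith

end Pool.Agent.E8helper29.PC
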