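import Pool.Agent.E8helper29.PC.Test
import Pool.Agent.E8helper29.PC.VarB

/-! The counting functions of the differences (after `Pool.Agent.Y744.PCR.Fin`, without the Riemann
hypothesis). -/

open MeasureTheory Filter Topology Real

namespace Pool.Agent.E8helper29.PC

open H370 TH803TW Pool.Agent.Y744
open Pool.Agent.TH850.UV (NS)

/-- normalised difference -/
noncomputable def dd (T : ℝ) (s s' : ℂ) : ℝ := (s.im - s'.im) * Real.log T / (2 * π)

/-- number of pairs with normalised difference in `S` -/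
noncomputable def Pc (T : ℝ) (S : Set ℝ) : ℝ :=
  ∑ s ∈ Zt T, ∑ s' ∈ Zt T, mz s * mz s' * S.indicator (fun _ => (1 : ℝ)) (dd T s s')

lemma dd_swap (T : ℝ) (s s' : ℂ) : dd T s' s = -dd T s s' := by
  unfold dd
  ring

lemma ind_nonneg (S : Set ℝ) (x : ℝ) : 0 ≤ S.indicator (fun _ => (1 : ℝ)) x :=
  Set.indicator_nonneg (fun _ _ => zero_le_one) x

lemma Pc_nonneg (T : ℝ) (S : Set ℝ) : 0 ≤ Pc T S := by
  unfold Pc
  refine Finset.sum_nonneg fun s _ => Finset.sum_nonneg fun s' _ => ?_
  exact mul_nonneg (mul_nonneg (mz_nonneg _) (mz_nonneg _)) (ind_nonneg _ _)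

lemma Pc_mono (T : ℝ) {S S' : Set ℝ} (h : S ⊆ S') : Pc T S ≤ Pc T S' := by
  unfold Pc
  refine Finset.sum_le_sum fun s _ => Finset.sum_le_sum fun s' _ => ?_
  refine mul_le_mul_of_nonneg_left ?_ (mul_nonneg (mz_nonneg _) (mz_nonneg _))
  exact Set.indicator_le_indicator_of_subset h (fun _ => zero_le_one) _

lemma Pc_union (T : ℝ) {S S' : Set ℝ} (h : Disjoint S S') : Pc T (S ∪ S') = Pc T S + Pc T S' := by
  unfold Pc
  rw [← Finset.sum_add_distrib]
  refine Finset.sum_congr rfl fun s _ => ?_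
  rw [← Finset.sum_add_distrib]
  refine Finset.sum_congr rfl fun s' _ => ?_
  rw [Set.indicator_union_of_disjoint h]
  ring

lemma Pc_neg (T : ℝ) (S : Set ℝ) : Pc T (-S) = Pc T S := by
  unfold Pc
  rw [Finset.sum_comm]
  refine Finset.sum_congr rfl fun s _ => Finset.sum_congr rfl fun s' _ => ?_
  rw [dd_swap, mul_comm (mz s')]
  congr 1
  by_cases h : dd T s s' ∈ S
  · rw [Set.indicator_of_mem h, Set.indicator_of_mem (by
      rw [Set.mem_neg, neg_neg]; exact h)]
  · rw [Set.indicator_of_notMem h, Set.indicator_of_notMem (by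
      rw [Set.mem_neg, neg_neg]; exact h)]

/-- the number of differences of absolute value at most `y`, normalised -/
noncomputable def Aa (T y : ℝ) : ℝ := (Xf T)⁻¹ * Pc T {x | |x| ≤ y}

lemma Aa_mono {T : ℝ} (hT : 1 < T) : Monotone (Aa T) := by
  intro a b hab
  unfold Aa
  refine mul_le_mul_of_nonneg_left (Pc_mono T fun x (hx : |x| ≤ a) => hx.trans hab) ?_
  exact inv_nonneg.2 (Xf_pos hT).le

lemma Aa_neg (T y : ℝ) (hy : y < 0) : Aa T y = 0 := by
  unfold Aa
  have : {x : ℝ | |x| ≤ y} = ∅ := by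
    ext x
    simp only [Set.mem_ofPred_eq, Set.mem_empty_iff_false, iff_false, not_le]
    exact hy.trans_le (abs_nonneg x)
  rw [this]
  unfold Pc
  simp

/-- growth of the counting function -/
lemma Aa_bound : ∃ C0 T0 : ℝ, 20 ≤ T0 ∧ ∀ T : ℝ, T0 ≤ T → ∀ y,
    |Aa T y| ≤ C0 * (1 + y ^ 2) := by
  obtain ⟨C, B0, V0, hC, hB0, hV0, hblk, hloc⟩ := PPB_true
  have hpi := Real.pi_pos
  refine ⟨3200 * (B0 + C) * (2 * π), V0, hV0, fun T hT y => ?_⟩
  have hT20 : 20 ≤ T := hV0.trans hT
  have hX := Xf_pos (V := T) (by linarith)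
  have hL1 : 1 ≤ Real.log T := by
    rw [Real.le_log_iff_exp_le (by linarith)]
    linarith [Real.exp_one_lt_d9]
  rcases lt_or_ge y 0 with hy | hy
  · rw [Aa_neg T y hy, abs_zero]
    positivity
  · unfold Aa
    rw [abs_of_nonneg (mul_nonneg (inv_nonneg.2 hX.le) (Pc_nonneg _ _)), inv_mul_le_iff₀ hX]
    have h1 : Pc T {x | |x| ≤ y} ≤ (1 + y ^ 2) * ∑ s ∈ Zt T, ∑ s' ∈ Zt T, mz s * mz s' *
        |(fun x : ℝ => 1 / (1 + x ^ 2)) ((s.im - s'.im) * Real.log T / (2 * π))| := by
      unfold Pc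
      rw [Finset.mul_sum]
      refine Finset.sum_le_sum fun s _ => ?_
      rw [Finset.mul_sum]
      refine Finset.sum_le_sum fun s' _ => ?_
      have hm : 0 ≤ mz s * mz s' := mul_nonneg (mz_nonneg _) (mz_nonneg _)
      show mz s * mz s' * Set.indicator {x | |x| ≤ y} (fun _ => (1 : ℝ)) (dd T s s') ≤
        (1 + y ^ 2) * (mz s * mz s' * |1 / (1 + (dd T s s') ^ 2)|)
      set x := dd T s s'
      have h2 : Set.indicator {x | |x| ≤ y} (fun _ => (1 : ℝ)) x ≤
          (1 + y ^ 2) * (1 / (1 + x ^ 2)) := by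
        by_cases hx : |x| ≤ y
        · rw [Set.indicator_of_mem (show x ∈ {x | |x| ≤ y} from hx), mul_one_div,
            le_div_iff₀ (by positivity), one_mul]
          have : x ^ 2 ≤ y ^ 2 := by
            rw [← sq_abs x]
            exact pow_le_pow_left₀ (abs_nonneg _) hx 2
          linarith
        · rw [Set.indicator_of_notMem (show x ∉ {x | |x| ≤ y} from hx)]
          positivity
      rw [abs_of_nonneg (by positivity)]
      have h3 := mul_le_mul_of_nonneg_left h2 hm
      linarith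
    have h2 := QS_abs_bound (x := fun s : ℂ => s.im) (Zt T) (Zt T) mz_nonneg
      (f := fun x : ℝ => 1 / (1 + x ^ 2)) (K := 1) (fun x => by
        rw [abs_of_nonneg (by positivity)]) (Λ := Real.log T) (by linarith) one_pos
    have h3 := hloc T hT (Real.log T) le_rfl
    have h4 : B0 ≤ B0 * (T * Real.log T) := by
      have : 1 ≤ T * Real.log T := by nlinarith
      nlinarith
    calc Pc T {x | |x| ≤ y} ≤ _ := h1
      _ ≤ (1 + y ^ 2) * (3200 * ((B0 + C) * (T * Real.log T))) := by
          refine mul_le_mul_of_nonneg_left (h2.trans ?_) (by positivity)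
          linarith
      _ = Xf T * (3200 * (B0 + C) * (2 * π) * (1 + y ^ 2)) := by
          unfold Xf
          field_simp

/-- the diagonal -/
lemma Aa_diag {ε : ℝ} (hε : 0 < ε) : ∀ᶠ T in atTop, 1 - ε ≤ Aa T 0 := by
  classical
  obtain ⟨T0, hT0, h⟩ := Pool.Agent.W54.TCF.NT_asymp' ε hε
  filter_upwards [eventually_ge_atTop T0] with T hT
  have hX := Xf_pos (V := T) (by linarith)
  have h1 := (h T hT).1
  have h2 : (NN riemannZeta 0 T : ℝ) ≤ Pc T {x | |x| ≤ 0} := by
    rw [← sum_Zt]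
    unfold Pc
    refine Finset.sum_le_sum fun s hs => ?_
    have h3 : mz s ≤ mz s * mz s * Set.indicator {x | |x| ≤ 0} (fun _ => (1 : ℝ)) (dd T s s) := by
      have h4 : dd T s s = 0 := by unfold dd; simp
      rw [h4, Set.indicator_of_mem (by simp : (0 : ℝ) ∈ {x : ℝ | |x| ≤ 0}), mul_one]
      unfold mz
      rcases Nat.eq_zero_or_pos (mult riemannZeta s) with h5 | h5
      · rw [h5]; simp
      · have : (1 : ℝ) ≤ (mult riemannZeta s : ℝ) := by exact_mod_cast h5
        nlinarith
    refine h3.trans (Finset.single_le_sum (f := fun s' => mz s * mz s' *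
      Set.indicator {x | |x| ≤ 0} (fun _ => (1 : ℝ)) (dd T s s')) (fun s' _ => ?_) hs)
    exact mul_nonneg (mul_nonneg (mz_nonneg _) (mz_nonneg _)) (ind_nonneg _ _)
  unfold Aa
  rw [le_inv_mul_iff₀ hX]
  refine le_trans (le_of_eq ?_) (h1.trans h2)
  unfold Xf
  ring


/-- the integrals against the test functions -/
lemma Aa_int {κ : ℝ} {K : ℝ → ℝ} (hK : TK κ K) (hκ : 0 ≤ κ) (T : ℝ) :
    ∫ y, Aa T y * (y * ct K y) = (Xf T)⁻¹ * Q2 (ph K) T (Real.log T) := by
  have hw := w_int hK
  have e1 : ∀ y, Aa T y * (y * ct K y) =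
      (Xf T)⁻¹ * ∑ s ∈ Zt T, ∑ s' ∈ Zt T, mz s * mz s' *
        (Set.Ici |dd T s s'|).indicator (fun y => y * ct K y) y := by
    intro y
    unfold Aa Pc
    rw [mul_assoc, Finset.sum_mul]
    congr 1
    refine Finset.sum_congr rfl fun s _ => ?_
    rw [Finset.sum_mul]
    refine Finset.sum_congr rfl fun s' _ => ?_
    rw [mul_assoc]
    congr 1
    by_cases hx : |dd T s s'| ≤ y
    · rw [Set.indicator_of_mem (show dd T s s' ∈ {x | |x| ≤ y} from hx),
        Set.indicator_of_mem (show y ∈ Set.Ici |dd T s s'| from hx), one_mul]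
    · rw [Set.indicator_of_notMem (show dd T s s' ∉ {x | |x| ≤ y} from hx),
        Set.indicator_of_notMem (show y ∉ Set.Ici |dd T s s'| from hx), zero_mul]
  simp_rw [e1]
  have hi : ∀ t : ℝ, Integrable ((Set.Ici t).indicator
      (fun y => y * ct K y)) := fun t => hw.indicator measurableSet_Ici
  rw [integral_const_mul, integral_finsetSum _ fun s _ => integrable_finsetSum _ fun s' _ =>
    (hi _).const_mul _]
  congr 1
  unfold Q2 QS
  refine Finset.sum_congr rfl fun s _ => ?_
  rw [integral_finsetSum _ fun s' _ => (hi _).const_mul _]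
  refine Finset.sum_congr rfl fun s' _ => ?_
  rw [integral_const_mul, integral_indicator measurableSet_Ici, integral_Ici_eq_integral_Ioi,
    ph_tail hK hκ, ph_abs]
  rfl

/-- the average of the counting function is the second moment of the local counts -/
lemma Aa_tent {T : ℝ} (hT : 1 < T) {a : ℝ} (ha : 0 ≤ a) :
    ∫ y in (0 : ℝ)..a, Aa T y = (∫ t, NS (Zt T) (2 * π * a / Real.log T) t ^ 2) / T := by
  have hX := Xf_pos hT
  have hL : 0 < Real.log T := Real.log_pos hT
  have hpi := Real.pi_pos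
  rw [NS_sq_int]
  have e1 : ∀ y, Aa T y = (Xf T)⁻¹ * ∑ s ∈ Zt T, ∑ s' ∈ Zt T, mz s * mz s' *
      (Set.Ici |dd T s s'|).indicator (fun _ => (1 : ℝ)) y := by
    intro y
    unfold Aa Pc
    congr 1
  simp_rw [e1]
  have hi : ∀ t : ℝ, IntervalIntegrable ((Set.Ici t).indicator (fun _ => (1 : ℝ))) volume 0 a :=
    fun t => by
      refine Monotone.intervalIntegrable fun x y hxy => ?_
      by_cases hx : x ∈ Set.Ici t
      · rw [Set.indicator_of_mem hx, Set.indicator_of_mem (show y ∈ Set.Ici t from le_trans hx hxy)]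
      · rw [Set.indicator_of_notMem hx]
        exact Set.indicator_nonneg (fun _ _ => zero_le_one) y
  have e2 : ∀ t : ℝ, 0 ≤ t → ∫ y in (0 : ℝ)..a, (Set.Ici t).indicator (fun _ => (1 : ℝ)) y =
      max 0 (a - t) := by
    intro t ht
    rw [intervalIntegral.integral_of_le ha, setIntegral_indicator measurableSet_Ici]
    rcases le_or_gt a t with h | h
    · have : Set.Ioc 0 a ∩ Set.Ici t ⊆ {t} := by
        rintro x ⟨h1, h2⟩
        exact le_antisymm (h1.2.trans h) h2
      rw [setIntegral_const, smul_eq_mul, mul_one, measureReal_def,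
        measure_mono_null this (measure_singleton t), max_eq_left (by linarith)]
      try rfl
    · rw [max_eq_right (by linarith), setIntegral_const, smul_eq_mul, mul_one]
      rcases ht.lt_or_eq with h1 | h1
      · have : Set.Ioc 0 a ∩ Set.Ici t = Set.Icc t a := by
          ext x
          constructor
          · rintro ⟨h2, h3⟩
            exact ⟨h3, h2.2⟩
          · rintro ⟨h2, h3⟩
            exact ⟨⟨h1.trans_le h2, h3⟩, h2⟩
        rw [this, Real.volume_real_Icc, max_eq_left (by linarith)]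
      · have : Set.Ioc 0 a ∩ Set.Ici t = Set.Ioc 0 a := by
          rw [← h1]
          ext x
          constructor
          · rintro ⟨h2, h3⟩
            exact h2
          · intro h2
            exact ⟨h2, h2.1.le⟩
        rw [this, Real.volume_real_Ioc, max_eq_left (by linarith), ← h1]
  have hJ : ∀ s s' : ℂ, IntervalIntegrable (fun y => mz s * mz s' *
      (Set.Ici |dd T s s'|).indicator (fun _ => (1 : ℝ)) y) volume 0 a := fun s s' =>
    (hi _).const_mul _
  have hJJ : ∀ s ∈ Zt T, IntervalIntegrable (fun y => ∑ s' ∈ Zt T, mz s * mz s' *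
      (Set.Ici |dd T s s'|).indicator (fun _ => (1 : ℝ)) y) volume 0 a := by
    intro s _
    have h1 := IntervalIntegrable.sum (μ := volume) (a := (0 : ℝ)) (b := a) (Zt T)
      (fun s' (_ : s' ∈ Zt T) => hJ s s')
    refine h1.congr fun y _ => ?_
    exact Finset.sum_apply y (Zt T) _
  rw [intervalIntegral.integral_const_mul, intervalIntegral.integral_finsetSum hJJ]
  have e3 : ∀ s ∈ Zt T, ∫ y in (0 : ℝ)..a, ∑ s' ∈ Zt T, mz s * mz s' *
      (Set.Ici |dd T s s'|).indicator (fun _ => (1 : ℝ)) y =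
      ∑ s' ∈ Zt T, mz s * mz s' * max 0 (a - |dd T s s'|) := by
    intro s _
    rw [intervalIntegral.integral_finsetSum fun s' _ => hJ s s']
    refine Finset.sum_congr rfl fun s' _ => ?_
    rw [intervalIntegral.integral_const_mul, e2 _ (abs_nonneg _)]
  rw [Finset.sum_congr rfl e3, eq_div_iff (by linarith : T ≠ 0)]
  have e4 : ∀ s s' : ℂ, max 0 (2 * π * a / Real.log T - |s.im - s'.im|) =
      2 * π / Real.log T * max 0 (a - |dd T s s'|) := by
    intro s s'
    have h1 : 2 * π * a / Real.log T - |s.im - s'.im| =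
        2 * π / Real.log T * (a - |dd T s s'|) := by
      unfold dd
      rw [abs_div, abs_mul, abs_of_pos hL, abs_of_pos (by positivity : 0 < 2 * π)]
      field_simp
    rw [h1, mul_max_of_nonneg _ _ (by positivity), mul_zero]
  simp_rw [e4]
  have e5 : ∑ s ∈ Zt T, ∑ s' ∈ Zt T, mz s * mz s' * (2 * π / Real.log T * max 0 (a - |dd T s s'|)) =
      2 * π / Real.log T * ∑ s ∈ Zt T, ∑ s' ∈ Zt T, mz s * mz s' * max 0 (a - |dd T s s'|) := by
    rw [Finset.mul_sum]
    refine Finset.sum_congr rfl fun s _ => ?_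
    rw [Finset.mul_sum]
    exact Finset.sum_congr rfl fun s' _ => by ring
  rw [e5]
  unfold Xf
  field_simp

/-- **the averaged number of pairs** -/
theorem Aa_avg : ∃ C : ℝ, 0 < C ∧ ∀ a : ℝ, 0 < a → ∀ ε : ℝ, 0 < ε → ∀ᶠ T in atTop,
    ∫ y in (0 : ℝ)..a, Aa T y ≤ a ^ 2 + C + Real.log (1 + a) / π ^ 2 + ε := by
  obtain ⟨C, hC, h⟩ := tent_bound
  refine ⟨C, hC, fun a ha ε hε => ?_⟩
  filter_upwards [h a ha ε hε, eventually_gt_atTop (1 : ℝ)] with T h1 h2
  rw [Aa_tent h2 ha.le, div_le_iff₀ (by linarith)]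
  linarith

end Pool.Agent.E8helper29.PC
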