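import Pool.Agent.Y750.OM.Conv1
import Pool.Agent.E8helper29.PC.Aa

/-! Montgomery's theorem for the ordinates of almost all zeros on the line. -/

open MeasureTheory Filter Topology Real

namespace Pool.Agent.E8helper29.PC

open H370 TH803TW Pool.Agent.Y744
open Pool.Agent.Y750.OM (PO NO rh bl bl_eq rh_of_bl main_eq pair_ord NO_nonneg)

/-- number of zeros off the critical line, with multiplicity -/
noncomputable def Noff (T : ℝ) : ℝ := ∑ s ∈ (Zt T).filter (fun s => s.re ≠ 1 / 2), mz s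

lemma Noff_nonneg (T : ℝ) : 0 ≤ Noff T := Finset.sum_nonneg fun s _ => mz_nonneg s

variable {κ : ℝ} {K : ℝ → ℝ}

lemma ct_bl (r : ℝ → ℝ) (u : ℝ) : bl r u = ct r u := by
  unfold bl ct
  congr 1
  funext α
  congr 2
  ring

lemma rh_rr (K : ℝ → ℝ) (x : ℝ) : rh (rr K) x = ph K (x / (2 * π)) := by
  rw [← bl_eq, ct_bl]
  rfl

lemma rr_lip (h : TK κ K) : ∃ C, 0 ≤ C ∧ (∀ x y, |rr K x - rr K y| ≤ C * |x - y|) ∧
    ∀ x, |rr K x| ≤ C := by
  obtain ⟨C, hC, h1, h2⟩ := rk_lip h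
  have hp : (0 : ℝ) < 4 * π ^ 2 := by positivity
  refine ⟨C / (4 * π ^ 2), by positivity, fun x y => ?_, fun x => ?_⟩
  · unfold rr
    rw [← sub_div, abs_div, abs_of_pos hp, div_mul_eq_mul_div]
    apply div_le_div_of_nonneg_right _ hp.le
    have : -rk K x - -rk K y = -(rk K x - rk K y) := by ring
    rw [this, abs_neg]
    exact h1 x y
  · unfold rr
    rw [abs_div, abs_of_pos hp, abs_neg]
    exact div_le_div_of_nonneg_right (h2 x) hp.le

lemma rr_supp (h : TK κ K) (hκ : 0 ≤ κ) (x : ℝ) (hx : κ < |x|) : rr K x = 0 := by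
  unfold rr
  rw [rk_supp h hκ x hx]
  simp

lemma NTg_ph (h : TK κ K) (hκ : 0 ≤ κ) : NTg (ph K) where
  decay := by
    obtain ⟨C, hC, h1⟩ := ph_decay h hκ 1
    exact ⟨C, hC, fun y => by simpa using h1 y⟩
  even := ph_neg K
  scale := ph_scale h hκ

lemma NN_lim : Tendsto (fun V => (NN riemannZeta V (2 * V) : ℝ) / Xf V) atTop (𝓝 1) := by
  obtain ⟨C1, T1, hC1, hT1, h1⟩ := nn_asymp good_zeta
  have hpi := Real.pi_pos
  have h2 : Tendsto (fun V : ℝ => C1 * (2 * π) * (Real.log V)⁻¹) atTop (𝓝 (C1 * (2 * π) * 0)) :=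
    (tendsto_inv_atTop_zero.comp Real.tendsto_log_atTop).const_mul _
  rw [mul_zero] at h2
  rw [tendsto_iff_norm_sub_tendsto_zero]
  refine squeeze_zero' (Eventually.of_forall fun _ => norm_nonneg _) ?_ h2
  filter_upwards [eventually_ge_atTop T1] with V hV
  have hV10 : 10 ≤ V := hT1.trans hV
  have hL : 0 < Real.log V := Real.log_pos (by linarith)
  have hX := Xf_pos (V := V) (by linarith)
  have h3 := h1 V hV V (2 * V) le_rfl (by linarith) (by linarith) le_rfl
  have e : (NN riemannZeta V (2 * V) : ℝ) / Xf V - 1 =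
      ((NN riemannZeta V (2 * V) : ℝ) - V * Real.log V / (2 * π)) / Xf V := by
    rw [sub_div]
    congr 1
    rw [eq_div_iff hX.ne']
    unfold Xf
    ring
  rw [e, Real.norm_eq_abs, abs_div, abs_of_pos hX, div_le_iff₀ hX]
  refine h3.trans (le_of_eq ?_)
  unfold Xf
  field_simp

lemma Xf_double : Tendsto (fun V => Xf (2 * V) / Xf V) atTop (𝓝 2) := by
  have h4 : Tendsto (fun V : ℝ => 2 * (1 + Real.log 2 * (Real.log V)⁻¹)) atTop
      (𝓝 (2 * (1 + Real.log 2 * 0))) :=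
    (((tendsto_inv_atTop_zero.comp Real.tendsto_log_atTop).const_mul _).const_add _).const_mul _
  rw [mul_zero, add_zero, mul_one] at h4
  refine h4.congr' ?_
  filter_upwards [eventually_gt_atTop (1 : ℝ)] with V hV
  have hL : 0 < Real.log V := Real.log_pos hV
  have hpi := Real.pi_pos
  unfold Xf
  rw [Real.log_mul (by norm_num) (by linarith)]
  field_simp
  ring

lemma NO_lim (hoff : Tendsto (fun T => Noff T / Xf T) atTop (𝓝 0)) :
    Tendsto (fun V => NO V (2 * V) / (NN riemannZeta V (2 * V) : ℝ)) atTop (𝓝 0) := by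
  have ht : Tendsto (fun V : ℝ => 2 * V) atTop atTop := tendsto_id.const_mul_atTop (by norm_num)
  have h1 := hoff.comp ht
  have h2 := (h1.mul Xf_double).mul (NN_lim.inv₀ one_ne_zero)
  rw [zero_mul, zero_mul] at h2
  refine squeeze_zero' ?_ ?_ h2
  · exact Eventually.of_forall fun V => div_nonneg (NO_nonneg _ _) (Nat.cast_nonneg _)
  · filter_upwards [eventually_gt_atTop (1 : ℝ)] with V hV
    have hX := Xf_pos hV
    have hX2 := Xf_pos (V := 2 * V) (by linarith)
    have h3 : NO V (2 * V) ≤ Noff (2 * V) := by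
      classical
      unfold NO Noff
      refine Finset.sum_le_sum_of_subset_of_nonneg (fun s hs => ?_) fun s _ _ => mz_nonneg s
      rw [Finset.mem_filter] at hs ⊢
      exact ⟨mem_Zt.2 (Zb_zset hV.le s hs.1), hs.2⟩
    show _ ≤ Noff (2 * V) / Xf (2 * V) * (Xf (2 * V) / Xf V) *
      ((NN riemannZeta V (2 * V) : ℝ) / Xf V)⁻¹
    have e : Noff (2 * V) / Xf (2 * V) * (Xf (2 * V) / Xf V) *
      ((NN riemannZeta V (2 * V) : ℝ) / Xf V)⁻¹ = Noff (2 * V) / (NN riemannZeta V (2 * V) : ℝ) := by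
      rw [inv_div]
      field_simp
    rw [e]
    exact div_le_div_of_nonneg_right h3 (Nat.cast_nonneg _)

/-- **Montgomery's theorem for the ordinates in dyadic blocks** -/
theorem blk_lim (h : TK κ K) (hκ0 : 0 < κ) (hκ : κ < 2 / 3)
    (hoff : Tendsto (fun T => Noff T / Xf T) atTop (𝓝 0)) :
    Tendsto (fun V => QS (Zb V (2 * V)) (Zb V (2 * V)) mz (fun s => s.im) (ph K) (Real.log V) /
      Xf V) atTop (𝓝 (ph K 0 + ∫ u, ph K u * (1 - Real.sinc (π * u) ^ 2))) := by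
  obtain ⟨C, θ, hC, hθ, hp⟩ := pair_ord hκ0 hκ
  obtain ⟨R, hR0, hlip, hR⟩ := rr_lip h
  obtain ⟨A, hA0, hA⟩ := ph_decay h hκ0.le 1
  have hA' : ∀ u, |bl (rr K) u| * (1 + u ^ 2) ≤ A := by
    intro u
    rw [ct_bl]
    have h1 := hA u
    rw [pow_one, le_div_iff₀ (by positivity)] at h1
    exact h1
  set c := ph K 0 + ∫ u, ph K u * (1 - Real.sinc (π * u) ^ 2) with hc
  have hcm : rr K 0 + ∫ α : ℝ, |α| * rr K α = c := by
    rw [← main_eq (rr_cont h) hA' (fun x hx => rr_supp h hκ0.le x (by linarith)), hc]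
    simp_rw [ct_bl]
    rfl
  rw [Metric.tendsto_nhds]
  intro ε hε
  obtain ⟨T0, hT0, hp⟩ := hp κ hκ0 le_rfl (rr K) R hlip (rr_supp h hκ0.le) _ (rh_of_bl hA') R hR
    (ε / 4) (by positivity)
  have l1 : Tendsto (fun V => (C * R * κ ^ 3 * (NO V (2 * V) / NN riemannZeta V (2 * V)) ^ θ +
      ε / 4) * ((NN riemannZeta V (2 * V) : ℝ) / Xf V) +
      |c| * |(NN riemannZeta V (2 * V) : ℝ) / Xf V - 1|) atTop
      (𝓝 ((C * R * κ ^ 3 * 0 + ε / 4) * 1 + |c| * |(1 : ℝ) - 1|)) := by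
    have l2 : Tendsto (fun V => (NO V (2 * V) / (NN riemannZeta V (2 * V) : ℝ)) ^ θ) atTop
        (𝓝 0) := by
      have := (NO_lim hoff).rpow_const (p := θ) (Or.inr hθ.le)
      rwa [Real.zero_rpow hθ.ne'] at this
    exact (((l2.const_mul _).add tendsto_const_nhds).mul NN_lim).add
      ((NN_lim.sub_const 1).abs.const_mul _)
  have e0 : (C * R * κ ^ 3 * 0 + ε / 4) * 1 + |c| * |(1 : ℝ) - 1| = ε / 4 := by simp
  rw [e0] at l1
  have ev := l1.eventually_lt_const (show ε / 4 < ε by linarith)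
  filter_upwards [ev, eventually_ge_atTop T0] with V hV1 hV2
  have hV10 : 10 ≤ V := hT0.trans hV2
  have hX := Xf_pos (V := V) (by linarith)
  have h1 := hp V hV2
  have h2 : PO (rh (rr K)) V (2 * V) (Real.log V) =
      QS (Zb V (2 * V)) (Zb V (2 * V)) mz (fun s => s.im) (ph K) (Real.log V) := by
    unfold PO QS
    refine Finset.sum_congr rfl fun s _ => Finset.sum_congr rfl fun s' _ => ?_
    rw [rh_rr]
    rfl
  rw [h2, hcm] at h1
  rw [Real.dist_eq]
  refine lt_of_le_of_lt ?_ hV1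
  set Q := QS (Zb V (2 * V)) (Zb V (2 * V)) mz (fun s => s.im) (ph K) (Real.log V)
  set N := (NN riemannZeta V (2 * V) : ℝ)
  have e1 : Q / Xf V - c = (Q - N * c) / Xf V + c * (N / Xf V - 1) := by
    field_simp
    ring
  rw [e1]
  refine (abs_add_le _ _).trans ?_
  rw [abs_mul, abs_div, abs_of_pos hX]
  refine add_le_add ?_ le_rfl
  rw [div_le_iff₀ hX]
  refine h1.trans (le_of_eq ?_)
  field_simp

/-- **Montgomery's theorem for the ordinates** -/
theorem mont_ord (h : TK κ K) (hκ0 : 0 < κ) (hκ : κ < 2 / 3)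
    (hoff : Tendsto (fun T => Noff T / Xf T) atTop (𝓝 0)) :
    Tendsto (fun T => ∫ y, Aa T y * (y * ct K y)) atTop (𝓝 (∫ y, AG y * (y * ct K y))) := by
  have h1 := mont_lim PPB_true (NTg_ph h hκ0.le) (blk_lim h hκ0 hκ hoff)
  rw [AG_int h hκ0.le]
  refine h1.congr fun T => ?_
  rw [Aa_int h hκ0.le, div_eq_inv_mul]

end Pool.Agent.E8helper29.PC
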