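import Pool.Agent.E8helper29.PC.Blk

/-! The pairs of zeros with the same ordinate. -/

open MeasureTheory Filter Topology Real

namespace Pool.Agent.E8helper29.PC

open H370 TH803TW Pool.Agent.Y744

lemma zeta_refl {s : ℂ} (h0 : 0 < s.re) (h1 : s.re < 1) (hz : riemannZeta s = 0) :
    riemannZeta (1 - (starRingEnd ℂ) s) = 0 := by
  have h2 : riemannZeta (1 - s) = 0 := by
    rw [riemannZeta_one_sub, hz, mul_zero]
    · intro n hn
      rw [hn] at h0
      simp only [Complex.neg_re, Complex.natCast_re] at h0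
      have : (0 : ℝ) ≤ n := Nat.cast_nonneg n
      linarith
    · intro hs
      rw [hs] at h1
      simp at h1
  have h3 : 1 - (starRingEnd ℂ) s = (starRingEnd ℂ) (1 - s) := by simp
  rw [h3, riemannZeta_conj, h2, map_zero]

lemma refl_mem {T : ℝ} {s : ℂ} (hs : s ∈ Zt T) : 1 - (starRingEnd ℂ) s ∈ Zt T := by
  rw [mem_Zt] at hs ⊢
  obtain ⟨a1, a2, a3, a4, a5⟩ := hs
  refine ⟨by simp; linarith, by simp; linarith, by simpa using a3, by simpa using a4,
    zeta_refl a1 a2 a5⟩

lemma mz_ge {T : ℝ} {s : ℂ} (hs : s ∈ Zt T) : 1 ≤ mz s := by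
  rw [mem_Zt] at hs
  obtain ⟨a1, a2, a3, a4, a5⟩ := hs
  have := H370.Loc.mult_pos' good_zeta a3 a5
  unfold mz
  exact_mod_cast this

/-- the number of simple zeros on the critical line -/
noncomputable def Nsc (T : ℝ) : ℝ :=
  ∑ s ∈ (Zt T).filter (fun s => s.re = 1 / 2 ∧ mult riemannZeta s = 1), mz s

lemma Noff_le (T : ℝ) : Noff T + Nsc T ≤ (NN riemannZeta 0 T : ℝ) := by
  classical
  rw [← sum_Zt]
  unfold Noff Nsc
  rw [← Finset.sum_union]
  · refine Finset.sum_le_sum_of_subset_of_nonneg (fun s hs => ?_) fun s _ _ => mz_nonneg s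
    rw [Finset.mem_union, Finset.mem_filter, Finset.mem_filter] at hs
    rcases hs with hs | hs
    · exact hs.1
    · exact hs.1
  · rw [Finset.disjoint_left]
    intro s h1 h2
    rw [Finset.mem_filter] at h1 h2
    exact h1.2 h2.2.1

/-- the diagonal -/
lemma diag_ge (T : ℝ) : 2 * (NN riemannZeta 0 T : ℝ) - Nsc T ≤ Pc T {x | |x| ≤ 0} := by
  classical
  have e1 : 2 * (NN riemannZeta 0 T : ℝ) - Nsc T = ∑ s ∈ Zt T,
      (2 * mz s - if s.re = 1 / 2 ∧ mult riemannZeta s = 1 then mz s else 0) := by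
    rw [Finset.sum_sub_distrib, ← Finset.mul_sum, sum_Zt, Nsc, Finset.sum_filter]
  rw [e1]
  unfold Pc
  refine Finset.sum_le_sum fun s hs => ?_
  have hm := mz_ge hs
  have hnn : ∀ s' ∈ Zt T, 0 ≤ mz s * mz s' *
      Set.indicator {x | |x| ≤ 0} (fun _ => (1 : ℝ)) (dd T s s') := fun s' _ =>
    mul_nonneg (mul_nonneg (mz_nonneg _) (mz_nonneg _)) (ind_nonneg _ _)
  have hself : Set.indicator {x | |x| ≤ 0} (fun _ => (1 : ℝ)) (dd T s s) = 1 := by
    have h4 : dd T s s = 0 := by unfold dd; simp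
    rw [h4, Set.indicator_of_mem (by simp : (0 : ℝ) ∈ {x : ℝ | |x| ≤ 0})]
  have hone : mz s * mz s ≤ ∑ s' ∈ Zt T, mz s * mz s' *
      Set.indicator {x | |x| ≤ 0} (fun _ => (1 : ℝ)) (dd T s s') := by
    refine le_trans (le_of_eq ?_) (Finset.single_le_sum hnn hs)
    rw [hself, mul_one]
  by_cases hre : s.re = 1 / 2
  · by_cases hmu : mult riemannZeta s = 1
    · rw [if_pos ⟨hre, hmu⟩]
      nlinarith
    · rw [if_neg (fun h => hmu h.2)]
      have h2 : 2 ≤ mz s := by
        have h3 : 1 ≤ mult riemannZeta s := by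
          unfold mz at hm
          exact_mod_cast hm
        have h4 : 2 ≤ mult riemannZeta s := by omega
        unfold mz
        exact_mod_cast h4
      nlinarith
  · rw [if_neg (fun h => hre h.1)]
    have hr := refl_mem hs
    set s' := 1 - (starRingEnd ℂ) s with hs'
    have hne : s ≠ s' := by
      intro h
      have h2 := congrArg Complex.re h
      rw [hs'] at h2
      simp at h2
      exact hre (by linarith)
    have him : s'.im = s.im := by rw [hs']; simp
    have hm' := mz_ge hr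
    have h2 : Set.indicator {x | |x| ≤ 0} (fun _ => (1 : ℝ)) (dd T s s') = 1 := by
      have h4 : dd T s s' = 0 := by unfold dd; rw [him]; simp
      rw [h4, Set.indicator_of_mem (by simp : (0 : ℝ) ∈ {x : ℝ | |x| ≤ 0})]
    have h3 : ∑ x ∈ ({s, s'} : Finset ℂ), mz s * mz x *
        Set.indicator {x | |x| ≤ 0} (fun _ => (1 : ℝ)) (dd T s x) ≤
        ∑ x ∈ Zt T, mz s * mz x *
        Set.indicator {x | |x| ≤ 0} (fun _ => (1 : ℝ)) (dd T s x) := by
      refine Finset.sum_le_sum_of_subset_of_nonneg (fun x hx => ?_) fun x hx _ => hnn x hx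
      rw [Finset.mem_insert, Finset.mem_singleton] at hx
      rcases hx with rfl | rfl
      · exact hs
      · exact hr
    rw [Finset.sum_pair hne, hself, h2] at h3
    nlinarith

lemma NT_lim : Tendsto (fun T => (NN riemannZeta 0 T : ℝ) / Xf T) atTop (𝓝 1) := by
  rw [Metric.tendsto_nhds]
  intro ε hε
  obtain ⟨T0, hT0, h⟩ := Pool.Agent.W54.TCF.NT_asymp' (ε / 2) (by positivity)
  filter_upwards [eventually_ge_atTop T0] with T hT
  have hX := Xf_pos (V := T) (by linarith)
  obtain ⟨h1, h2⟩ := h T hT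
  have e : T / (2 * π) * Real.log T = Xf T := by unfold Xf; ring
  rw [e] at h1 h2
  rw [Real.dist_eq, abs_lt]
  constructor
  · rw [lt_sub_iff_add_lt, lt_div_iff₀ hX]
    nlinarith
  · rw [sub_lt_iff_lt_add, div_lt_iff₀ hX]
    nlinarith

/-- if the diagonal is asymptotically minimal, almost all zeros are simple and on the line -/
theorem simple_of_diag (h : Tendsto (fun T => Aa T 0) atTop (𝓝 1)) :
    Tendsto (fun T => Nsc T / Xf T) atTop (𝓝 1) ∧ Tendsto (fun T => Noff T / Xf T) atTop (𝓝 0) := by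
  have hlow : ∀ᶠ T in atTop, 2 * ((NN riemannZeta 0 T : ℝ) / Xf T) - Aa T 0 ≤ Nsc T / Xf T := by
    filter_upwards [eventually_gt_atTop (1 : ℝ)] with T hT
    have hX := Xf_pos hT
    have h1 := diag_ge T
    unfold Aa
    rw [inv_mul_eq_div, ← mul_div_assoc, ← sub_div]
    exact div_le_div_of_nonneg_right (by linarith) hX.le
  have hup : ∀ᶠ T in atTop, Nsc T / Xf T ≤ (NN riemannZeta 0 T : ℝ) / Xf T := by
    filter_upwards [eventually_gt_atTop (1 : ℝ)] with T hT
    have hX := Xf_pos hT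
    have h1 := Noff_le T
    have h2 := Noff_nonneg T
    exact div_le_div_of_nonneg_right (by linarith) hX.le
  have l1 : Tendsto (fun T => 2 * ((NN riemannZeta 0 T : ℝ) / Xf T) - Aa T 0) atTop (𝓝 1) := by
    have := (NT_lim.const_mul 2).sub h
    norm_num at this
    exact this
  have hs : Tendsto (fun T => Nsc T / Xf T) atTop (𝓝 1) :=
    tendsto_of_tendsto_of_tendsto_of_le_of_le' l1 NT_lim hlow hup
  refine ⟨hs, ?_⟩
  have l2 := NT_lim.sub hs
  rw [sub_self] at l2
  refine squeeze_zero' ?_ ?_ l2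
  · filter_upwards [eventually_gt_atTop (1 : ℝ)] with T hT
    exact div_nonneg (Noff_nonneg T) (Xf_pos hT).le
  · filter_upwards [eventually_gt_atTop (1 : ℝ)] with T hT
    have hX := Xf_pos hT
    have h1 := Noff_le T
    rw [← sub_div]
    exact div_le_div_of_nonneg_right (by linarith) hX.le

end Pool.Agent.E8helper29.PC
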