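import Pool.Agent.E8helper29.PC.Zeros

/-! Assembly of the dyadic blocks (after `Pool.Agent.Y744.PCR.NTc`, `NTd`, without the Riemann
hypothesis). -/

open Filter Topology Complex MeasureTheory

namespace Pool.Agent.E8helper29.PC

open H370 TH803TW Pool.Agent.Y744

/-- the local bound -/
def PPB : Prop := ∃ C B0 V0 : ℝ, 0 ≤ C ∧ 0 ≤ B0 ∧ 20 ≤ V0 ∧
    (∀ V : ℝ, V0 ≤ V → PP1 (Zb V (2 * V)) mz (fun s => s.im) (Real.log V) ≤ C * (V * Real.log V)) ∧
    (∀ T : ℝ, V0 ≤ T → ∀ Λ : ℝ, Real.log T ≤ Λ →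
      PP1 (Zt T) mz (fun s => s.im) Λ ≤ B0 + C * (T * Real.log T))

/-- test functions -/
structure NTg (f : ℝ → ℝ) : Prop where
  decay : ∃ K, 0 ≤ K ∧ ∀ y, |f y| ≤ K / (1 + y ^ 2)
  even : ∀ x, f (-x) = f x
  scale : ∃ C, 0 ≤ C ∧ ∀ y s, 1 ≤ s → |f (s * y) - f y| ≤ C * (s - 1) / (1 + y ^ 2)

/-- the normalisation -/
noncomputable def Xf (V : ℝ) : ℝ := V * Real.log V / (2 * Real.pi)

lemma Xf_pos {V : ℝ} (hV : 1 < V) : 0 < Xf V := by
  unfold Xf
  have := Real.log_pos hV
  have := Real.pi_pos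
  positivity

variable {f : ℝ → ℝ}

lemma scale_err {ι : Type*} (S : Finset ι) {m x : ι → ℝ} (hm : ∀ s, 0 ≤ m s) {C : ℝ} (hC : 0 ≤ C)
    (hs : ∀ y s, 1 ≤ s → |f (s * y) - f y| ≤ C * (s - 1) / (1 + y ^ 2)) {L s : ℝ} (hL : 0 < L)
    (h1 : 1 ≤ s) :
    |QS S S m x f (s * L) - QS S S m x f L| ≤ 3200 * (C * (s - 1)) * PP1 S m x L := by
  have e : QS S S m x f (s * L) - QS S S m x f L =
      ∑ a ∈ S, ∑ b ∈ S, m a * m b * (f (s * ((x a - x b) * L / (2 * Real.pi))) -
        f ((x a - x b) * L / (2 * Real.pi))) := by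
    unfold QS
    rw [← Finset.sum_sub_distrib]
    refine Finset.sum_congr rfl fun a _ => ?_
    rw [← Finset.sum_sub_distrib]
    refine Finset.sum_congr rfl fun b _ => ?_
    rw [mul_sub]
    congr 3
    ring
  rw [e]
  have hK : 0 ≤ C * (s - 1) := mul_nonneg hC (by linarith)
  have h2 := QS_abs_bound (x := x) S S hm (f := fun y => C * (s - 1) / (1 + y ^ 2))
    (K := C * (s - 1)) (fun y => by rw [abs_of_nonneg (by positivity)]) hL one_pos
  refine le_trans ?_ (h2.trans (le_of_eq ?_))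
  · refine (Finset.abs_sum_le_sum_abs _ _).trans (Finset.sum_le_sum fun a _ =>
      (Finset.abs_sum_le_sum_abs _ _).trans (Finset.sum_le_sum fun b _ => ?_))
    rw [abs_mul, abs_of_nonneg (mul_nonneg (hm a) (hm b))]
    refine mul_le_mul_of_nonneg_left ?_ (mul_nonneg (hm a) (hm b))
    exact (hs _ s h1).trans (le_abs_self _)
  · ring

lemma cross_small (hPP : PPB) (h : NTg f) {η : ℝ} (hη : 0 < η) :
    ∃ V1 : ℝ, 20 ≤ V1 ∧ ∀ V : ℝ, V1 ≤ V → ∀ Λ : ℝ, Real.log V ≤ Λ →
      |QS (Zt V) (Zb V (2 * V)) mz (fun s => s.im) f Λ| ≤ η * (V * Real.log V) := by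
  classical
  obtain ⟨C, B0, V0, hC, hB0, hV0, hblk, hloc⟩ := hPP
  obtain ⟨V2, hV2, hnear⟩ := near_bound
  obtain ⟨K, hK, hf⟩ := h.decay
  set lam : ℝ := 4800 * (K + 1) * (C + 1) / η with hlam
  have hlam0 : 0 < lam := by positivity
  have ev1 : ∀ᶠ V : ℝ in atTop, 4800 * (K + 1) * lam / η ≤ Real.log V :=
    Real.tendsto_log_atTop.eventually_ge_atTop _
  have ev2 : ∀ᶠ V : ℝ in atTop, (9600 * (K + 1) * (2 * C + 1) / η) ^ 2 ≤ Real.log V :=
    Real.tendsto_log_atTop.eventually_ge_atTop _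
  have ev3 : ∀ᶠ V : ℝ in atTop, B0 ≤ V := eventually_ge_atTop _
  obtain ⟨V3, hV3⟩ := (ev1.and (ev2.and ev3)).exists_forall_of_atTop
  refine ⟨max (max V0 V2) V3, hV0.trans ((le_max_left _ _).trans (le_max_left _ _)),
    fun V hV Λ hΛ => ?_⟩
  have hVV0 : V0 ≤ V := ((le_max_left _ _).trans (le_max_left _ _)).trans hV
  have hVV2 : V2 ≤ V := ((le_max_right _ _).trans (le_max_left _ _)).trans hV
  obtain ⟨e1, e2, e3⟩ := hV3 V ((le_max_right _ _).trans hV)
  have hV20 : 20 ≤ V := hV0.trans hVV0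
  have hlV1 : 1 ≤ Real.log V := by
    rw [Real.le_log_iff_exp_le (by linarith)]
    linarith [Real.exp_one_lt_d9]
  have hΛ1 : 1 ≤ Λ := hlV1.trans hΛ
  set Y := V * Real.log V with hY
  have hVY : V ≤ Y := by rw [hY]; nlinarith
  have hY0 : 0 < Y := by linarith
  have hPblk : PP1 (Zb V (2 * V)) mz (fun s => s.im) Λ ≤ C * Y :=
    (PP1_anti (x := fun s : ℂ => s.im) (Zb V (2 * V)) mz_nonneg (by linarith) hΛ).trans
      (hblk V hVV0)
  have hPt := hloc V hVV0 Λ hΛ
  set A := (Zt V).filter (fun s => V - 1 < s.im) with hA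
  set B := (Zt V).filter (fun s => ¬ V - 1 < s.im) with hB
  have hAsum : 2 * (∑ s ∈ A, mz s) ^ 2 ≤ V := by
    refine le_trans ?_ (hnear V hVV2)
    have : ∑ s ∈ A, mz s ≤ ∑ s ∈ Zb (V - 1) (V - 1 + 3), mz s := by
      refine Finset.sum_le_sum_of_subset_of_nonneg (fun s hs => ?_) fun s _ _ => mz_nonneg s
      obtain ⟨h1, h2⟩ := Finset.mem_filter.1 hs
      rw [mem_Zt] at h1
      rw [mem_Zb (by linarith)]
      exact ⟨h1.1, h1.2.1, h2, by linarith [h1.2.2.2.1], h1.2.2.2.2⟩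
    have h0 : 0 ≤ ∑ s ∈ A, mz s := Finset.sum_nonneg fun s _ => mz_nonneg s
    have := pow_le_pow_left₀ h0 this 2
    linarith
  have hPA : PP1 A mz (fun s => s.im) Λ ≤ V / 2 := by
    have := PP1_le_sq A mz_nonneg (x := fun s : ℂ => s.im) Λ
    linarith
  have hPB : PP1 B mz (fun s => s.im) Λ ≤ B0 + C * Y :=
    (PP1_mono (Finset.filter_subset _ _) mz_nonneg Λ).trans hPt
  have n1 := QS_abs_bound (x := fun s : ℂ => s.im) A (Zb V (2 * V)) mz_nonneg hf
    (Λ := Λ) (lam := lam) (by linarith) hlam0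
  have n2 := QS_far_bound (x := fun s : ℂ => s.im) B (Zb V (2 * V)) mz_nonneg hf hΛ1 (by
    intro s hs s' hs'
    obtain ⟨h1, h2⟩ := Finset.mem_filter.1 hs
    rw [mem_Zb (by linarith)] at hs'
    have h3 := hs'.2.2.1
    push Not at h2
    rw [abs_sub_comm]
    refine le_trans ?_ (le_abs_self _)
    linarith)
  have n0 := QS_le_abs (x := fun s : ℂ => s.im) (Zt V) (Zb V (2 * V)) mz_nonneg f Λ
  rw [← Finset.sum_filter_add_sum_filter_not (Zt V) (fun s => V - 1 < s.im)] at n0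
  -- the near part
  have b1 : 1600 * K * (lam * PP1 A mz (fun s => s.im) Λ +
      1 / lam * PP1 (Zb V (2 * V)) mz (fun s => s.im) Λ) ≤ 2 * η / 3 * Y := by
    have c1 : lam * PP1 A mz (fun s => s.im) Λ ≤ lam * V :=
      mul_le_mul_of_nonneg_left (by linarith) hlam0.le
    have c2 : 1600 * K * (lam * V) ≤ η / 3 * Y := by
      rw [div_le_iff₀ hη] at e1
      have : 1600 * K * (lam * V) ≤ 1600 * (K + 1) * (lam * V) := by
        have : 0 ≤ lam * V := by positivity
        nlinarith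
      refine this.trans ?_
      have h3 : 4800 * (K + 1) * lam * V ≤ Real.log V * η * V :=
        mul_le_mul_of_nonneg_right e1 (by linarith)
      rw [hY]
      linarith
    have c3 : 1 / lam * PP1 (Zb V (2 * V)) mz (fun s => s.im) Λ ≤ 1 / lam * (C * Y) :=
      mul_le_mul_of_nonneg_left hPblk (by positivity)
    have c4 : 1600 * K * (1 / lam * (C * Y)) ≤ η / 3 * Y := by
      have h4 : 1600 * K * (1 / lam * (C * Y)) = (1600 * K * C / lam) * Y := by
        field_simp
      rw [h4]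
      refine mul_le_mul_of_nonneg_right ?_ hY0.le
      rw [div_le_iff₀ hlam0, hlam]
      have h5 : η / 3 * (4800 * (K + 1) * (C + 1) / η) = 1600 * ((K + 1) * (C + 1)) := by
        field_simp
        ring
      rw [h5]
      nlinarith
    have hK0 : 0 ≤ 1600 * K := by positivity
    calc 1600 * K * (lam * PP1 A mz (fun s => s.im) Λ +
        1 / lam * PP1 (Zb V (2 * V)) mz (fun s => s.im) Λ) ≤
          1600 * K * (lam * V + 1 / lam * (C * Y)) := by gcongr
      _ = 1600 * K * (lam * V) + 1600 * K * (1 / lam * (C * Y)) := by ring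
      _ ≤ _ := by linarith
  -- the far part
  have b2 : 3200 * K / Real.sqrt Λ * (PP1 B mz (fun s => s.im) Λ +
      PP1 (Zb V (2 * V)) mz (fun s => s.im) Λ) ≤ η / 3 * Y := by
    have hs : 9600 * (K + 1) * (2 * C + 1) / η ≤ Real.sqrt Λ :=
      Real.le_sqrt_of_sq_le (e2.trans hΛ)
    have hs0 : 0 < Real.sqrt Λ := Real.sqrt_pos.2 (by linarith)
    have c1 : PP1 B mz (fun s => s.im) Λ + PP1 (Zb V (2 * V)) mz (fun s => s.im) Λ ≤
        (2 * C + 1) * Y := by nlinarith
    calc 3200 * K / Real.sqrt Λ * (PP1 B mz (fun s => s.im) Λ +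
        PP1 (Zb V (2 * V)) mz (fun s => s.im) Λ) ≤ 3200 * K / Real.sqrt Λ * ((2 * C + 1) * Y) :=
          mul_le_mul_of_nonneg_left c1 (by positivity)
      _ = (3200 * K * (2 * C + 1) / Real.sqrt Λ) * Y := by ring
      _ ≤ η / 3 * Y := by
          refine mul_le_mul_of_nonneg_right ?_ hY0.le
          rw [div_le_iff₀ hs0]
          rw [div_le_iff₀ hη] at hs
          nlinarith
  calc |QS (Zt V) (Zb V (2 * V)) mz (fun s => s.im) f Λ| ≤ _ := n0
    _ ≤ 2 * η / 3 * Y + η / 3 * Y := add_le_add (n1.trans b1) (n2.trans b2)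
    _ = η * Y := by ring

/-- pair sum over the zeros up to height `T` -/
noncomputable def Q2 (f : ℝ → ℝ) (T Λ : ℝ) : ℝ := QS (Zt T) (Zt T) mz (fun s => s.im) f Λ

lemma QS_split (hfe : ∀ x, f (-x) = f x) {V : ℝ} (hV : 1 ≤ V) (Λ : ℝ) :
    Q2 f (2 * V) Λ = Q2 f V Λ + QS (Zb V (2 * V)) (Zb V (2 * V)) mz (fun s => s.im) f Λ +
      2 * QS (Zt V) (Zb V (2 * V)) mz (fun s => s.im) f Λ := by
  classical
  exact split_pairs (Zt_split (V := V) (T := 2 * V) hV (by linarith)) (Zt_disj hV)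
    (fun s s' : ℂ => mz s * mz s' * f ((s.im - s'.im) * Λ / (2 * Real.pi)))
    (fun s s' => by
      show mz s * mz s' * f ((s.im - s'.im) * Λ / (2 * Real.pi)) =
        mz s' * mz s * f ((s'.im - s.im) * Λ / (2 * Real.pi))
      rw [← hfe, mul_comm (mz s)]
      congr 2
      ring)

lemma step_lim (hPP : PPB) (h : NTg f) {c : ℝ} (hb : Tendsto (fun V =>
      QS (Zb V (2 * V)) (Zb V (2 * V)) mz (fun s => s.im) f (Real.log V) / Xf V) atTop (𝓝 c))
    {σ : ℝ} (hσ : 0 ≤ σ) :
    Tendsto (fun V => (Q2 f (2 * V) (Real.log V + σ) - Q2 f V (Real.log V + σ)) / Xf V) atTop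
      (𝓝 c) := by
  obtain ⟨C, B0, V0, hC, hB0, hV0, hblk, hloc⟩ := id hPP
  obtain ⟨C1, hC1, hs⟩ := h.scale
  have h1 := hb
  -- scale change
  have h2 : Tendsto (fun V => (QS (Zb V (2 * V)) (Zb V (2 * V)) mz (fun s => s.im) f
      (Real.log V + σ) - QS (Zb V (2 * V)) (Zb V (2 * V)) mz (fun s => s.im) f (Real.log V)) /
      Xf V) atTop (𝓝 0) := by
    have h3 : Tendsto (fun V : ℝ => 3200 * C1 * σ * C * (2 * Real.pi) * (Real.log V)⁻¹) atTop
        (𝓝 (3200 * C1 * σ * C * (2 * Real.pi) * 0)) :=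
      (tendsto_inv_atTop_zero.comp Real.tendsto_log_atTop).const_mul _
    rw [mul_zero] at h3
    refine squeeze_zero_norm' ?_ h3
    filter_upwards [eventually_ge_atTop V0] with V hV
    have hV20 : 20 ≤ V := hV0.trans hV
    have hL : 0 < Real.log V := Real.log_pos (by linarith)
    have hX := Xf_pos (V := V) (by linarith)
    have h4 := scale_err (x := fun s : ℂ => s.im) (Zb V (2 * V)) mz_nonneg hC1 hs hL
      (s := 1 + σ / Real.log V) (by
        have : 0 ≤ σ / Real.log V := by positivity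
        linarith)
    have e1 : (1 + σ / Real.log V) * Real.log V = Real.log V + σ := by field_simp
    rw [e1] at h4
    rw [Real.norm_eq_abs, abs_div, abs_of_pos hX, div_le_iff₀ hX]
    refine h4.trans ((mul_le_mul_of_nonneg_left (hblk V hV) ?_).trans (le_of_eq ?_))
    · have : 0 ≤ σ / Real.log V := by positivity
      have h5 : 0 ≤ C1 * (1 + σ / Real.log V - 1) := mul_nonneg hC1 (by linarith)
      linarith
    · unfold Xf
      have hpi := Real.pi_pos
      field_simp
      ring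
  -- cross terms
  have h3 : Tendsto (fun V => 2 * QS (Zt V) (Zb V (2 * V)) mz (fun s => s.im) f
      (Real.log V + σ) / Xf V) atTop (𝓝 0) := by
    rw [Metric.tendsto_atTop]
    intro ε hε
    obtain ⟨V1, hV1, h4⟩ := cross_small hPP h (η := ε / 16) (by positivity)
    refine ⟨V1, fun V hV => ?_⟩
    have hV20 : 20 ≤ V := hV1.trans hV
    have hX := Xf_pos (V := V) (by linarith)
    have h5 := h4 V hV (Real.log V + σ) (by linarith)
    rw [Real.dist_eq, sub_zero, abs_div, abs_of_pos hX, div_lt_iff₀ hX, abs_mul,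
      abs_of_pos (by norm_num : (0 : ℝ) < 2)]
    have hY : 0 < V * Real.log V := mul_pos (by linarith) (Real.log_pos (by linarith))
    have h6 : ε / 8 * (V * Real.log V) < ε * Xf V := by
      unfold Xf
      have hpi := Real.pi_lt_d2
      have hpi0 := Real.pi_pos
      rw [← mul_div_assoc, lt_div_iff₀ (by positivity)]
      have : 0 < ε * (V * Real.log V) := by positivity
      nlinarith
    linarith
  have h4 := (h1.add h2).add h3
  rw [add_zero, add_zero] at h4
  refine h4.congr' ?_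
  filter_upwards [eventually_ge_atTop (1 : ℝ)] with V hV
  rw [QS_split h.even hV]
  ring

lemma tele_lim (hPP : PPB) (h : NTg f) {c : ℝ} (hb : Tendsto (fun V =>
      QS (Zb V (2 * V)) (Zb V (2 * V)) mz (fun s => s.im) f (Real.log V) / Xf V) atTop (𝓝 c))
    (J : ℕ) :
    Tendsto (fun T => (Q2 f T (Real.log T) - Q2 f (T / 2 ^ J) (Real.log T)) / Xf T) atTop
      (𝓝 (c * (1 - 1 / 2 ^ J))) := by
  induction J with
  | zero =>
    simp only [pow_zero, div_one, sub_self, zero_div, mul_zero]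
    exact tendsto_const_nhds
  | succ J ih =>
    have h1 := step_lim hPP h hb (σ := (J + 1) * Real.log 2)
      (mul_nonneg (by positivity) (Real.log_nonneg (by norm_num)))
    have ht : Tendsto (fun T : ℝ => T / 2 ^ (J + 1)) atTop atTop :=
      tendsto_id.atTop_div_const (by positivity)
    have h2 := h1.comp ht
    have h3 : Tendsto (fun T : ℝ => Xf (T / 2 ^ (J + 1)) / Xf T) atTop (𝓝 (1 / 2 ^ (J + 1))) := by
      have h4 : Tendsto (fun T : ℝ => 1 / 2 ^ (J + 1) * (1 - (J + 1) * Real.log 2 *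
          (Real.log T)⁻¹)) atTop (𝓝 (1 / 2 ^ (J + 1) * (1 - (J + 1) * Real.log 2 * 0))) :=
        (tendsto_const_nhds.sub ((tendsto_inv_atTop_zero.comp
          Real.tendsto_log_atTop).const_mul _)).const_mul _
      rw [mul_zero, sub_zero, mul_one] at h4
      refine h4.congr' ?_
      filter_upwards [eventually_gt_atTop (1 : ℝ)] with T hT
      have hL : 0 < Real.log T := Real.log_pos hT
      unfold Xf
      rw [Real.log_div (by linarith) (by positivity), Real.log_pow]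
      have hpi := Real.pi_pos
      push_cast
      field_simp
    have h4 := ih.add (h2.mul h3)
    have e : c * (1 - 1 / 2 ^ J) + c * (1 / 2 ^ (J + 1)) =
        c * (1 - 1 / 2 ^ (J + 1)) := by
      rw [pow_succ]
      field_simp
      ring
    rw [e] at h4
    refine h4.congr' ?_
    filter_upwards [eventually_gt_atTop ((2 : ℝ) ^ (J + 1))] with T hT
    have hT1 : 1 < T := lt_of_le_of_lt (one_le_pow₀ (by norm_num)) hT
    have hV : 1 < T / 2 ^ (J + 1) := by
      rw [lt_div_iff₀ (by positivity)]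
      linarith
    have hX := Xf_pos hT1
    have hXV := Xf_pos hV
    show (Q2 f T (Real.log T) - Q2 f (T / 2 ^ J) (Real.log T)) / Xf T +
      (Q2 f (2 * (T / 2 ^ (J + 1))) (Real.log (T / 2 ^ (J + 1)) + (J + 1) * Real.log 2) -
        Q2 f (T / 2 ^ (J + 1)) (Real.log (T / 2 ^ (J + 1)) + (J + 1) * Real.log 2)) /
        Xf (T / 2 ^ (J + 1)) * (Xf (T / 2 ^ (J + 1)) / Xf T) = _
    have e1 : Real.log (T / 2 ^ (J + 1)) + (J + 1) * Real.log 2 = Real.log T := by
      rw [Real.log_div (by linarith) (by positivity), Real.log_pow]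
      push_cast
      ring
    have e2 : 2 * (T / 2 ^ (J + 1)) = T / 2 ^ J := by
      rw [pow_succ]
      field_simp
    rw [e1, e2]
    field_simp
    ring

/-- the limit for the zeros up to height `T` from the limit for the dyadic blocks -/
theorem mont_lim (hPP : PPB) (h : NTg f) {c : ℝ} (hb : Tendsto (fun V =>
      QS (Zb V (2 * V)) (Zb V (2 * V)) mz (fun s => s.im) f (Real.log V) / Xf V) atTop (𝓝 c)) :
    Tendsto (fun T => Q2 f T (Real.log T) / Xf T) atTop (𝓝 c) := by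
  obtain ⟨C, B0, V0, hC, hB0, hV0, hblk, hloc⟩ := id hPP
  obtain ⟨K, hK, hf⟩ := h.decay
  rw [Metric.tendsto_atTop]
  intro ε hε
  set D : ℝ := |c| + 3200 * K * (2 * Real.pi) * (C + 1) with hD
  have hpi := Real.pi_pos
  have hD0 : 0 ≤ D := by positivity
  obtain ⟨J, hJ⟩ := pow_unbounded_of_one_lt (4 * (D + 1) / ε) (one_lt_two)
  have h1 := (Metric.tendsto_nhds.1 (tele_lim hPP h hb J)) (ε / 4) (by positivity)
  have ev2 : ∀ᶠ T : ℝ in atTop, (2 : ℝ) ^ J * V0 ≤ T := eventually_ge_atTop _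
  have ev3 : ∀ᶠ T : ℝ in atTop, (2 : ℝ) ^ J * B0 ≤ T := eventually_ge_atTop _
  obtain ⟨T1, hT1⟩ := (h1.and (ev2.and ev3)).exists_forall_of_atTop
  refine ⟨T1, fun T hT => ?_⟩
  obtain ⟨a1, a2, a3⟩ := hT1 T hT
  have h2J : (1 : ℝ) ≤ 2 ^ J := one_le_pow₀ (by norm_num)
  have hTV : V0 ≤ T / 2 ^ J := by
    rw [le_div_iff₀ (by positivity)]
    linarith
  have hT20 : 20 ≤ T := by
    have : T / 2 ^ J ≤ T := by
      rw [div_le_iff₀ (by positivity)]
      have : 0 ≤ T := by
        by_contra hc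
        push Not at hc
        have : T / 2 ^ J < 0 := div_neg_of_neg_of_pos hc (by positivity)
        linarith
      nlinarith
    linarith
  have hL1 : 1 ≤ Real.log T := by
    rw [Real.le_log_iff_exp_le (by linarith)]
    linarith [Real.exp_one_lt_d9]
  have hX := Xf_pos (V := T) (by linarith)
  have hlog : Real.log (T / 2 ^ J) ≤ Real.log T := by
    refine Real.log_le_log (by linarith) ?_
    rw [div_le_iff₀ (by positivity)]
    nlinarith
  -- the first block
  have b1 : |Q2 f (T / 2 ^ J) (Real.log T)| ≤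
      3200 * K * (B0 + C * (T / 2 ^ J * Real.log (T / 2 ^ J))) := by
    unfold Q2
    refine (QS_le_abs _ _ mz_nonneg _ _).trans ?_
    refine (QS_abs_bound (x := fun s : ℂ => s.im) _ _ mz_nonneg hf (by linarith) one_pos).trans ?_
    have h3 := hloc (T / 2 ^ J) hTV (Real.log T) hlog
    have h4 : (1 : ℝ) * PP1 (Zt (T / 2 ^ J)) mz (fun s => s.im) (Real.log T) +
        1 / 1 * PP1 (Zt (T / 2 ^ J)) mz (fun s => s.im) (Real.log T) ≤
        2 * (B0 + C * (T / 2 ^ J * Real.log (T / 2 ^ J))) := by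
      rw [one_mul, div_one, one_mul]
      linarith
    have h5 := mul_le_mul_of_nonneg_left h4 (show (0 : ℝ) ≤ 1600 * K by positivity)
    linarith
  have b2 : |Q2 f (T / 2 ^ J) (Real.log T)| / Xf T ≤
      3200 * K * (2 * Real.pi) * (C + 1) / 2 ^ J := by
    rw [div_le_div_iff₀ hX (by positivity)]
    have h3 : B0 ≤ T / 2 ^ J * Real.log T := by
      have : B0 ≤ T / 2 ^ J := by
        rw [le_div_iff₀ (by positivity)]
        linarith
      have h4 : 0 ≤ T / 2 ^ J := by linarith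
      nlinarith
    have h4 : C * (T / 2 ^ J * Real.log (T / 2 ^ J)) ≤ C * (T / 2 ^ J * Real.log T) := by
      have h5 : 0 ≤ T / 2 ^ J := by linarith
      gcongr
    have h5 : |Q2 f (T / 2 ^ J) (Real.log T)| ≤
        3200 * K * ((C + 1) * (T / 2 ^ J * Real.log T)) := by
      refine b1.trans (mul_le_mul_of_nonneg_left ?_ (by positivity))
      linarith
    have h6 : 3200 * K * ((C + 1) * (T / 2 ^ J * Real.log T)) * 2 ^ J =
        3200 * K * (2 * Real.pi) * (C + 1) * Xf T := by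
      unfold Xf
      field_simp
    rw [← h6]
    exact mul_le_mul_of_nonneg_right h5 (by positivity)
  rw [Real.dist_eq] at a1 ⊢
  have e : Q2 f T (Real.log T) / Xf T - c =
      ((Q2 f T (Real.log T) - Q2 f (T / 2 ^ J) (Real.log T)) / Xf T - c * (1 - 1 / 2 ^ J)) +
      (Q2 f (T / 2 ^ J) (Real.log T) / Xf T - c / 2 ^ J) := by
    ring
  rw [e]
  have b3 : |Q2 f (T / 2 ^ J) (Real.log T) / Xf T - c / 2 ^ J| ≤ D / 2 ^ J := by
    refine (abs_sub _ _).trans ?_
    rw [abs_div, abs_div, abs_of_pos hX, abs_of_pos (by positivity : (0 : ℝ) < 2 ^ J), hD,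
      add_div, add_comm]
    gcongr
  have b4 : D / 2 ^ J < ε / 4 := by
    rw [div_lt_iff₀ hε] at hJ
    rw [div_lt_iff₀ (by positivity)]
    linarith
  refine (abs_add_le _ _).trans_lt ?_
  linarith

end Pool.Agent.E8helper29.PC
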