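import Pool.Agent.E8helper29.PC.Test

/-! Band-limited test functions concentrated on a given interval up to an exponentially small
error. -/

open MeasureTheory Filter Topology Real
open scoped ContDiff

namespace Pool.Agent.E8helper29.PC

open Pool.Agent.Y744 Pool.Agent.Y744.TK

/-- the product of two transforms is a transform -/
lemma ct_mul {κ1 κ2 : ℝ} {K1 K2 : ℝ → ℝ} (h1 : TK κ1 K1) (h2 : TK κ2 K2) :
    ∃ K, TK (κ1 + κ2) K ∧ ∀ x, ct K x = ct K1 x * ct K2 x := by
  set G : ℝ → ℝ := convolution K1 K2 (ContinuousLinearMap.mul ℝ ℝ) volume with hG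
  have hGt : TK (κ1 + κ2) G := by
    refine ⟨?_, fun x => ?_, fun x hx => ?_⟩
    · exact HasCompactSupport.contDiff_convolution_right _ h2.hcs
        (h1.cont.locallyIntegrable) h2.smooth
    · rw [hG]
      unfold convolution
      rw [← integral_neg_eq_self]
      refine integral_congr_ae (Eventually.of_forall fun t => ?_)
      show K1 (-t) * K2 (-x - -t) = K1 t * K2 (x - t)
      rw [h1.even, ← h2.even (-x - -t)]
      congr 2
      ring
    · rw [hG]
      unfold convolution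
      rw [integral_eq_zero_of_ae]
      refine Eventually.of_forall fun t => ?_
      show K1 t * K2 (x - t) = 0
      by_cases h3 : κ1 < |t|
      · rw [h1.supp t h3, zero_mul]
      · rw [h2.supp (x - t), mul_zero]
        have := abs_sub_abs_le_abs_sub x t
        linarith
  refine ⟨G, hGt, fun x => ?_⟩
  set c : ℝ := 2 * π * x with hc
  set A : ℝ → ℝ := fun α => K1 α * Real.cos (c * α) with hA
  set B : ℝ → ℝ := fun α => K1 α * Real.sin (c * α) with hB
  set A2 : ℝ → ℝ := fun α => K2 α * Real.cos (c * α) with hA2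
  set B2 : ℝ → ℝ := fun α => K2 α * Real.sin (c * α) with hB2
  have iA : Integrable A := h1.mul_int (by fun_prop)
  have iB : Integrable B := h1.mul_int (by fun_prop)
  have iA2 : Integrable A2 := h2.mul_int (by fun_prop)
  have iB2 : Integrable B2 := h2.mul_int (by fun_prop)
  have hAc : HasCompactSupport A := h1.hcs.mul_right
  have hBc : HasCompactSupport B := h1.hcs.mul_right
  have cA : Continuous A := h1.cont.mul (by fun_prop)
  have cB : Continuous B := h1.cont.mul (by fun_prop)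
  have cA2 : Continuous A2 := h2.cont.mul (by fun_prop)
  have cB2 : Continuous B2 := h2.cont.mul (by fun_prop)
  have e1 : ∀ α, G α * Real.cos (c * α) = convolution A A2 (ContinuousLinearMap.mul ℝ ℝ) volume α -
      convolution B B2 (ContinuousLinearMap.mul ℝ ℝ) volume α := by
    intro α
    rw [hG]
    unfold convolution
    have i1 : Integrable fun t => A t * A2 (α - t) :=
      (cA.mul (by fun_prop)).integrable_of_hasCompactSupport hAc.mul_right
    have i2 : Integrable fun t => B t * B2 (α - t) :=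
      (cB.mul (by fun_prop)).integrable_of_hasCompactSupport hBc.mul_right
    show (∫ t, K1 t * K2 (α - t)) * Real.cos (c * α) = (∫ t, A t * A2 (α - t)) -
      ∫ t, B t * B2 (α - t)
    rw [← integral_sub i1 i2, ← integral_mul_const]
    refine integral_congr_ae (Eventually.of_forall fun t => ?_)
    show K1 t * K2 (α - t) * Real.cos (c * α) = K1 t * Real.cos (c * t) *
      (K2 (α - t) * Real.cos (c * (α - t))) - K1 t * Real.sin (c * t) *
      (K2 (α - t) * Real.sin (c * (α - t)))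
    have : c * α = c * t + c * (α - t) := by ring
    rw [this, Real.cos_add]
    ring
  have e2 : ct G x = (∫ α, convolution A A2 (ContinuousLinearMap.mul ℝ ℝ) volume α) -
      ∫ α, convolution B B2 (ContinuousLinearMap.mul ℝ ℝ) volume α := by
    rw [← integral_sub (iA.integrable_convolution _ iA2) (iB.integrable_convolution _ iB2)]
    unfold ct
    exact integral_congr_ae (Eventually.of_forall fun α => e1 α)
  rw [e2, integral_convolution _ iA iA2, integral_convolution _ iB iB2]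
  have e3 : ∫ α, B α = 0 := h1.sin_zero c
  rw [e3]
  show (∫ α, A α) * (∫ α, A2 α) - 0 * ∫ α, B2 α = ct K1 x * ct K2 x
  rw [zero_mul, sub_zero]
  rfl

lemma ct_pow {κ : ℝ} {K : ℝ → ℝ} (h : TK κ K) (m : ℕ) :
    ∃ K', TK ((m + 1 : ℝ) * κ) K' ∧ ∀ x, ct K' x = (ct K x) ^ (m + 1) := by
  induction m with
  | zero =>
    refine ⟨K, ?_, fun x => by simp⟩
    have : ((0 : ℕ) + 1 : ℝ) * κ = κ := by simp
    rw [this]
    exact h
  | succ m ih =>
    obtain ⟨K1, h1, e1⟩ := ih
    obtain ⟨K2, h2, e2⟩ := ct_mul h1 h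
    refine ⟨K2, ?_, fun x => ?_⟩
    · have : ((m + 1 : ℕ) + 1 : ℝ) * κ = (m + 1 : ℝ) * κ + κ := by push_cast; ring
      rw [this]
      exact h2
    · rw [e2, e1]
      ring

/-- translates -/
lemma ct_shift {κ : ℝ} {K : ℝ → ℝ} (h : TK κ K) (x0 : ℝ) :
    ∃ K', TK κ K' ∧ ∀ x, ct K' x = ct K (x - x0) + ct K (x + x0) := by
  refine ⟨fun α => 2 * Real.cos (2 * π * x0 * α) * K α, ⟨?_, fun x => ?_, fun x hx => ?_⟩,
    fun x => ?_⟩
  · have := h.smooth
    fun_prop
  · show 2 * Real.cos (2 * π * x0 * -x) * K (-x) = 2 * Real.cos (2 * π * x0 * x) * K x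
    rw [h.even, mul_neg, Real.cos_neg]
  · show 2 * Real.cos (2 * π * x0 * x) * K x = 0
    rw [h.supp x hx, mul_zero]
  · unfold ct
    rw [← integral_add (h.mul_int (by fun_prop)) (h.mul_int (by fun_prop))]
    refine integral_congr_ae (Eventually.of_forall fun α => ?_)
    show 2 * Real.cos (2 * π * x0 * α) * K α * Real.cos (2 * π * x * α) =
      K α * Real.cos (2 * π * (x - x0) * α) + K α * Real.cos (2 * π * (x + x0) * α)
    have e1 : 2 * π * (x - x0) * α = 2 * π * x * α - 2 * π * x0 * α := by ring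
    have e2 : 2 * π * (x + x0) * α = 2 * π * x * α + 2 * π * x0 * α := by ring
    rw [e1, e2, Real.cos_sub, Real.cos_add]
    ring

/-- a normalised nonnegative kernel -/
lemma base_kernel {κ : ℝ} (hκ : 0 < κ) : ∃ K C, TK κ K ∧ 1 ≤ C ∧ (∀ x, 0 ≤ ct K x) ∧
    (∀ x, ct K x ≤ 1) ∧ (∀ x, 1 - C * x ^ 2 ≤ ct K x) ∧ ∀ x, x ^ 2 * ct K x ≤ C := by
  obtain ⟨K, hK, h0, hpos, hle⟩ := exists_pos hκ
  set a := ct K 0 with ha
  set K' : ℝ → ℝ := fun α => a⁻¹ * K α with hK'
  have hT : TK κ K' := by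
    refine ⟨?_, fun x => ?_, fun x hx => ?_⟩
    · have := hK.smooth
      fun_prop
    · show a⁻¹ * K (-x) = a⁻¹ * K x
      rw [hK.even]
    · show a⁻¹ * K x = 0
      rw [hK.supp x hx, mul_zero]
  have hct : ∀ x, ct K' x = a⁻¹ * ct K x := by
    intro x
    unfold ct
    rw [← integral_const_mul]
    refine integral_congr_ae (Eventually.of_forall fun α => ?_)
    show a⁻¹ * K α * _ = a⁻¹ * (K α * _)
    ring
  obtain ⟨C1, hC1, hd⟩ := hT.decay 1
  set C2 : ℝ := ∫ α, |K' α * (2 * π * α) ^ 2 / 2| with hC2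
  have hC20 : 0 ≤ C2 := integral_nonneg fun _ => abs_nonneg _
  have hint : Integrable fun α => K' α * (2 * π * α) ^ 2 / 2 := by
    have := hT.mul_int (f := fun α => (2 * π * α) ^ 2 / 2) (by fun_prop)
    refine this.congr (Eventually.of_forall fun α => ?_)
    show K' α * ((2 * π * α) ^ 2 / 2) = _
    ring
  refine ⟨K', 1 + C1 + C2, hT, by linarith, fun x => ?_, fun x => ?_, fun x => ?_, fun x => ?_⟩
  · rw [hct]
    exact mul_nonneg (inv_nonneg.2 hpos.le) (h0 x)
  · rw [hct, inv_mul_le_iff₀ hpos, mul_one]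
    exact hle x
  · have h1 : ct K' 0 = 1 := by rw [hct, inv_mul_cancel₀ hpos.ne']
    have h2 : ct K' 0 - ct K' x = ∫ α, K' α * (1 - Real.cos (2 * π * x * α)) := by
      unfold ct
      rw [← integral_sub (hT.mul_int (by fun_prop)) (hT.mul_int (by fun_prop))]
      refine integral_congr_ae (Eventually.of_forall fun α => ?_)
      show K' α * Real.cos (2 * π * 0 * α) - K' α * Real.cos (2 * π * x * α) = _
      rw [mul_zero, zero_mul, Real.cos_zero]
      ring
    have h3 : ∫ α, K' α * (1 - Real.cos (2 * π * x * α)) ≤ x ^ 2 * C2 := by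
      rw [hC2, ← integral_const_mul]
      refine integral_mono (hT.mul_int (by fun_prop)) (hint.abs.const_mul _) fun α => ?_
      show K' α * (1 - Real.cos (2 * π * x * α)) ≤ x ^ 2 * |K' α * (2 * π * α) ^ 2 / 2|
      have h4 : 1 - (2 * π * x * α) ^ 2 / 2 ≤ Real.cos (2 * π * x * α) :=
        Real.one_sub_sq_div_two_le_cos
      have h5 := Real.cos_le_one (2 * π * x * α)
      calc K' α * (1 - Real.cos (2 * π * x * α)) ≤ |K' α| * (1 - Real.cos (2 * π * x * α)) :=
            mul_le_mul_of_nonneg_right (le_abs_self _) (by linarith)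
        _ ≤ |K' α| * ((2 * π * x * α) ^ 2 / 2) :=
            mul_le_mul_of_nonneg_left (by linarith) (abs_nonneg _)
        _ = x ^ 2 * |K' α * (2 * π * α) ^ 2 / 2| := by
            have e : |K' α * (2 * π * α) ^ 2 / 2| = |K' α| * ((2 * π * α) ^ 2 / 2) := by
              rw [mul_div_assoc, abs_mul _ ((2 * π * α) ^ 2 / 2),
                abs_of_nonneg (by positivity : 0 ≤ (2 * π * α) ^ 2 / 2)]
            rw [e]
            ring
    have h6 : (1 + C1 + C2) * x ^ 2 ≥ x ^ 2 * C2 := by nlinarith [sq_nonneg x]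
    linarith
  · have h1 := hd x
    rw [pow_one, le_div_iff₀ (by positivity)] at h1
    have h2 : 0 ≤ ct K' x := by
      rw [hct]
      exact mul_nonneg (inv_nonneg.2 hpos.le) (h0 x)
    rw [abs_of_nonneg h2] at h1
    nlinarith [sq_nonneg x]

/-- **the kernels** -/
theorem kernels {κ : ℝ} (hκ : 0 < κ) : ∃ C : ℝ, 1 ≤ C ∧ ∀ m : ℕ, 1 ≤ m → ∃ K, TK κ K ∧
    (∀ x, 0 ≤ ct K x) ∧ (∀ x, ct K x ≤ 1) ∧ (∀ x, 1 - C * x ^ 2 ≤ ct K x) ∧
    ∀ x, x ≠ 0 → ct K x ≤ (C * (m : ℝ) ^ 2 / x ^ 2) ^ m := by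
  obtain ⟨K0, C, h0, hC, hpos, hle, hlow, hdec⟩ := base_kernel hκ
  refine ⟨C, hC, fun m hm => ?_⟩
  obtain ⟨n, rfl⟩ : ∃ n, m = n + 1 := ⟨m - 1, by omega⟩
  have hm0 : (0 : ℝ) < (n : ℝ) + 1 := by positivity
  have hd := h0.dil (ε := ((n : ℝ) + 1)⁻¹) (inv_pos.2 hm0)
  have hcd := fun x => ct_dil K0 (ε := ((n : ℝ) + 1)⁻¹) (inv_pos.2 hm0) x
  obtain ⟨K, hK, hpow⟩ := ct_pow hd n
  have e1 : ((n : ℝ) + 1) * (((n : ℝ) + 1)⁻¹ * κ) = κ := by field_simp
  rw [e1] at hK
  have hct : ∀ x, ct K x = ct K0 (((n : ℝ) + 1)⁻¹ * x) ^ (n + 1) := by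
    intro x
    rw [hpow, hcd]
  refine ⟨K, hK, fun x => ?_, fun x => ?_, fun x => ?_, fun x hx => ?_⟩
  · rw [hct]
    exact pow_nonneg (hpos _) _
  · rw [hct]
    exact pow_le_one₀ (hpos _) (hle _)
  · rw [hct]
    set y := ((n : ℝ) + 1)⁻¹ * x with hy
    have h1 := hpos y
    have h2 := hle y
    have h3 : 1 + ((n + 1 : ℕ) : ℝ) * (ct K0 y - 1) ≤ (1 + (ct K0 y - 1)) ^ (n + 1) :=
      one_add_mul_le_pow (by linarith) (n + 1)
    rw [add_sub_cancel] at h3
    refine le_trans ?_ h3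
    have h4 := hlow y
    have h5 : ((n : ℝ) + 1) * (C * y ^ 2) ≤ C * x ^ 2 := by
      have : ((n : ℝ) + 1) * (C * y ^ 2) = C * x ^ 2 / ((n : ℝ) + 1) := by
        rw [hy]
        field_simp
      rw [this]
      apply div_le_self (by positivity)
      have : (0 : ℝ) ≤ n := Nat.cast_nonneg n
      linarith
    push_cast
    nlinarith
  · rw [hct]
    set y := ((n : ℝ) + 1)⁻¹ * x with hy
    have hx2 : 0 < x ^ 2 := by positivity
    refine pow_le_pow_left₀ (hpos y) ?_ _
    rw [le_div_iff₀ hx2]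
    have h4 := hdec y
    have h5 : x ^ 2 = ((n : ℝ) + 1) ^ 2 * y ^ 2 := by
      rw [hy]
      field_simp
    rw [h5]
    push_cast
    nlinarith [sq_nonneg ((n : ℝ) + 1)]

end Pool.Agent.E8helper29.PC
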