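import Pool.Agent.E8helper29.PC.LimA
import Pool.Agent.H336R2.V.ExistsLam

/-! Analysis of the limit functions. -/

open MeasureTheory Filter Topology Real

namespace Pool.Agent.E8helper29.PC

open Pool.Agent.Y744

lemma gp_low {y : ℝ} (hy : 0 ≤ y) : y - 1 / 2 ≤ gp y := by
  have h1 : gp y = y - ∫ u in (0 : ℝ)..y, Real.sinc (π * u) ^ 2 := by
    have hc : Continuous fun u : ℝ => Real.sinc (π * u) ^ 2 :=
      (Real.continuous_sinc.comp (by fun_prop : Continuous fun u : ℝ => π * u)).pow 2
    unfold gp gd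
    rw [intervalIntegral.integral_sub intervalIntegrable_const (hc.intervalIntegrable _ _)]
    simp
  have h2 : ∫ u in (0 : ℝ)..y, Real.sinc (π * u) ^ 2 ≤ 1 / 2 := by
    rw [intervalIntegral.integral_of_le hy, ← H336V.ExistsLam.integral_sinc_sq]
    exact setIntegral_mono_set H336V.ExistsLam.sinc_sq_integrable.integrableOn
      (Eventually.of_forall fun u => sq_nonneg _)
      (Eventually.of_forall fun u hu => hu.1)
  linarith

lemma AG_pos {y : ℝ} (hy : 0 ≤ y) : AG y = 1 + 2 * gp y := by
  unfold AG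
  rw [if_neg (not_lt.2 hy)]

variable {A' : ℝ → ℝ} {C : ℝ}

/-- linear growth -/
lemma lin_bound (hC : 0 < C) (hA' : Monotone A') (h0 : 1 ≤ A' 0)
    (havg : ∀ a, 0 < a → ∫ y in (0 : ℝ)..a, A' y ≤ a ^ 2 + C + Real.log (1 + a) / π ^ 2) :
    ∃ B : ℝ, 0 ≤ B ∧ ∀ y, 0 ≤ y → |A' y| ≤ B * (1 + y) := by
  have hpi := Real.pi_gt_three
  have key : ∀ y, 1 ≤ y → A' y ≤ (C + 6) * y := by
    intro y hy
    have h1 : ∫ z in y..(2 * y), A' y ≤ ∫ z in y..(2 * y), A' z :=
      intervalIntegral.integral_mono_on (by linarith) intervalIntegrable_const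
        hA'.intervalIntegrable fun z hz => hA' hz.1
    rw [intervalIntegral.integral_const, smul_eq_mul] at h1
    have h2 : (∫ z in (0 : ℝ)..y, A' z) + ∫ z in y..(2 * y), A' z = ∫ z in (0 : ℝ)..(2 * y), A' z :=
      intervalIntegral.integral_add_adjacent_intervals hA'.intervalIntegrable
        hA'.intervalIntegrable
    have h3 : 0 ≤ ∫ z in (0 : ℝ)..y, A' z :=
      intervalIntegral.integral_nonneg (by linarith) fun z hz => by
        linarith [hA' hz.1]
    have h4 := havg (2 * y) (by linarith)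
    have h5 : Real.log (1 + 2 * y) / π ^ 2 ≤ 2 * y := by
      have h6 := Real.log_le_sub_one_of_pos (show 0 < 1 + 2 * y by linarith)
      rw [div_le_iff₀ (by positivity)]
      have h8 : (1 : ℝ) ≤ π ^ 2 := by nlinarith
      have h9 : 2 * y * 1 ≤ 2 * y * π ^ 2 := mul_le_mul_of_nonneg_left h8 (by linarith)
      linarith
    have h7 : y * A' y ≤ y * ((C + 6) * y) := by
      have h8 : y * A' y ≤ (2 * y) ^ 2 + C + 2 * y := by
        have e : (2 * y - y) * A' y = y * A' y := by ring
        rw [e] at h1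
        linarith
      have h9 : C ≤ C * (y * y) := le_mul_of_one_le_right hC.le (by nlinarith)
      nlinarith
    exact le_of_mul_le_mul_left h7 (by linarith)
  refine ⟨C + 6, by positivity, fun y hy => ?_⟩
  have h1 : 0 ≤ A' y := by linarith [hA' hy]
  rw [abs_of_nonneg h1]
  rcases le_total 1 y with h | h
  · have := key y h
    nlinarith
  · have h2 := key 1 le_rfl
    have h3 := hA' h
    nlinarith

/-- **the sum rule** -/
lemma sum_rule (hC : 0 < C) (hA' : Monotone A') (h0 : 1 ≤ A' 0)
    (havg : ∀ a, 0 < a → ∫ y in (0 : ℝ)..a, A' y ≤ a ^ 2 + C + Real.log (1 + a) / π ^ 2)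
    {B0 C1 c : ℝ} (hB0 : 0 ≤ B0) (hC1 : 0 ≤ C1) (hc : 0 < c)
    (hyp : ∀ y, B0 ≤ y → A' 0 + 2 * gp y - C1 * Real.exp (-(c * y)) ≤ A' y) : A' 0 ≤ 1 := by
  have hpi := Real.pi_gt_three
  by_contra hcon
  push Not at hcon
  set δ := A' 0 - 1 with hδ
  have hδ0 : 0 < δ := by linarith
  -- large `a`
  set M := C + B0 ^ 2 + C1 / c + δ * (1 + B0) with hM
  have hM0 : 0 ≤ M := by positivity
  have ev1 : ∀ᶠ b : ℝ in atTop, Real.log b ≤ δ / 2 * b := by
    have h1 := Real.isLittleO_log_id_atTop.bound (show (0 : ℝ) < δ / 2 by positivity)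
    filter_upwards [h1, eventually_ge_atTop (1 : ℝ)] with b hb hb1
    rw [Real.norm_eq_abs, Real.norm_eq_abs, id, abs_of_pos (by linarith : (0 : ℝ) < b)] at hb
    exact (le_abs_self _).trans hb
  obtain ⟨b, hb1, hb2, hb3⟩ := (ev1.and ((eventually_gt_atTop (2 * M / δ)).and
    (eventually_ge_atTop (2 + B0)))).exists
  set a := b - 1 with ha
  have ha0 : B0 + 1 ≤ a := by linarith
  have h1 := havg a (by linarith)
  have h2 : (∫ z in (0 : ℝ)..B0, A' z) + ∫ z in B0..a, A' z = ∫ z in (0 : ℝ)..a, A' z :=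
    intervalIntegral.integral_add_adjacent_intervals hA'.intervalIntegrable
      hA'.intervalIntegrable
  have h3 : 0 ≤ ∫ z in (0 : ℝ)..B0, A' z :=
    intervalIntegral.integral_nonneg hB0 fun z hz => by linarith [hA' hz.1]
  -- lower bound
  have hcont : Continuous fun y : ℝ => A' 0 - 1 + 2 * y - C1 * Real.exp (-(c * y)) := by fun_prop
  have h4 : ∫ z in B0..a, (A' 0 - 1 + 2 * z - C1 * Real.exp (-(c * z))) ≤ ∫ z in B0..a, A' z := by
    refine intervalIntegral.integral_mono_on (by linarith) (hcont.intervalIntegrable _ _)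
      hA'.intervalIntegrable fun z hz => ?_
    have h5 := hyp z hz.1
    have h6 := gp_low (hB0.trans hz.1)
    linarith
  have h5 : ∫ z in B0..a, (A' 0 - 1 + 2 * z - C1 * Real.exp (-(c * z))) =
      δ * (a - B0) + (a ^ 2 - B0 ^ 2) - C1 * ((Real.exp (-(c * B0)) - Real.exp (-(c * a))) / c) := by
    have hder : ∀ z ∈ Set.uIcc B0 a, HasDerivAt (fun z : ℝ => δ * z + z ^ 2 +
        C1 * (Real.exp (-(c * z)) / c)) (A' 0 - 1 + 2 * z - C1 * Real.exp (-(c * z))) z := by
      intro z _
      have d1 : HasDerivAt (fun z : ℝ => -(c * z)) (-(c * 1)) z :=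
        ((hasDerivAt_id z).const_mul c).neg
      have d2 := ((d1.exp).div_const c).const_mul C1
      have d3 := (((hasDerivAt_id z).const_mul δ).add (hasDerivAt_pow 2 z)).add d2
      refine d3.congr_deriv ?_
      rw [hδ]
      field_simp
      ring
    rw [intervalIntegral.integral_eq_sub_of_hasDerivAt hder (hcont.intervalIntegrable _ _)]
    ring
  have h6 : C1 * ((Real.exp (-(c * B0)) - Real.exp (-(c * a))) / c) ≤ C1 / c := by
    rw [← mul_div_assoc]
    apply div_le_div_of_nonneg_right _ hc.le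
    have h7 : Real.exp (-(c * B0)) ≤ 1 := Real.exp_le_one_iff.2 (by
      have := mul_nonneg hc.le hB0
      linarith)
    have h8 := Real.exp_pos (-(c * a))
    nlinarith
  have h7 : Real.log (1 + a) / π ^ 2 ≤ Real.log (1 + a) := by
    have h8 : 0 ≤ Real.log (1 + a) := Real.log_nonneg (by linarith)
    exact div_le_self h8 (by nlinarith)
  have h8 : 1 + a = b := by rw [ha]; ring
  rw [h8] at h1 h7
  have h9 : δ * (a - B0) ≤ C + B0 ^ 2 + C1 / c + δ / 2 * b := by linarith
  have h10 : δ * (a - B0) = δ * b - δ * (1 + B0) := by rw [ha]; ring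
  rw [h10] at h9
  rw [div_lt_iff₀ hδ0] at hb2
  linarith

/-- equality almost everywhere gives equality -/
lemma all_of_ae (hA' : Monotone A') (hneg : ∀ y, y < 0 → A' y = 0) (h0 : 1 ≤ A' 0)
    (hae : ∀ᵐ y, 0 < y → A' y = AG y) (x : ℝ) : A' x = AG x := by
  have hdense : Dense {y : ℝ | 0 < y → A' y = AG y} := Measure.dense_of_ae hae
  have key : ∀ y ∈ {y : ℝ | 0 < y → A' y = AG y}, 0 < y → A' y = 1 + 2 * gp y := by
    intro y hy hy0
    rw [← AG_pos hy0.le]
    exact hy hy0
  have hup : ∀ y, 0 ≤ y → A' y ≤ 1 + 2 * gp y := by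
    intro y hy
    refine le_of_forall_pos_le_add fun ε hε => ?_
    have hc : ContinuousAt (fun z => 1 + 2 * gp z) y :=
      continuousAt_const.add (continuousAt_const.mul gp_cont.continuousAt)
    have h3 : ∀ᶠ z in 𝓝 y, 1 + 2 * gp z < 1 + 2 * gp y + ε := hc.eventually_lt_const (by
      show 1 + 2 * gp y < _
      linarith)
    obtain ⟨δ, hδ, h4⟩ := Metric.eventually_nhds_iff.1 h3
    obtain ⟨z, hz, hz1, hz2⟩ := hdense.exists_between (show y < y + δ by linarith)
    have h5 := h4 (show dist z y < δ by rw [Real.dist_eq, abs_lt]; constructor <;> linarith)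
    have h6 := key z hz (by linarith)
    have h7 := hA' hz1.le
    linarith
  rcases lt_trichotomy x 0 with hx | rfl | hx
  · rw [hneg x hx]
    unfold AG
    rw [if_pos hx]
  · have h3 := hup 0 le_rfl
    rw [gp_zero] at h3
    rw [AG_pos le_rfl, gp_zero]
    linarith
  · have h3 := hup x hx.le
    rw [AG_pos hx.le]
    refine le_antisymm h3 ?_
    refine le_of_forall_pos_le_add fun ε hε => ?_
    have hc : ContinuousAt (fun z => 1 + 2 * gp z) x :=
      continuousAt_const.add (continuousAt_const.mul gp_cont.continuousAt)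
    have h3 : ∀ᶠ z in 𝓝 x, 1 + 2 * gp x - ε < 1 + 2 * gp z := hc.eventually_const_lt (by
      show _ < 1 + 2 * gp x
      linarith)
    obtain ⟨δ, hδ, h4⟩ := Metric.eventually_nhds_iff.1 h3
    obtain ⟨z, hz, hz1, hz2⟩ := hdense.exists_between
      (show max (x / 2) (x - δ / 2) < x by
        rw [max_lt_iff]; constructor <;> linarith)
    have hz3 : x / 2 < z := (le_max_left _ _).trans_lt hz1
    have hz4 : x - δ / 2 < z := (le_max_right _ _).trans_lt hz1
    have h5 := h4 (show dist z x < δ by rw [Real.dist_eq, abs_lt]; constructor <;> linarith)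
    have h6 := key z hz (by linarith)
    have h7 := hA' hz2.le
    linarith

/-- **a one sided bound with exponentially small error determines the limit** -/
theorem one_sided {κ : ℝ} (hκ : 0 < κ) (hA' : Monotone A') (hneg : ∀ y, y < 0 → A' y = 0)
    (h0 : 1 ≤ A' 0) {B : ℝ} (hB : 0 ≤ B) (hlin : ∀ y, 0 ≤ y → |A' y| ≤ B * (1 + y))
    (hmont : ∀ K, TK κ K → ∫ y, A' y * (y * ct K y) = ∫ y, AG y * (y * ct K y))
    {s B0 C1 c : ℝ} (hs : s = 1 ∨ s = -1) (hB0 : 0 ≤ B0) (hC1 : 0 ≤ C1) (hc : 0 < c)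
    (hyp : ∀ y, B0 ≤ y → -(C1 * Real.exp (-(c * y))) ≤ s * (A' y - AG y)) (x : ℝ) :
    A' x = AG x := by
  have hsabs : |s| = 1 := by rcases hs with h | h <;> rw [h] <;> norm_num
  set H : ℝ → ℝ := fun x => s * |x| * (A' |x| - AG |x|) with hH
  set E := B + 3 with hE
  have hAGb : ∀ y, 0 ≤ y → |AG y| ≤ 3 * (1 + y) := by
    intro y hy
    rw [AG_pos hy]
    have h1 := gp_nonneg hy
    have h2 := gp_le hy
    rw [abs_of_nonneg (by linarith)]
    linarith
  have hHb : ∀ x, |H x| ≤ 2 * E * (1 + x ^ 2) := by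
    intro x
    rw [hH]
    simp only
    rw [abs_mul, abs_mul, hsabs, one_mul, abs_abs]
    have h1 : abs (A' |x| - AG |x|) ≤ E * (1 + |x|) := by
      refine (abs_sub _ _).trans ?_
      have := hlin |x| (abs_nonneg x)
      have := hAGb |x| (abs_nonneg x)
      rw [hE]
      linarith
    calc |x| * abs (A' |x| - AG |x|) ≤ |x| * (E * (1 + |x|)) := by gcongr
      _ = E * (|x| + |x| ^ 2) := by ring
      _ ≤ E * (2 * (1 + |x| ^ 2)) := by
          have : 0 ≤ E := by positivity
          refine mul_le_mul_of_nonneg_left ?_ this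
          nlinarith [sq_nonneg (|x| - 1), abs_nonneg x]
      _ = 2 * E * (1 + x ^ 2) := by rw [sq_abs]; ring
  have hHm : Measurable H := by
    have h1 : Measurable fun x : ℝ => A' |x| := hA'.measurable.comp measurable_abs
    have h2 : Measurable fun x : ℝ => AG |x| := AG_meas.comp measurable_abs
    exact (measurable_const.mul measurable_abs).mul (h1.sub h2)
  have hHe : ∀ x, H (-x) = H x := by
    intro x
    rw [hH]
    simp only
    rw [abs_neg]
  set C2 := C1 * (2 / c) + 2 * E * (1 + B0 ^ 2) * Real.exp (c / 2 * B0) with hC2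
  have hE0 : 0 ≤ E := by positivity
  have hC20 : 0 ≤ C2 := by positivity
  have hlow : ∀ x, -(C2 * Real.exp (-(c / 2 * |x|))) ≤ H x := by
    intro x
    rcases le_or_gt B0 |x| with h | h
    · have h1 := hyp |x| h
      have h2 : |x| * Real.exp (-(c * |x|)) ≤ 2 / c * Real.exp (-(c / 2 * |x|)) := by
        have e : Real.exp (-(c * |x|)) = Real.exp (-(c / 2 * |x|)) * Real.exp (-(c / 2 * |x|)) := by
          rw [← Real.exp_add]
          congr 1
          ring
        have h3 : |x| * Real.exp (-(c / 2 * |x|)) ≤ 2 / c := by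
          rw [Real.exp_neg, ← div_eq_mul_inv, div_le_div_iff₀ (Real.exp_pos _) hc]
          have := Real.add_one_le_exp (c / 2 * |x|)
          linarith
        rw [e, ← mul_assoc]
        exact mul_le_mul_of_nonneg_right h3 (Real.exp_pos _).le
      have h3 : |x| * -(C1 * Real.exp (-(c * |x|))) ≤ |x| * (s * (A' |x| - AG |x|)) :=
        mul_le_mul_of_nonneg_left h1 (abs_nonneg x)
      have h4 : |x| * -(C1 * Real.exp (-(c * |x|))) = -(C1 * (|x| * Real.exp (-(c * |x|)))) := by
        ring
      have h5 : C1 * (|x| * Real.exp (-(c * |x|))) ≤ C1 * (2 / c * Real.exp (-(c / 2 * |x|))) :=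
        mul_le_mul_of_nonneg_left h2 hC1
      have h6 : C1 * (2 / c) * Real.exp (-(c / 2 * |x|)) ≤ C2 * Real.exp (-(c / 2 * |x|)) := by
        refine mul_le_mul_of_nonneg_right ?_ (Real.exp_pos _).le
        rw [hC2]
        have : 0 ≤ 2 * E * (1 + B0 ^ 2) * Real.exp (c / 2 * B0) := by positivity
        linarith
      show _ ≤ s * |x| * (A' |x| - AG |x|)
      have h7 : s * |x| * (A' |x| - AG |x|) = |x| * (s * (A' |x| - AG |x|)) := by ring
      rw [h7]
      linarith
    · have h1 := neg_le_of_abs_le (hHb x)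
      have h2 : x ^ 2 ≤ B0 ^ 2 := by
        rw [← sq_abs]
        exact pow_le_pow_left₀ (abs_nonneg _) h.le 2
      have h3 : 1 ≤ Real.exp (c / 2 * B0) * Real.exp (-(c / 2 * |x|)) := by
        rw [← Real.exp_add]
        apply Real.one_le_exp
        have : c / 2 * |x| ≤ c / 2 * B0 := by gcongr
        linarith
      have h4 : 2 * E * (1 + x ^ 2) ≤ C2 * Real.exp (-(c / 2 * |x|)) := by
        calc 2 * E * (1 + x ^ 2) ≤ 2 * E * (1 + B0 ^ 2) * 1 := by
              rw [mul_one]
              gcongr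
          _ ≤ 2 * E * (1 + B0 ^ 2) * (Real.exp (c / 2 * B0) * Real.exp (-(c / 2 * |x|))) := by
              gcongr
          _ = 2 * E * (1 + B0 ^ 2) * Real.exp (c / 2 * B0) * Real.exp (-(c / 2 * |x|)) := by ring
          _ ≤ C2 * Real.exp (-(c / 2 * |x|)) := by
              refine mul_le_mul_of_nonneg_right ?_ (Real.exp_pos _).le
              rw [hC2]
              have : 0 ≤ C1 * (2 / c) := by positivity
              linarith
      linarith
  have hz : ∀ K, TK κ K → ∫ x, H x * ct K x = 0 := by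
    intro K hK
    obtain ⟨D, hD0, hD⟩ := w_decay hK 2
    have hint : ∀ {F : ℝ → ℝ}, Measurable F → (∀ y, y < 0 → F y = 0) → ∀ {B' : ℝ}, 0 ≤ B' →
        (∀ y, 0 ≤ y → |F y| ≤ B' * (1 + y)) → Integrable fun y => F y * (y * ct K y) := by
      intro F hF hF0 B' hB' hFb
      refine Integrable.mono' ((integrable_inv_one_add_sq).const_mul (2 * B' * D))
        ((hF.mul (measurable_id.mul hK.ct_cont.measurable)).aestronglyMeasurable)
        (Eventually.of_forall fun y => ?_)
      have h4 : (0 : ℝ) < 1 + y ^ 2 := by positivity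
      rw [Real.norm_eq_abs, abs_mul]
      rcases lt_or_ge y 0 with hy | hy
      · rw [hF0 y hy, abs_zero, zero_mul]
        positivity
      · have h1 : |F y| ≤ 2 * B' * (1 + y ^ 2) := by
          refine (hFb y hy).trans ?_
          nlinarith [sq_nonneg (y - 1)]
        calc |F y| * |y * ct K y| ≤ (2 * B' * (1 + y ^ 2)) * (D / (1 + y ^ 2) ^ 2) := by
              gcongr
              exact hD y
          _ = 2 * B' * D * (1 + y ^ 2)⁻¹ := by field_simp
    have i1 := hint hA'.measurable hneg hB hlin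
    have i2 := hint AG_meas (fun y hy => by unfold AG; rw [if_pos hy]) (by norm_num : (0 : ℝ) ≤ 3)
      hAGb
    have e1 : ∀ x, H x * ct K x = (fun y => s * ((A' y - AG y) * (y * ct K y))) |x| := by
      intro x
      show s * |x| * (A' |x| - AG |x|) * ct K x = s * ((A' |x| - AG |x|) * (|x| * ct K |x|))
      have : ct K |x| = ct K x := by
        rcases abs_cases x with ⟨h, _⟩ | ⟨h, _⟩
        · rw [h]
        · rw [h, TK.ct_neg]
      rw [this]
      ring
    simp_rw [e1]
    rw [integral_comp_abs (f := fun y => s * ((A' y - AG y) * (y * ct K y))), integral_const_mul]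
    have e2 : ∫ y in Set.Ioi (0 : ℝ), (A' y - AG y) * (y * ct K y) =
        ∫ y, (A' y - AG y) * (y * ct K y) := by
      rw [← integral_Ici_eq_integral_Ioi, ← integral_indicator measurableSet_Ici]
      congr 1
      funext y
      by_cases hy : 0 ≤ y
      · rw [Set.indicator_of_mem (show y ∈ Set.Ici (0 : ℝ) from hy)]
      · rw [Set.indicator_of_notMem (show y ∉ Set.Ici (0 : ℝ) from hy)]
        have h1 : AG y = 0 := by unfold AG; rw [if_pos (not_le.1 hy)]
        rw [hneg y (not_le.1 hy), h1, sub_zero, zero_mul]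
    have e3 : ∫ y, (A' y - AG y) * (y * ct K y) =
        (∫ y, A' y * (y * ct K y)) - ∫ y, AG y * (y * ct K y) := by
      rw [← integral_sub i1 i2]
      congr 1
      funext y
      ring
    rw [e2, e3, hmont K hK, sub_self, mul_zero, mul_zero]
  have hzero := high_pass hκ hHm hHe hHb hC20 (by positivity : 0 < c / 2)
    (Eventually.of_forall hlow) hz
  refine all_of_ae hA' hneg h0 ?_ x
  filter_upwards [hzero] with y hy hy0
  have h1 : s * |y| * (A' |y| - AG |y|) = 0 := hy
  rw [abs_of_pos hy0] at h1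
  have hs0 : s ≠ 0 := by
    rintro rfl
    rw [abs_zero] at hsabs
    norm_num at hsabs
  have h2 : s * y ≠ 0 := mul_ne_zero hs0 hy0.ne'
  have h3 := (mul_eq_zero.1 h1).resolve_left h2
  linarith

end Pool.Agent.E8helper29.PC
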