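import Pool.Agent.E8helper29.PC.Exp1
import Pool.Agent.E8helper29.PC.LimB

/-! A one sided bound up to a distance determines the limit function up to an exponentially small
error. -/

open MeasureTheory Filter Topology Real

namespace Pool.Agent.E8helper29.PC

open Pool.Agent.Y744

set_option maxHeartbeats 2000000 in
/-- the basic inequality -/
theorem exp_key {κ : ℝ} (hκ : 0 < κ) : ∃ C c l0 R0 : ℝ, 0 < C ∧ 0 < c ∧ 0 < l0 ∧ l0 ≤ 1 / 2 ∧ 1 ≤ R0 ∧
    ∀ (W : ℝ → ℝ) (B M A x0 p q w s : ℝ), Measurable W → (∀ y, y < 0 → W y = 0) →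
      0 ≤ B → (∀ y, 0 ≤ y → |W y| ≤ B * (1 + y)) →
      (∀ K, TK κ K → ∫ y, W y * (y * ct K y) = 0) → 0 ≤ M →
      (∀ y, 0 < y → y < A → 0 ≤ s * W y) → (∀ y, A ≤ y → -(M * (1 + (y - A))) ≤ s * W y) →
      0 ≤ x0 → R0 ≤ A - x0 → 0 ≤ p → p ≤ q → q ≤ A → |p - x0| ≤ l0 → |q - x0| ≤ l0 → 0 ≤ w →
      (∀ y, p < y → y < q → w ≤ s * W y) →
      w * (q ^ 2 - p ^ 2) ≤ C * M * (1 + x0) * Real.exp (-(c * (A - x0))) := by
  obtain ⟨C1, hC1, hker⟩ := kernels hκ
  set c1 : ℝ := 1 / (3 * C1) with hc1
  have hc10 : 0 < c1 := by positivity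
  have hc11 : c1 ≤ 1 / 3 := by
    rw [hc1, div_le_div_iff₀ (by positivity) (by norm_num)]
    linarith
  have hpi := Real.pi_pos
  refine ⟨32 * π * (Real.exp 2 * (720 / c1 ^ 6)), c1, 1 / (2 * C1), 4 / c1, by positivity, hc10,
    by positivity, ?_, ?_, ?_⟩
  · rw [div_le_div_iff₀ (by positivity) (by norm_num)]
    linarith
  · rw [le_div_iff₀ hc10]
    linarith
  intro W B M A x0 p q w s hWm hWneg hB hWb hW0 hM hin hout hx0 hR hp hpq hqA hpx hqx hw hwlow
  set R := A - x0 with hRdef
  have hR4 : 4 ≤ c1 * R := by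
    rw [div_le_iff₀ hc10] at hR
    linarith
  have hR1 : 1 ≤ R := by nlinarith
  have hR0 : 0 < R := by linarith
  set m := ⌊c1 * R⌋₊ with hm
  have hm1 : (m : ℝ) ≤ c1 * R := Nat.floor_le (by linarith)
  have hm2 : c1 * R < m + 1 := Nat.lt_floor_add_one _
  have hm4 : 4 ≤ m := Nat.le_floor (by exact_mod_cast hR4)
  obtain ⟨K0, hK0, hpos, hle1, hlow, hdec⟩ := hker m (by omega)
  obtain ⟨K, hK, hct⟩ := ct_shift hK0 x0
  -- decay of the kernel
  have hdecay : ∀ z, R ≤ z → ct K0 z ≤ Real.exp (-(2 * m)) * (R ^ 2 / z ^ 2) ^ 3 := by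
    intro z hz
    have hz0 : 0 < z := hR0.trans_le hz
    have hz2 : 0 < z ^ 2 := by positivity
    have h1 := hdec z hz0.ne'
    have h2 : C1 * (m : ℝ) ^ 2 / z ^ 2 ≤ Real.exp (-2) * (R ^ 2 / z ^ 2) := by
      rw [← mul_div_assoc]
      apply div_le_div_of_nonneg_right _ hz2.le
      have h3 : (m : ℝ) ^ 2 ≤ (c1 * R) ^ 2 := pow_le_pow_left₀ (Nat.cast_nonneg _) hm1 2
      have h4 : C1 * (c1 * R) ^ 2 = 1 / (9 * C1) * R ^ 2 := by
        rw [hc1]
        field_simp
        ring
      have h5 : 1 / (9 * C1) ≤ Real.exp (-2) := by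
        have h6 : Real.exp 2 ≤ 9 := by
          have : Real.exp 2 = Real.exp 1 ^ 2 := by rw [← Real.exp_nat_mul]; norm_num
          rw [this]
          have h7 := Real.exp_one_lt_d9
          have h8 := Real.exp_pos 1
          nlinarith
        rw [Real.exp_neg, ← one_div, one_div_le_one_div (by positivity) (Real.exp_pos _)]
        nlinarith
      calc C1 * (m : ℝ) ^ 2 ≤ C1 * (c1 * R) ^ 2 := by gcongr
        _ = 1 / (9 * C1) * R ^ 2 := h4
        _ ≤ Real.exp (-2) * R ^ 2 := by gcongr
    refine h1.trans ((pow_le_pow_left₀ (by positivity) h2 m).trans ?_)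
    rw [mul_pow, ← Real.exp_nat_mul]
    have h6 : (m : ℝ) * -2 = -(2 * m) := by ring
    rw [h6]
    have h7 : R ^ 2 / z ^ 2 ≤ 1 := by
      rw [div_le_one hz2]
      exact pow_le_pow_left₀ hR0.le hz 2
    exact mul_le_mul_of_nonneg_left (pow_le_pow_of_le_one (by positivity) h7 (by omega))
      (Real.exp_pos _).le
  set D := 8 * M * (1 + x0) * Real.exp (-(2 * m)) * R ^ 6 with hD
  have hD0 : 0 ≤ D := by positivity
  set f : ℝ → ℝ := fun y => s * (W y * (y * ct K y)) with hf
  set g : ℝ → ℝ := fun y => (Set.Ioo p q).indicator (fun y => w * y / 2) y - D * (1 + (y - x0) ^ 2)⁻¹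
    with hg
  have hctK : ∀ y, 0 ≤ ct K y := fun y => by
    rw [hct]
    exact add_nonneg (hpos _) (hpos _)
  have hfi : Integrable f := by
    obtain ⟨D', hD'0, hD'⟩ := w_decay hK 2
    refine Integrable.const_mul ?_ s
    refine Integrable.mono' ((integrable_inv_one_add_sq).const_mul (2 * B * D'))
      ((hWm.mul (measurable_id.mul hK.ct_cont.measurable)).aestronglyMeasurable)
      (Eventually.of_forall fun y => ?_)
    have h4 : (0 : ℝ) < 1 + y ^ 2 := by positivity
    rw [Real.norm_eq_abs, abs_mul]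
    rcases lt_or_ge y 0 with hy | hy
    · rw [hWneg y hy, abs_zero, zero_mul]
      positivity
    · have h1 : |W y| ≤ 2 * B * (1 + y ^ 2) := by
        refine (hWb y hy).trans ?_
        nlinarith [sq_nonneg (y - 1)]
      calc |W y| * |y * ct K y| ≤ (2 * B * (1 + y ^ 2)) * (D' / (1 + y ^ 2) ^ 2) := by
            gcongr
            exact hD' y
        _ = 2 * B * D' * (1 + y ^ 2)⁻¹ := by field_simp
  have hgi1 : Integrable ((Set.Ioo p q).indicator fun y => w * y / 2) := by
    rw [integrable_indicator_iff measurableSet_Ioo]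
    exact ((by fun_prop : Continuous fun y : ℝ => w * y / 2).continuousOn.integrableOn_Icc
      (a := p) (b := q)).mono_set Set.Ioo_subset_Icc_self
  have hgi2 : Integrable fun y : ℝ => D * (1 + (y - x0) ^ 2)⁻¹ :=
    (integrable_inv_one_add_sq.comp_sub_right x0).const_mul D
  have hgi : Integrable g := hgi1.sub hgi2
  have hgf : ∀ᵐ y, g y ≤ f y := by
    have h0 : ∀ᵐ y : ℝ, y ≠ 0 := by
      rw [ae_iff]
      simp
    filter_upwards [h0] with y hy0
    have hDy : 0 ≤ D * (1 + (y - x0) ^ 2)⁻¹ := by positivity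
    rcases lt_trichotomy y 0 with hy | hy | hy
    · have h1 : y ∉ Set.Ioo p q := fun h => by linarith [h.1]
      rw [hg, hf]
      simp only
      rw [Set.indicator_of_notMem h1, hWneg y hy, zero_mul, mul_zero]
      linarith
    · exact absurd hy hy0
    · have e1 : f y = (s * W y) * (y * ct K y) := by rw [hf]; ring
      have hyc : 0 ≤ y * ct K y := mul_nonneg hy.le (hctK y)
      rcases lt_or_ge y A with hyA | hyA
      · have h2 := hin y hy hyA
        by_cases h1 : y ∈ Set.Ioo p q
        · have h3 := hwlow y h1.1 h1.2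
          have h4 : 1 / 2 ≤ ct K y := by
            rw [hct]
            have h5 := hlow (y - x0)
            have h6 := hpos (y + x0)
            have h7 : |y - x0| ≤ 1 / (2 * C1) := by
              rw [abs_le] at hpx hqx ⊢
              constructor
              · linarith [h1.1]
              · linarith [h1.2]
            have h8 : (y - x0) ^ 2 ≤ (1 / (2 * C1)) ^ 2 := by
              rw [← sq_abs]
              exact pow_le_pow_left₀ (abs_nonneg _) h7 2
            have h9 : C1 * (1 / (2 * C1)) ^ 2 = 1 / (4 * C1) := by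
              field_simp
              ring
            have h10 : 1 / (4 * C1) ≤ 1 / 2 := by
              rw [div_le_div_iff₀ (by positivity) (by norm_num)]
              linarith
            have h11 : C1 * (y - x0) ^ 2 ≤ C1 * (1 / (2 * C1)) ^ 2 := by gcongr
            linarith
          rw [e1, hg]
          simp only
          rw [Set.indicator_of_mem h1]
          have h5 : w * y / 2 ≤ s * W y * (y * ct K y) := by
            calc w * y / 2 = w * (y * (1 / 2)) := by ring
              _ ≤ s * W y * (y * ct K y) := by gcongr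
          linarith
        · rw [e1, hg]
          simp only
          rw [Set.indicator_of_notMem h1]
          have : 0 ≤ s * W y * (y * ct K y) := mul_nonneg h2 hyc
          linarith
      · have h1 : y ∉ Set.Ioo p q := fun h => by linarith [h.2]
        rw [e1, hg]
        simp only
        rw [Set.indicator_of_notMem h1]
        set z := y - x0 with hz
        have hzR : R ≤ z := by linarith
        have hz1 : 1 ≤ z := hR1.trans hzR
        have hz0 : 0 < z := by linarith
        have h2 := hout y hyA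
        have h3 : ct K y ≤ 2 * (Real.exp (-(2 * m)) * (R ^ 2 / z ^ 2) ^ 3) := by
          rw [hct]
          have h4 := hdecay z hzR
          have h5 := hdecay (y + x0) (by linarith)
          have h6 : R ^ 2 / (y + x0) ^ 2 ≤ R ^ 2 / z ^ 2 := by
            have : z ≤ y + x0 := by linarith
            gcongr
          have h7 : Real.exp (-(2 * m)) * (R ^ 2 / (y + x0) ^ 2) ^ 3 ≤
              Real.exp (-(2 * m)) * (R ^ 2 / z ^ 2) ^ 3 := by gcongr
          linarith
        have h4 : -(M * (1 + (y - A))) * (y * ct K y) ≤ s * W y * (y * ct K y) :=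
          mul_le_mul_of_nonneg_right h2 hyc
        have h5 : M * (1 + (y - A)) * (y * ct K y) ≤ D * (1 + z ^ 2)⁻¹ := by
          have h6 : 1 + (y - A) ≤ 2 * z := by linarith
          have h7 : y ≤ (1 + x0) * z := by nlinarith
          have h60 : 0 ≤ 1 + (y - A) := by linarith
          calc M * (1 + (y - A)) * (y * ct K y) ≤ M * (2 * z) * ((1 + x0) * z *
                (2 * (Real.exp (-(2 * m)) * (R ^ 2 / z ^ 2) ^ 3))) := by
                have := hctK y
                gcongr
            _ = 4 * M * (1 + x0) * Real.exp (-(2 * m)) * R ^ 6 / z ^ 4 := by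
                field_simp
                ring
            _ ≤ 4 * M * (1 + x0) * Real.exp (-(2 * m)) * R ^ 6 / ((1 + z ^ 2) / 2) := by
                have h8 : (1 + z ^ 2) / 2 ≤ z ^ 4 := by
                  have h9 : 1 ≤ z ^ 2 := one_le_pow₀ hz1
                  nlinarith
                gcongr
            _ = D * (1 + z ^ 2)⁻¹ := by
                rw [hD]
                field_simp
                ring
        linarith
  have hint := integral_mono_ae hgi hfi hgf
  have hf0 : ∫ y, f y = 0 := by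
    rw [hf, integral_const_mul, hW0 K hK, mul_zero]
  have hgv : ∫ y, g y = w * (q ^ 2 - p ^ 2) / 4 - D * π := by
    rw [hg, integral_sub hgi1 hgi2, integral_indicator measurableSet_Ioo, integral_const_mul,
      integral_sub_right_eq_self (fun y : ℝ => (1 + y ^ 2)⁻¹) x0, integral_univ_inv_one_add_sq,
      ← integral_Ioc_eq_integral_Ioo, ← intervalIntegral.integral_of_le hpq]
    congr 1
    have e : ∀ y : ℝ, w * y / 2 = w / 2 * y := fun y => by ring
    simp_rw [e]
    rw [intervalIntegral.integral_const_mul, integral_id]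
    ring
  rw [hf0, hgv] at hint
  have h1 : w * (q ^ 2 - p ^ 2) ≤ 4 * π * D := by linarith
  refine h1.trans ?_
  have h2 : Real.exp (-(2 * m)) ≤ Real.exp 2 * Real.exp (-(2 * (c1 * R))) := by
    rw [← Real.exp_add]
    apply Real.exp_le_exp.2
    linarith
  have h3 : R ^ 6 ≤ 720 / c1 ^ 6 * Real.exp (c1 * R) := by
    have h4 := Real.pow_div_factorial_le_exp (c1 * R) (by positivity) 6
    have h5 : ((Nat.factorial 6 : ℕ) : ℝ) = 720 := by norm_num [Nat.factorial]
    rw [h5, mul_pow] at h4
    rw [div_mul_eq_mul_div, le_div_iff₀ (by positivity)]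
    rw [div_le_iff₀ (by norm_num)] at h4
    linarith
  have h4 : Real.exp (-(2 * m)) * R ^ 6 ≤
      Real.exp 2 * (720 / c1 ^ 6) * Real.exp (-(c1 * R)) := by
    calc Real.exp (-(2 * m)) * R ^ 6 ≤ (Real.exp 2 * Real.exp (-(2 * (c1 * R)))) *
          (720 / c1 ^ 6 * Real.exp (c1 * R)) := by gcongr
      _ = Real.exp 2 * (720 / c1 ^ 6) * (Real.exp (-(2 * (c1 * R))) * Real.exp (c1 * R)) := by ring
      _ = Real.exp 2 * (720 / c1 ^ 6) * Real.exp (-(c1 * R)) := by
          rw [← Real.exp_add]
          congr 2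
          ring
  calc 4 * π * D = 32 * π * M * (1 + x0) * (Real.exp (-(2 * m)) * R ^ 6) := by rw [hD]; ring
    _ ≤ 32 * π * M * (1 + x0) * (Real.exp 2 * (720 / c1 ^ 6) * Real.exp (-(c1 * R))) := by gcongr
    _ = _ := by ring

end Pool.Agent.E8helper29.PC
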