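import Pool.Agent.E8helper29.PC.Exp2

/-! Local rigidity of the limit functions with an exponentially small error. -/

open MeasureTheory Filter Topology Real

namespace Pool.Agent.E8helper29.PC

open Pool.Agent.Y744

lemma AG_neg' {y : ℝ} (hy : y < 0) : AG y = 0 := by
  unfold AG
  rw [if_pos hy]

lemma gp_lip {a b : ℝ} (hab : a ≤ b) : gp b - gp a ≤ b - a := by
  rw [gp_sub]
  have h : ∫ u in a..b, gd u ≤ ∫ _u in a..b, (1 : ℝ) := by
    refine intervalIntegral.integral_mono_on hab (gd_cont.intervalIntegrable _ _)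
      intervalIntegrable_const fun x _ => ?_
    unfold gd
    linarith [sq_nonneg (Real.sinc (π * x))]
  rw [intervalIntegral.integral_const, smul_eq_mul, mul_one] at h
  exact h

lemma AG_lip {a b : ℝ} (ha : 0 ≤ a) (hab : a ≤ b) : AG b - AG a ≤ 2 * (b - a) := by
  rw [AG_pos ha, AG_pos (ha.trans hab)]
  linarith [gp_lip hab]

lemma AG_mono' {a b : ℝ} (ha : 0 ≤ a) (hab : a ≤ b) : AG a ≤ AG b := by
  rw [AG_pos ha, AG_pos (ha.trans hab)]
  linarith [gp_mono hab]

/-- the window bound iterated -/
lemma win_iter {A' : ℝ → ℝ} {M : ℝ} (hM : 0 ≤ M) (hA' : Monotone A')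
    (hw : ∀ y, 0 ≤ y → A' (y + 1) - A' y ≤ M) {a b : ℝ} (ha : 0 ≤ a) (hab : a ≤ b) :
    A' b - A' a ≤ M * (1 + (b - a)) := by
  have h1 : ∀ n : ℕ, A' (a + n) - A' a ≤ M * n := by
    intro n
    induction n with
    | zero => simp
    | succ n ih =>
      have h2 := hw (a + n) (by positivity)
      push_cast
      have e : a + ((n : ℝ) + 1) = a + n + 1 := by ring
      rw [e]
      linarith
  set n := ⌈b - a⌉₊ with hn
  have h2 := h1 n
  have h3 : b ≤ a + n := by
    have := Nat.le_ceil (b - a)
    linarith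
  have h4 : (n : ℝ) ≤ b - a + 1 := (Nat.ceil_lt_add_one (by linarith)).le
  have h5 := hA' h3
  nlinarith

/-- from the cubic bound to an exponential one -/
lemma cube_root {w l0 D E : ℝ} (hw : 0 ≤ w) (hl : 0 < l0) (hD : 0 ≤ D) {x : ℝ} (hx : 0 ≤ x)
    (hE : E = Real.exp (-(3 * x))) (h : w * (min (w / 4) l0) ^ 2 ≤ D * E) :
    w ≤ (16 * D + 1 + D / l0 ^ 2) * Real.exp (-x) := by
  have hex : 0 < Real.exp (-x) := Real.exp_pos _
  have hE3 : E = Real.exp (-x) ^ 3 := by
    rw [hE, ← Real.exp_nat_mul]
    congr 1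
    push_cast
    ring
  have hle : Real.exp (-x) ≤ 1 := Real.exp_le_one_iff.2 (by linarith)
  rcases le_total (w / 4) l0 with h1 | h1
  · rw [min_eq_left h1] at h
    have h2 : w ^ 3 ≤ 16 * D * Real.exp (-x) ^ 3 := by
      rw [← hE3]
      have : w * (w / 4) ^ 2 = w ^ 3 / 16 := by ring
      linarith
    have h3 : w ≤ (16 * D + 1) * Real.exp (-x) := by
      by_contra hcon
      push Not at hcon
      have h4 : ((16 * D + 1) * Real.exp (-x)) ^ 3 < w ^ 3 := pow_lt_pow_left₀ hcon (by positivity) (by norm_num)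
      have h5 : 16 * D * Real.exp (-x) ^ 3 ≤ ((16 * D + 1) * Real.exp (-x)) ^ 3 := by
        rw [mul_pow]
        have h6 : 16 * D ≤ (16 * D + 1) ^ 3 := by nlinarith [mul_nonneg hD hD, mul_nonneg (mul_nonneg hD hD) hD]
        exact mul_le_mul_of_nonneg_right h6 (by positivity)
      linarith
    have h7 : 0 ≤ D / l0 ^ 2 * Real.exp (-x) := by positivity
    linarith
  · rw [min_eq_right h1] at h
    have h2 : w ≤ D / l0 ^ 2 * E := by
      rw [div_mul_eq_mul_div, le_div_iff₀ (by positivity)]
      exact h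
    have h3 : E ≤ Real.exp (-x) := by
      rw [hE]
      apply Real.exp_le_exp.2
      linarith
    have h4 : D / l0 ^ 2 * E ≤ D / l0 ^ 2 * Real.exp (-x) := by gcongr
    have h7 : 0 ≤ (16 * D + 1) * Real.exp (-x) := by positivity
    linarith

set_option maxHeartbeats 2000000 in
/-- **local rigidity**: a one sided bound on `(0, A)` gives a two sided one, up to an exponentially
small error -/
theorem exp_rigid {Mw : ℝ} (hMw : 1 ≤ Mw) {κ : ℝ} (hκ : 0 < κ) : ∃ C c : ℝ, 0 < C ∧ 0 < c ∧
    ∀ A' : ℝ → ℝ, Monotone A' → (∀ y, y < 0 → A' y = 0) → 1 ≤ A' 0 → A' 0 ≤ Mw →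
    (∀ y, 0 ≤ y → A' (y + 1) - A' y ≤ Mw) →
    (∀ K, TK κ K → ∫ y, A' y * (y * ct K y) = ∫ y, AG y * (y * ct K y)) →
    ∀ A : ℝ, 0 < A → ∀ s : ℝ, (s = 1 ∨ s = -1) → (∀ y, 0 < y → y < A → 0 ≤ s * (A' y - AG y)) →
    ∀ x, 0 ≤ x → x < A → |A' x - AG x| ≤ C * Real.exp (-(c * (A - x))) := by
  obtain ⟨C, c, l0, R0, hC, hc, hl0, hl1, hR0, key⟩ := exp_key hκ
  set M := Mw + 2 with hM
  set D := 4 * (C * M) with hD
  have hD0 : 0 < D := by positivity
  set C1 := 16 * D + 1 + D / l0 ^ 2 with hC1
  have hC10 : 0 < C1 := by positivity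
  set C2 := C1 + Mw * (1 + R0) + 2 * R0 + 2 * Mw + 1 with hC2
  have hC20 : 0 < C2 := by positivity
  refine ⟨C2 * Real.exp (c / 3 * R0), c / 3, by positivity, by positivity, ?_⟩
  intro A' hA' hneg h0 h0' hwin hmont A hA s hs hin
  set W : ℝ → ℝ := fun y => A' y - AG y with hW
  have hWm : Measurable W := hA'.measurable.sub AG_meas
  have hWneg : ∀ y, y < 0 → W y = 0 := fun y hy => by
    show A' y - AG y = 0
    rw [hneg y hy, AG_neg' hy, sub_zero]
  have hiter : ∀ {a b : ℝ}, 0 ≤ a → a ≤ b → A' b - A' a ≤ Mw * (1 + (b - a)) := fun ha hab =>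
    win_iter (by linarith) hA' hwin ha hab
  have hlow : ∀ {a b : ℝ}, 0 ≤ a → a ≤ b → W a - 2 * (b - a) ≤ W b := by
    intro a b ha hab
    have h1 := AG_lip ha hab
    have h2 := hA' hab
    show A' a - AG a - 2 * (b - a) ≤ A' b - AG b
    linarith
  have hup : ∀ {a b : ℝ}, 0 ≤ a → a ≤ b → W b ≤ W a + Mw * (1 + (b - a)) := by
    intro a b ha hab
    have h1 := AG_mono' ha hab
    have h2 := hiter ha hab
    show A' b - AG b ≤ A' a - AG a + Mw * (1 + (b - a))
    linarith
  have hW00 : 0 ≤ W 0 := by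
    show 0 ≤ A' 0 - AG 0
    rw [AG_pos le_rfl, gp_zero]
    linarith
  have hW01 : W 0 ≤ Mw := by
    show A' 0 - AG 0 ≤ Mw
    rw [AG_pos le_rfl, gp_zero]
    linarith
  have hWb : ∀ y, 0 ≤ y → |W y| ≤ (2 * Mw + 2) * (1 + y) := by
    intro y hy
    have h1 := hlow le_rfl hy
    have h2 := hup le_rfl hy
    rw [sub_zero] at h1 h2
    rw [abs_le]
    constructor <;> nlinarith
  have hW0 : ∀ K, TK κ K → ∫ y, W y * (y * ct K y) = 0 := by
    intro K hK
    obtain ⟨D', hD'0, hD'⟩ := w_decay hK 2
    have hint : ∀ {F : ℝ → ℝ}, Measurable F → (∀ y, y < 0 → F y = 0) → ∀ {B' : ℝ}, 0 ≤ B' →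
        (∀ y, 0 ≤ y → |F y| ≤ B' * (1 + y)) → Integrable fun y => F y * (y * ct K y) := by
      intro F hF hF0 B' hB' hFb
      refine Integrable.mono' ((integrable_inv_one_add_sq).const_mul (2 * B' * D'))
        ((hF.mul (measurable_id.mul hK.ct_cont.measurable)).aestronglyMeasurable)
        (Eventually.of_forall fun y => ?_)
      have h4 : (0 : ℝ) < 1 + y ^ 2 := by positivity
      rw [Real.norm_eq_abs, abs_mul]
      rcases lt_or_ge y 0 with hy | hy
      · rw [hF0 y hy, abs_zero, zero_mul]
        positivity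
      · have h1 : |F y| ≤ 2 * B' * (1 + y ^ 2) := by
          refine (hFb y hy).trans ?_
          nlinarith [sq_nonneg (y - 1)]
        calc |F y| * |y * ct K y| ≤ (2 * B' * (1 + y ^ 2)) * (D' / (1 + y ^ 2) ^ 2) := by
              gcongr
              exact hD' y
          _ = 2 * B' * D' * (1 + y ^ 2)⁻¹ := by field_simp
    have i1 := hint hWm hWneg (by linarith : (0 : ℝ) ≤ 2 * Mw + 2) hWb
    have i2 := hint AG_meas (fun y hy => AG_neg' hy) (by norm_num : (0 : ℝ) ≤ 3) (by
      intro y hy
      rw [AG_pos hy]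
      have h1 := gp_nonneg hy
      have h2 := gp_le hy
      rw [abs_of_nonneg (by linarith)]
      linarith)
    have e3 : ∫ y, W y * (y * ct K y) + AG y * (y * ct K y) =
        (∫ y, W y * (y * ct K y)) + ∫ y, AG y * (y * ct K y) := integral_add i1 i2
    have e4 : ∫ y, W y * (y * ct K y) + AG y * (y * ct K y) = ∫ y, A' y * (y * ct K y) := by
      congr 1
      funext y
      show (A' y - AG y) * (y * ct K y) + AG y * (y * ct K y) = _
      ring
    rw [e4, hmont K hK] at e3
    linarith
  -- outside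
  have hout : ∀ y, A ≤ y → -(M * (1 + (y - A))) ≤ s * W y := by
    intro y hy
    refine le_of_forall_pos_le_add fun ε hε => ?_
    set z := max (A / 2) (A - ε / M) with hz
    have hM0 : 0 < M := by linarith
    have hz0 : 0 < z := lt_of_lt_of_le (by positivity) (le_max_left _ _)
    have hzA : z < A := by
      rw [hz, max_lt_iff]
      constructor
      · linarith
      · have : 0 < ε / M := by positivity
        linarith
    have hz1 : A - z ≤ ε / M := by
      have := le_max_right (A / 2) (A - ε / M)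
      linarith
    have hz2 : M * (A - z) ≤ ε := by
      calc M * (A - z) ≤ M * (ε / M) := by gcongr
        _ = ε := by field_simp
    have hzin := hin z hz0 hzA
    have hyz : z ≤ y := by linarith
    have h1 := hlow hz0.le hyz
    have h2 := hup hz0.le hyz
    have h3 : M * (1 + (y - z)) ≤ M * (1 + (y - A)) + ε := by linarith
    have h4 : (0 : ℝ) ≤ y - z := by linarith
    rcases hs with rfl | rfl
    · have h5 : 0 ≤ W z := by
        have : 0 ≤ 1 * W z := hzin
        linarith
      have h6 : 2 * (y - z) ≤ M * (1 + (y - z)) := by nlinarith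
      linarith
    · have h5 : W z ≤ 0 := by
        have : 0 ≤ -1 * W z := hzin
        linarith
      have h6 : Mw * (1 + (y - z)) ≤ M * (1 + (y - z)) := by nlinarith
      linarith
  -- far from the end
  have hfar : ∀ x, 0 ≤ x → R0 ≤ A - x → |W x| ≤ C1 * Real.exp (-(c / 3 * (A - x))) := by
    intro x hx hxR
    have hxA : x + 1 ≤ A := by linarith
    have fin : ∀ (w p q : ℝ), 0 ≤ w → 0 ≤ p → p ≤ q → q ≤ A → |p - x| ≤ l0 → |q - x| ≤ l0 →
        (1 + x) * (min (w / 4) l0) ^ 2 / 2 ≤ q ^ 2 - p ^ 2 →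
        (∀ y, p < y → y < q → w / 2 ≤ s * W y) →
        w ≤ C1 * Real.exp (-(c / 3 * (A - x))) := by
      intro w p q hw hp hpq hqA hpx hqx hlen hwl
      have h1 := key W (2 * Mw + 2) M A x p q (w / 2) s hWm hWneg (by linarith) hWb hW0 (by linarith)
        hin hout hx hxR hp hpq hqA hpx hqx (by linarith) hwl
      refine cube_root (E := Real.exp (-(c * (A - x)))) hw hl0 hD0.le (x := c / 3 * (A - x))
        (mul_nonneg (by positivity) (by linarith)) (by congr 1; ring) ?_
      have h2 : w / 2 * ((1 + x) * (min (w / 4) l0) ^ 2 / 2) ≤ w / 2 * (q ^ 2 - p ^ 2) := by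
        gcongr
      have h3 : (1 + x) * (w * (min (w / 4) l0) ^ 2) ≤
          (1 + x) * (D * Real.exp (-(c * (A - x)))) := by
        rw [hD]
        have e1 : (1 + x) * (w * (min (w / 4) l0) ^ 2) =
          4 * (w / 2 * ((1 + x) * (min (w / 4) l0) ^ 2 / 2)) := by ring
        have e2 : (1 + x) * (4 * (C * M) * Real.exp (-(c * (A - x)))) =
          4 * (C * M * (1 + x) * Real.exp (-(c * (A - x)))) := by ring
        rw [e1, e2]
        linarith
      exact le_of_mul_le_mul_left h3 (by linarith)
    rcases hs with rfl | rfl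
    · -- lower bound
      have hWx : 0 ≤ W x := by
        rcases hx.eq_or_lt with h | h
        · rw [← h]; exact hW00
        · have : 0 ≤ 1 * W x := hin x h (by linarith)
          linarith
      rw [abs_of_nonneg hWx]
      set ℓ := min (W x / 4) l0 with hℓ
      have hℓ0 : 0 ≤ ℓ := le_min (by linarith) hl0.le
      have hℓ1 : ℓ ≤ W x / 4 := min_le_left _ _
      have hℓ2 : ℓ ≤ l0 := min_le_right _ _
      refine fin (W x) x (x + ℓ) hWx hx (by linarith) (by linarith) (by simpa using hl0.le)
        (by rw [add_sub_cancel_left, abs_of_nonneg hℓ0]; exact hℓ2) ?_ ?_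
      · nlinarith [mul_nonneg hx hℓ0, mul_nonneg hℓ0 hℓ0]
      · intro y hy1 hy2
        have := hlow hx hy1.le
        linarith
    · -- upper bound
      rcases hx.eq_or_lt with h | h
      · -- `x = 0`
        subst h
        have h1 : W 0 ≤ 0 := by
          refine le_of_forall_pos_le_add fun ε hε => ?_
          set z := min (A / 2) (ε / 2) with hz
          have hz0 : 0 < z := lt_min (by positivity) (by positivity)
          have hzA : z < A := (min_le_left _ _).trans_lt (by linarith)
          have hz2 : z ≤ ε / 2 := min_le_right _ _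
          have h1 : 0 ≤ -1 * W z := hin z hz0 hzA
          have h2 := hlow le_rfl hz0.le
          linarith
        have h2 : W 0 = 0 := le_antisymm h1 hW00
        rw [h2, abs_zero]
        positivity
      · have hWx : W x ≤ 0 := by
          have : 0 ≤ -1 * W x := hin x h (by linarith)
          linarith
        rw [abs_of_nonpos hWx]
        have hw2 : -W x ≤ 2 * x := by
          have := hlow le_rfl hx
          linarith
        set ℓ := min (-W x / 4) l0 with hℓ
        have hℓ0 : 0 ≤ ℓ := le_min (by linarith) hl0.le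
        have hℓ1 : ℓ ≤ -W x / 4 := min_le_left _ _
        have hℓ2 : ℓ ≤ l0 := min_le_right _ _
        have hℓ3 : ℓ ≤ x / 2 := by linarith
        refine fin (-W x) (x - ℓ) x (by linarith) (by linarith) (by linarith) (by linarith)
          (by rw [sub_sub_cancel_left, abs_neg, abs_of_nonneg hℓ0]; exact hℓ2)
          (by simpa using hl0.le) ?_ ?_
        · nlinarith [mul_nonneg hx hℓ0, mul_nonneg hℓ0 hℓ0, mul_nonneg hx (mul_nonneg hℓ0 hℓ0)]
        · intro y hy1 hy2
          have := hlow (show 0 ≤ y by linarith) hy2.le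
          linarith
  -- everywhere
  intro x hx hxA
  show |W x| ≤ _
  have hexp : 0 < Real.exp (c / 3 * R0) := Real.exp_pos _
  rcases le_or_gt R0 (A - x) with h | h
  · refine (hfar x hx h).trans ?_
    refine mul_le_mul_of_nonneg_right ?_ (Real.exp_pos _).le
    have h1 : C1 ≤ C2 := by
      rw [hC2]
      have : 0 ≤ Mw * (1 + R0) := by positivity
      linarith
    have h2 : 1 ≤ Real.exp (c / 3 * R0) := Real.one_le_exp (by positivity)
    nlinarith
  · have h1 : |W x| ≤ C2 := by
      have hMR : 0 ≤ Mw * (1 + R0) := by positivity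
      rcases le_or_gt R0 A with h2 | h2
      · have h3 := hfar (A - R0) (by linarith) (by linarith)
        have h4 : Real.exp (-(c / 3 * (A - (A - R0)))) ≤ 1 := Real.exp_le_one_iff.2 (by
          rw [sub_sub_cancel]
          have : 0 ≤ c / 3 * R0 := by positivity
          linarith)
        have h5 : |W (A - R0)| ≤ C1 := h3.trans (by nlinarith)
        rw [abs_le] at h5
        have h6 := hlow (show 0 ≤ A - R0 by linarith) (show A - R0 ≤ x by linarith)
        have h7 := hup (show 0 ≤ A - R0 by linarith) (show A - R0 ≤ x by linarith)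
        have h8 : x - (A - R0) ≤ R0 := by linarith
        have h9 : Mw * (1 + (x - (A - R0))) ≤ Mw * (1 + R0) := by gcongr
        rw [abs_le]
        constructor <;> linarith
      · have h6 := hlow le_rfl hx
        have h7 := hup le_rfl hx
        have h9 : Mw * (1 + (x - 0)) ≤ Mw * (1 + R0) := by
          have : x - 0 ≤ R0 := by linarith
          gcongr
        have h10 : x ≤ R0 := by linarith
        rw [abs_le]
        constructor <;> linarith
    have h2 : 1 ≤ Real.exp (c / 3 * R0) * Real.exp (-(c / 3 * (A - x))) := by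
      rw [← Real.exp_add]
      apply Real.one_le_exp
      have : c / 3 * (A - x) ≤ c / 3 * R0 := by gcongr
      linarith
    calc |W x| ≤ C2 * 1 := by linarith
      _ ≤ C2 * (Real.exp (c / 3 * R0) * Real.exp (-(c / 3 * (A - x)))) := by gcongr
      _ = _ := by ring

end Pool.Agent.E8helper29.PC
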