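import Pool.Agent.E8helper29.PC.Blk

/-! Limits of the counting functions along ultrafilters. -/

open MeasureTheory Filter Topology Real

namespace Pool.Agent.E8helper29.PC

open H370 TH803TW Pool.Agent.Y744

/-- a sequence along which the limit is attained almost everywhere -/
lemma lim_seq {A : ℝ → ℝ → ℝ} {T0 : ℝ} (hmono : ∀ T, T0 ≤ T → Monotone (A T))
    {u : Filter ℝ} [NeBot u] (hu : u ≤ atTop) {A' : ℝ → ℝ} (hA' : Monotone A')
    (hlim : ∀ y, Tendsto (fun T => A T y) u (𝓝 (A' y))) :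
    ∃ t : ℕ → ℝ, Tendsto t atTop atTop ∧ (∀ n, T0 ≤ t n) ∧
      ∀ᵐ x, Tendsto (fun n => A (t n) x) atTop (𝓝 (A' x)) := by
  set q : ℕ → ℝ := TopologicalSpace.denseSeq ℝ with hq
  have hqd : DenseRange q := TopologicalSpace.denseRange_denseSeq ℝ
  have hex : ∀ n : ℕ, ∃ T : ℝ, max (n : ℝ) T0 ≤ T ∧
      ∀ j ∈ Finset.range (n + 1), |A T (q j) - A' (q j)| < 1 / ((n : ℝ) + 1) := by
    intro n
    have h1 : ∀ᶠ T in u, max (n : ℝ) T0 ≤ T := hu (eventually_ge_atTop _)
    have h2 : ∀ᶠ T in u, ∀ j ∈ Finset.range (n + 1), |A T (q j) - A' (q j)| < 1 / ((n : ℝ) + 1) := by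
      rw [Filter.eventually_all_finset]
      intro j _
      have := (Metric.tendsto_nhds.1 (hlim (q j))) (1 / ((n : ℝ) + 1)) (by positivity)
      simpa [Real.dist_eq] using this
    exact (h1.and h2).exists
  choose t ht1 ht2 using hex
  have htn : ∀ n : ℕ, (n : ℝ) ≤ t n := fun n => (le_max_left _ _).trans (ht1 n)
  have htT : ∀ n : ℕ, T0 ≤ t n := fun n => (le_max_right _ _).trans (ht1 n)
  have htt : Tendsto t atTop atTop := tendsto_atTop_mono htn tendsto_natCast_atTop_atTop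
  have hj : ∀ j, Tendsto (fun n => A (t n) (q j)) atTop (𝓝 (A' (q j))) := by
    intro j
    rw [Metric.tendsto_nhds]
    intro ε hε
    have h1 : ∀ᶠ n : ℕ in atTop, 1 / ((n : ℝ) + 1) < ε :=
      (tendsto_order.1 tendsto_one_div_add_atTop_nhds_zero_nat).2 ε hε
    filter_upwards [h1, eventually_ge_atTop j] with n hn hnj
    rw [Real.dist_eq]
    exact (ht2 n j (Finset.mem_range.2 (by omega))).trans hn
  have hcont : ∀ x, ContinuousAt A' x → Tendsto (fun n => A (t n) x) atTop (𝓝 (A' x)) := by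
    intro x hx
    rw [tendsto_order]
    constructor
    · intro a ha
      have h1 : ∀ᶠ y in 𝓝 x, a < A' y := hx.eventually_const_lt ha
      obtain ⟨δ, hδ, h2⟩ := Metric.eventually_nhds_iff.1 h1
      obtain ⟨_, ⟨j, rfl⟩, hj1, hj2⟩ := hqd.exists_between (show x - δ < x by linarith)
      have h3 : a < A' (q j) := h2 (by rw [Real.dist_eq, abs_lt]; constructor <;> linarith)
      filter_upwards [(tendsto_order.1 (hj j)).1 a h3] with n hn
      exact hn.trans_le (hmono _ (htT n) hj2.le)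
    · intro a ha
      have h1 : ∀ᶠ y in 𝓝 x, A' y < a := hx.eventually_lt_const ha
      obtain ⟨δ, hδ, h2⟩ := Metric.eventually_nhds_iff.1 h1
      obtain ⟨_, ⟨j, rfl⟩, hj1, hj2⟩ := hqd.exists_between (show x < x + δ by linarith)
      have h3 : A' (q j) < a := h2 (by rw [Real.dist_eq, abs_lt]; constructor <;> linarith)
      filter_upwards [(tendsto_order.1 (hj j)).2 a h3] with n hn
      exact (hmono _ (htT n) hj1.le).trans_lt hn
  refine ⟨t, htt, htT, ?_⟩
  have := hA'.countable_not_continuousAt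
  exact this.ae_notMem volume |>.mono fun x hx => hcont x (by
    by_contra hc
    exact hx hc)

/-- the constant of the averaged bound -/
theorem exists_limit : ∃ C : ℝ, 0 < C ∧ ∀ (g : Ultrafilter ℝ), (g : Filter ℝ) ≤ atTop →
    ∃ (A' : ℝ → ℝ), Monotone A' ∧ (∀ y, y < 0 → A' y = 0) ∧ 1 ≤ A' 0 ∧
      (∀ y, Tendsto (fun T => Aa T y) (g : Filter ℝ) (𝓝 (A' y))) ∧
      (∀ a, 0 < a → ∫ y in (0 : ℝ)..a, A' y ≤ a ^ 2 + C + Real.log (1 + a) / π ^ 2) ∧
      (Tendsto (fun T => Noff T / Xf T) atTop (𝓝 0) →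
        ∀ K, TK (1 / 2) K → ∫ y, A' y * (y * ct K y) = ∫ y, AG y * (y * ct K y)) := by
  obtain ⟨C0, T0, hT0, hb⟩ := Aa_bound
  obtain ⟨C, hC, havg⟩ := Aa_avg
  refine ⟨C, hC, fun g hgt => ?_⟩
  have hmono : ∀ T, T0 ≤ T → Monotone (Aa T) := fun T hT => Aa_mono (by linarith)
  have hT : ∀ᶠ T in (g : Filter ℝ), T0 ≤ T := hgt (eventually_ge_atTop _)
  have hex : ∀ y, ∃ L, Tendsto (fun T => Aa T y) (g : Filter ℝ) (𝓝 L) := by
    intro y
    have h1 : ((g.map fun T => Aa T y : Ultrafilter ℝ) : Filter ℝ) ≤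
        𝓟 (Set.Icc (-(C0 * (1 + y ^ 2))) (C0 * (1 + y ^ 2))) := by
      rw [le_principal_iff]
      have h2 : ∀ᶠ T in (g : Filter ℝ), Aa T y ∈
          Set.Icc (-(C0 * (1 + y ^ 2))) (C0 * (1 + y ^ 2)) := by
        filter_upwards [hT] with T hT1
        exact abs_le.1 (hb T hT1 y)
      exact h2
    obtain ⟨L, _, hL⟩ := isCompact_Icc.ultrafilter_le_nhds _ h1
    exact ⟨L, hL⟩
  choose A' hlim using hex
  have hA' : Monotone A' := by
    intro a b hab
    refine le_of_tendsto_of_tendsto (hlim a) (hlim b) ?_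
    filter_upwards [hT] with T hT1 using hmono T hT1 hab
  refine ⟨A', hA', fun y hy => ?_, ?_, hlim, fun a ha => ?_, fun hoff K hK => ?_⟩
  · refine tendsto_nhds_unique (hlim y) ?_
    have : (fun T => Aa T y) = fun _ => 0 := funext fun T => Aa_neg T y hy
    rw [this]
    exact tendsto_const_nhds
  · refine le_of_forall_pos_le_add fun ε hε => ?_
    have h1 : ∀ᶠ T in (g : Filter ℝ), 1 - ε ≤ Aa T 0 := hgt (Aa_diag hε)
    have := ge_of_tendsto (hlim 0) h1
    linarith
  · obtain ⟨t, ht, htT, hae⟩ := lim_seq hmono hgt hA' hlim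
    have h1 : Tendsto (fun n => ∫ y in (0 : ℝ)..a, Aa (t n) y) atTop
        (𝓝 (∫ y in (0 : ℝ)..a, A' y)) := by
      refine intervalIntegral.tendsto_integral_filter_of_dominated_convergence
        (fun y => C0 * (1 + y ^ 2)) ?_ ?_ ?_ ?_
      · exact Eventually.of_forall fun n => (hmono _ (htT n)).measurable.aestronglyMeasurable
      · refine Eventually.of_forall fun n => Eventually.of_forall fun y _ => ?_
        rw [Real.norm_eq_abs]
        exact hb _ (htT n) y
      · exact (by fun_prop : Continuous fun y : ℝ => C0 * (1 + y ^ 2)).intervalIntegrable _ _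
      · exact hae.mono fun x hx _ => hx
    refine le_of_forall_pos_le_add fun ε hε => ?_
    exact le_of_tendsto h1 (ht.eventually (havg a ha ε hε))
  · obtain ⟨D, hD0, hD⟩ := w_decay hK 2
    exact lim_int hmono hb (measurable_id.mul hK.ct_cont.measurable) hD
      (mont_ord hK (by norm_num) (by norm_num) hoff) hgt hA' hlim

end Pool.Agent.E8helper29.PC
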