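import Pool.Agent.E8helper29.PC.Diag
import Pool.Agent.E8helper29.PC.LimB

/-! The main theorem for the counting functions `Aa`. -/

open MeasureTheory Filter Topology Real

namespace Pool.Agent.E8helper29.PC

open Pool.Agent.Y744

/-- **one sided bounds for the total number of pairs**, if almost all zeros are on the line -/
theorem total_one (hoff : Tendsto (fun T => Noff T / Xf T) atTop (𝓝 0)) {s B0 C1 c : ℝ}
    (hs : s = 1 ∨ s = -1) (hB0 : 0 ≤ B0) (hC1 : 0 ≤ C1) (hc : 0 < c)
    (hyp : ∀ y, B0 ≤ y → ∀ ε, 0 < ε → ∀ᶠ T in atTop,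
      -(C1 * Real.exp (-(c * y))) - ε ≤ s * (Aa T y - AG y)) (x : ℝ) :
    Tendsto (fun T => Aa T x) atTop (𝓝 (AG x)) := by
  obtain ⟨C, hC, hex⟩ := exists_limit
  rw [tendsto_iff_ultrafilter]
  intro g hg
  obtain ⟨A', hA', hneg, h0, hlim, havg, hmont⟩ := hex g hg
  obtain ⟨B, hB, hlin⟩ := lin_bound hC hA' h0 havg
  have h1 := one_sided (κ := 1 / 2) (by norm_num) hA' hneg h0 hB hlin (hmont hoff) hs hB0 hC1 hc
    (fun y hy => by
      refine le_of_forall_pos_le_add fun ε hε => ?_
      have h2 : Tendsto (fun T => s * (Aa T y - AG y)) (g : Filter ℝ) (𝓝 (s * (A' y - AG y))) :=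
        ((hlim y).sub_const _).const_mul _
      have h3 := ge_of_tendsto h2 (hg (hyp y hy ε hε))
      linarith) x
  rw [← h1]
  exact hlim x

/-- **the lower half determines everything** -/
theorem lower_half {B0 C1 c : ℝ} (hB0 : 0 ≤ B0) (hC1 : 0 ≤ C1) (hc : 0 < c)
    (hyp : ∀ y, B0 ≤ y → ∀ ε, 0 < ε → ∀ᶠ T in atTop,
      2 * gp y - C1 * Real.exp (-(c * y)) - ε ≤ Aa T y - Aa T 0) :
    (∀ x, Tendsto (fun T => Aa T x) atTop (𝓝 (AG x))) := by
  obtain ⟨C, hC, hex⟩ := exists_limit
  have hdiag : Tendsto (fun T => Aa T 0) atTop (𝓝 1) := by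
    rw [tendsto_iff_ultrafilter]
    intro g hg
    obtain ⟨A', hA', hneg, h0, hlim, havg, hmont⟩ := hex g hg
    have h1 := sum_rule hC hA' h0 havg hB0 hC1 hc (fun y hy => by
      refine le_of_forall_pos_le_add fun ε hε => ?_
      have h2 : Tendsto (fun T => Aa T y - Aa T 0) (g : Filter ℝ) (𝓝 (A' y - A' 0)) :=
        (hlim y).sub (hlim 0)
      have h3 := ge_of_tendsto h2 (hg (hyp y hy ε hε))
      linarith)
    have h2 : A' 0 = 1 := le_antisymm h1 h0
    rw [← h2]
    exact hlim 0
  obtain ⟨hsc, hoff⟩ := simple_of_diag hdiag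
  refine total_one hoff (s := 1) (Or.inl rfl) hB0 hC1 hc fun y hy ε hε => ?_
  have h1 := hdiag.eventually_const_lt (show 1 - ε / 2 < 1 by linarith)
  filter_upwards [h1, hyp y hy (ε / 2) (by positivity)] with T hT1 hT2
  rw [AG_pos (hB0.trans hy), one_mul]
  linarith

/-- **a finite range of distances** -/
theorem finite_range : ∃ C : ℝ, 0 < C ∧ ∀ A : ℝ, 0 < A →
    (∀ α β, 0 < α → α < β → β < A → ∀ ε, 0 < ε → ∀ᶠ T in atTop,
      2 * (gp β - gp α) - ε ≤ Aa T β - Aa T α) →
    (∀ ε, 0 < ε → ∀ᶠ T in atTop, Aa T 0 ≤ 1 + (C + Real.log (1 + A) / π ^ 2) / A + ε) ∧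
    (∀ α β, 0 < α → α < β → β < A → ∀ ε, 0 < ε → ∀ᶠ T in atTop,
      Aa T β - Aa T α ≤ 2 * (gp β - gp α) + (C + Real.log (1 + A) / π ^ 2) / (A - β) + ε) := by
  obtain ⟨C, hC, hex⟩ := exists_limit
  refine ⟨C, hC, fun A hA hyp => ?_⟩
  have hpi := Real.pi_gt_three
  have hlog : 0 ≤ Real.log (1 + A) := Real.log_nonneg (by linarith)
  -- the basic inequality for the limit functions
  have key : ∀ (A' : ℝ → ℝ), Monotone A' → 1 ≤ A' 0 →
      (∀ a, 0 < a → ∫ y in (0 : ℝ)..a, A' y ≤ a ^ 2 + C + Real.log (1 + a) / π ^ 2) →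
      (∀ α β, 0 < α → α < β → β < A → 2 * (gp β - gp α) ≤ A' β - A' α) →
      A * (A' 0 - 1) ≤ C + Real.log (1 + A) / π ^ 2 ∧
      ∀ α β, 0 < α → α < β → β < A → (A - β) * (A' β - A' α - 2 * (gp β - gp α)) ≤
        C + Real.log (1 + A) / π ^ 2 := by
    intro A' hA' h0 havg hw
    have hsplit : ∀ β, (∫ z in (0 : ℝ)..β, A' z) + ∫ z in β..A, A' z = ∫ z in (0 : ℝ)..A, A' z :=
      fun β => intervalIntegral.integral_add_adjacent_intervals hA'.intervalIntegrable
        hA'.intervalIntegrable
    have hgi : ∀ a b : ℝ, IntervalIntegrable (fun z => 2 * z) volume a b := fun a b =>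
      (by fun_prop : Continuous fun z : ℝ => 2 * z).intervalIntegrable _ _
    -- lower bounds
    have hgp0 : ∀ y, 0 < y → y < A → A' 0 + 2 * gp y ≤ A' y := by
      intro y hy hyA
      refine le_of_forall_pos_le_add fun ε hε => ?_
      have hc : ContinuousAt (fun z => 2 * gp z) 0 :=
        continuousAt_const.mul gp_cont.continuousAt
      have h3 : ∀ᶠ z in 𝓝 (0 : ℝ), 2 * gp z < ε := hc.eventually_lt_const (by
        show 2 * gp 0 < ε
        rw [gp_zero]
        linarith)
      obtain ⟨δ, hδ, h4⟩ := Metric.eventually_nhds_iff.1 h3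
      set z := min (δ / 2) (y / 2) with hz
      have hz0 : 0 < z := lt_min (by positivity) (by positivity)
      have hz1 : z < y := (min_le_right _ _).trans_lt (by linarith)
      have hz2 : z ≤ δ / 2 := min_le_left _ _
      have h5 := h4 (show dist z 0 < δ by
        rw [Real.dist_eq, sub_zero, abs_of_pos hz0]
        linarith)
      have h6 := hw z y hz0 hz1 hyA
      have h7 := hA' hz0.le
      linarith
    constructor
    · have h1 := havg A hA
      have h2 : ∫ z in (0 : ℝ)..A, (A' 0 - 1 + 2 * z) ≤ ∫ z in (0 : ℝ)..A, A' z := by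
        refine intervalIntegral.integral_mono_on_of_le_Ioo hA.le
          ((by fun_prop : Continuous fun z : ℝ => A' 0 - 1 + 2 * z).intervalIntegrable _ _)
          hA'.intervalIntegrable fun z hz => ?_
        have h3 := hgp0 z hz.1 hz.2
        have h4 := gp_low hz.1.le
        linarith
      have h3 : ∫ z in (0 : ℝ)..A, (A' 0 - 1 + 2 * z) = A * (A' 0 - 1) + A ^ 2 := by
        rw [intervalIntegral.integral_add intervalIntegrable_const (hgi _ _),
          intervalIntegral.integral_const, intervalIntegral.integral_const_mul, integral_id]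
        simp
        ring
      linarith
    · intro α β hα hαβ hβA
      set δ := A' β - A' α - 2 * (gp β - gp α) with hδ
      have h1 := havg A hA
      have hβ0 : 0 < β := by linarith
      have h2 : ∫ z in (0 : ℝ)..β, (A' 0 - 1 + 2 * z) ≤ ∫ z in (0 : ℝ)..β, A' z := by
        refine intervalIntegral.integral_mono_on_of_le_Ioo hβ0.le
          ((by fun_prop : Continuous fun z : ℝ => A' 0 - 1 + 2 * z).intervalIntegrable _ _)
          hA'.intervalIntegrable fun z hz => ?_
        have h3 := hgp0 z hz.1 (hz.2.trans hβA)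
        have h4 := gp_low hz.1.le
        linarith
      have h3 : ∫ z in β..A, (A' 0 - 1 + 2 * z + δ) ≤ ∫ z in β..A, A' z := by
        refine intervalIntegral.integral_mono_on_of_le_Ioo hβA.le
          ((by fun_prop : Continuous fun z : ℝ => A' 0 - 1 + 2 * z + δ).intervalIntegrable _ _)
          hA'.intervalIntegrable fun z hz => ?_
        have h3 := hw β z hβ0 hz.1 hz.2
        have h4 := gp_low (hβ0.le.trans hz.1.le)
        have h5 := hgp0 α hα (hαβ.trans hβA)
        rw [hδ]
        linarith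
      have h4 : ∫ z in (0 : ℝ)..β, (A' 0 - 1 + 2 * z) = β * (A' 0 - 1) + β ^ 2 := by
        rw [intervalIntegral.integral_add intervalIntegrable_const (hgi _ _),
          intervalIntegral.integral_const, intervalIntegral.integral_const_mul, integral_id]
        simp
        ring
      have h5 : ∫ z in β..A, (A' 0 - 1 + 2 * z + δ) = (A - β) * (A' 0 - 1 + δ) + (A ^ 2 - β ^ 2) := by
        have e : ∀ z : ℝ, A' 0 - 1 + 2 * z + δ = (A' 0 - 1 + δ) + 2 * z := fun z => by ring
        simp_rw [e]
        rw [intervalIntegral.integral_add intervalIntegrable_const (hgi _ _),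
          intervalIntegral.integral_const, intervalIntegral.integral_const_mul, integral_id]
        simp
        ring
      have h6 := hsplit β
      have h7 : 0 ≤ A * (A' 0 - 1) := mul_nonneg hA.le (by linarith)
      nlinarith
  -- passage to the filter
  have hlimw : ∀ (g : Ultrafilter ℝ), (g : Filter ℝ) ≤ atTop → ∀ A' : ℝ → ℝ,
      (∀ y, Tendsto (fun T => Aa T y) (g : Filter ℝ) (𝓝 (A' y))) →
      (∀ α β, 0 < α → α < β → β < A → 2 * (gp β - gp α) ≤ A' β - A' α) := by
    intro g hg A' hlim α β hα hαβ hβA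
    refine le_of_forall_pos_le_add fun ε hε => ?_
    have h3 := ge_of_tendsto ((hlim β).sub (hlim α)) (hg (hyp α β hα hαβ hβA ε hε))
    linarith
  constructor
  · intro ε hε
    refine mem_iff_ultrafilter.2 fun g hg1 => ?_
    obtain ⟨A', hA', hneg, h0, hlim, havg, hmont⟩ := hex g hg1
    have h1 := (key A' hA' h0 havg (hlimw g hg1 A' hlim)).1
    have h2 : A' 0 ≤ 1 + (C + Real.log (1 + A) / π ^ 2) / A := by
      have h3 : A' 0 - 1 ≤ (C + Real.log (1 + A) / π ^ 2) / A := by
        rw [le_div_iff₀ hA]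
        linarith
      linarith
    have h3 := (hlim 0).eventually_lt_const (show A' 0 < 1 + (C + Real.log (1 + A) / π ^ 2) / A + ε
      by linarith)
    exact h3.mono fun T hT => hT.le
  · intro α β hα hαβ hβA ε hε
    refine mem_iff_ultrafilter.2 fun g hg1 => ?_
    obtain ⟨A', hA', hneg, h0, hlim, havg, hmont⟩ := hex g hg1
    have h1 := (key A' hA' h0 havg (hlimw g hg1 A' hlim)).2 α β hα hαβ hβA
    have h2 : A' β - A' α ≤ 2 * (gp β - gp α) + (C + Real.log (1 + A) / π ^ 2) / (A - β) := by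
      have h3 : A' β - A' α - 2 * (gp β - gp α) ≤ (C + Real.log (1 + A) / π ^ 2) / (A - β) := by
        rw [le_div_iff₀ (by linarith)]
        linarith
      linarith
    have h3 := ((hlim β).sub (hlim α)).eventually_lt_const
      (show A' β - A' α < 2 * (gp β - gp α) + (C + Real.log (1 + A) / π ^ 2) / (A - β) + ε
      by linarith)
    exact h3.mono fun T hT => hT.le

end Pool.Agent.E8helper29.PC
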