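import Pool.Agent.E8helper29.PC.Aa

/-! The number of pairs in a window of length one mean spacing is bounded. -/

open MeasureTheory Filter Topology Real

namespace Pool.Agent.E8helper29.PC

open H370 TH803TW Pool.Agent.Y744
open Pool.Agent.TH850.UV (NS)

/-- differences of the counting function -/
lemma Aa_diff' {T a b : ℝ} (ha : 0 ≤ a) (hab : a ≤ b) :
    Aa T b - Aa T a = 2 * ((Xf T)⁻¹ * Pc T (Set.Ioc a b)) := by
  have e1 : {x : ℝ | |x| ≤ b} = {x : ℝ | |x| ≤ a} ∪ (Set.Ioc a b ∪ -Set.Ioc a b) := by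
    ext x
    simp only [Set.mem_ofPred_eq, Set.mem_union, Set.mem_Ioc, Set.mem_neg]
    constructor
    · intro h
      rcases le_or_gt |x| a with h1 | h1
      · exact Or.inl h1
      · right
        rcases abs_cases x with ⟨h2, _⟩ | ⟨h2, _⟩
        · rw [h2] at h h1
          exact Or.inl ⟨h1, h⟩
        · rw [h2] at h h1
          exact Or.inr ⟨h1, h⟩
    · rintro (h | ⟨h1, h2⟩ | ⟨h1, h2⟩)
      · exact h.trans hab
      · rw [abs_of_pos (by linarith)]
        exact h2
      · rw [abs_of_neg (by linarith)]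
        exact h2
  have d1 : Disjoint {x : ℝ | |x| ≤ a} (Set.Ioc a b ∪ -Set.Ioc a b) := by
    rw [Set.disjoint_left]
    rintro x (h : |x| ≤ a) (⟨h1, h2⟩ | ⟨h1, h2⟩)
    · linarith [le_abs_self x]
    · linarith [neg_le_abs x]
  have d2 : Disjoint (Set.Ioc a b) (-Set.Ioc a b) := by
    rw [Set.disjoint_left]
    rintro x ⟨h1, h2⟩ ⟨h3, h4⟩
    linarith
  unfold Aa
  rw [e1, Pc_union T d1, Pc_union T d2, Pc_neg]
  ring

/-- correlations of the local counts -/
lemma NS_shift (S : Finset ℂ) (h d : ℝ) :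
    ∑ s ∈ S, ∑ s' ∈ S, mz s * mz s' * max 0 (h - |s.im - s'.im + d|) ≤ ∫ t, NS S h t ^ 2 := by
  have hint : ∀ s s' : ℂ, Integrable (fun t : ℝ => (Set.Ico (s.im - h) s.im).indicator
      (fun _ => (1 : ℝ)) t * (Set.Ico (s'.im - h) s'.im).indicator (fun _ => (1 : ℝ)) (t + d)) ∧
      ∫ t : ℝ, (Set.Ico (s.im - h) s.im).indicator (fun _ => (1 : ℝ)) t *
        (Set.Ico (s'.im - h) s'.im).indicator (fun _ => (1 : ℝ)) (t + d) =
        max 0 (h - |s.im - s'.im + d|) := by
    intro s s'
    have e1 : ∀ t : ℝ, (Set.Ico (s.im - h) s.im).indicator (fun _ => (1 : ℝ)) t *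
        (Set.Ico (s'.im - h) s'.im).indicator (fun _ => (1 : ℝ)) (t + d) =
        (Set.Ico (max s.im (s'.im - d) - h) (min s.im (s'.im - d))).indicator
          (fun _ => (1 : ℝ)) t := by
      intro t
      rw [← ico_mul]
      congr 1
      by_cases h1 : t + d ∈ Set.Ico (s'.im - h) s'.im
      · rw [Set.indicator_of_mem h1, Set.indicator_of_mem]
        exact ⟨by linarith [h1.1], by linarith [h1.2]⟩
      · rw [Set.indicator_of_notMem h1, Set.indicator_of_notMem]
        rintro ⟨h2, h3⟩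
        exact h1 ⟨by linarith, by linarith⟩
    simp_rw [e1]
    refine ⟨ico_int _ _, ?_⟩
    rw [ico_integral, min_sub_max]
    congr 3
    ring
  have e2 : ∀ t, NS S h t * NS S h (t + d) = ∑ s ∈ S, ∑ s' ∈ S, mz s * mz s' *
      ((Set.Ico (s.im - h) s.im).indicator (fun _ => (1 : ℝ)) t *
        (Set.Ico (s'.im - h) s'.im).indicator (fun _ => (1 : ℝ)) (t + d)) := by
    intro t
    rw [NS_ico, NS_ico, Finset.sum_mul_sum]
    refine Finset.sum_congr rfl fun s _ => Finset.sum_congr rfl fun s' _ => ?_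
    ring
  have i2 : Integrable fun t => NS S h t * NS S h (t + d) := by
    simp_rw [e2]
    exact integrable_finsetSum _ fun s _ => integrable_finsetSum _ fun s' _ =>
      (hint s s').1.const_mul _
  have e3 : ∫ t, NS S h t * NS S h (t + d) =
      ∑ s ∈ S, ∑ s' ∈ S, mz s * mz s' * max 0 (h - |s.im - s'.im + d|) := by
    simp_rw [e2]
    rw [integral_finsetSum _ fun s _ => integrable_finsetSum _ fun s' _ =>
      (hint s s').1.const_mul _]
    refine Finset.sum_congr rfl fun s _ => ?_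
    rw [integral_finsetSum _ fun s' _ => (hint s s').1.const_mul _]
    refine Finset.sum_congr rfl fun s' _ => ?_
    rw [integral_const_mul, (hint s s').2]
  rw [← e3]
  have i1 := NS_sq_integrable S h
  have i3 : Integrable fun t => NS S h (t + d) ^ 2 := i1.comp_add_right d
  have e4 : ∫ t, NS S h (t + d) ^ 2 = ∫ t, NS S h t ^ 2 :=
    integral_add_right_eq_self (fun t => NS S h t ^ 2) d
  calc ∫ t, NS S h t * NS S h (t + d) ≤ ∫ t, (NS S h t ^ 2 + NS S h (t + d) ^ 2) / 2 := by
        refine integral_mono i2 ((i1.add i3).div_const 2) fun t => ?_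
        show NS S h t * NS S h (t + d) ≤ (NS S h t ^ 2 + NS S h (t + d) ^ 2) / 2
        nlinarith [sq_nonneg (NS S h t - NS S h (t + d))]
    _ = ∫ t, NS S h t ^ 2 := by
        rw [integral_div, integral_add i1 i3, e4]
        ring

/-- **pairs in windows of length one mean spacing** -/
theorem win_bound : ∃ M : ℝ, 1 ≤ M ∧ ∀ᶠ T in atTop, ∀ y, 0 ≤ y → Aa T (y + 1) - Aa T y ≤ M := by
  obtain ⟨C, hC, h⟩ := tent_bound
  have hpi := Real.pi_gt_three
  refine ⟨4 * (C + 3), by linarith, ?_⟩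
  filter_upwards [h 1 one_pos 1 one_pos, eventually_gt_atTop (1 : ℝ)] with T h1 hT y hy
  have hX := Xf_pos hT
  have hL : 0 < Real.log T := Real.log_pos hT
  rw [mul_one] at h1
  rw [Aa_diff' hy (by linarith)]
  set g := 2 * π / Real.log T with hg
  have hg0 : 0 < g := by positivity
  have h2 := NS_shift (Zt T) g (-(g * (y + 1 / 2)))
  have h3 : g / 2 * Pc T (Set.Ioc y (y + 1)) ≤
      ∑ s ∈ Zt T, ∑ s' ∈ Zt T, mz s * mz s' * max 0 (g - |s.im - s'.im + -(g * (y + 1 / 2))|) := by
    unfold Pc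
    rw [Finset.mul_sum]
    refine Finset.sum_le_sum fun s _ => ?_
    rw [Finset.mul_sum]
    refine Finset.sum_le_sum fun s' _ => ?_
    have hm : 0 ≤ mz s * mz s' := mul_nonneg (mz_nonneg _) (mz_nonneg _)
    have h4 : g / 2 * Set.indicator (Set.Ioc y (y + 1)) (fun _ => (1 : ℝ)) (dd T s s') ≤
        max 0 (g - |s.im - s'.im + -(g * (y + 1 / 2))|) := by
      by_cases h5 : dd T s s' ∈ Set.Ioc y (y + 1)
      · rw [Set.indicator_of_mem h5, mul_one]
        refine le_trans ?_ (le_max_right _ _)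
        have h6 : s.im - s'.im = g * dd T s s' := by
          unfold dd
          rw [hg]
          field_simp
        have h7 : s.im - s'.im + -(g * (y + 1 / 2)) = g * (dd T s s' - (y + 1 / 2)) := by
          rw [h6]
          ring
        rw [h7, abs_mul, abs_of_pos hg0]
        have h8 : |dd T s s' - (y + 1 / 2)| ≤ 1 / 2 := by
          rw [abs_le]
          constructor <;> linarith [h5.1, h5.2]
        nlinarith
      · rw [Set.indicator_of_notMem h5, mul_zero]
        exact le_max_left _ _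
    calc g / 2 * (mz s * mz s' * Set.indicator (Set.Ioc y (y + 1)) (fun _ => (1 : ℝ)) (dd T s s')) =
        mz s * mz s' * (g / 2 * Set.indicator (Set.Ioc y (y + 1)) (fun _ => (1 : ℝ))
          (dd T s s')) := by ring
      _ ≤ _ := mul_le_mul_of_nonneg_left h4 hm
  have h4 : Real.log (1 + 1) / π ^ 2 ≤ 1 := by
    rw [div_le_one (by positivity)]
    have : Real.log (1 + 1) ≤ 1 + 1 - 1 := Real.log_le_sub_one_of_pos (by norm_num)
    nlinarith
  have h5 : g / 2 * Pc T (Set.Ioc y (y + 1)) ≤ T * (C + 3) := by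
    refine (h3.trans (h2.trans h1)).trans ?_
    have hT0 : 0 ≤ T := by linarith
    refine mul_le_mul_of_nonneg_left ?_ hT0
    linarith
  have h6 : Pc T (Set.Ioc y (y + 1)) ≤ 2 * (C + 3) * Xf T := by
    have h7 : g / 2 * (2 * (C + 3) * Xf T) = T * (C + 3) := by
      unfold Xf
      rw [hg]
      field_simp
    rw [← h7] at h5
    exact le_of_mul_le_mul_left h5 (by positivity)
  have h7 : (Xf T)⁻¹ * Pc T (Set.Ioc y (y + 1)) ≤ 2 * (C + 3) := by
    rw [inv_mul_le_iff₀ hX]
    linarith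
  linarith

end Pool.Agent.E8helper29.PC
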