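import Pool.Agent.E8helper29.PC.Exp3
import Pool.Agent.E8helper29.PC.WinB
import Pool.Agent.E8helper29.PC.Main

/-! One sided bounds on a finite range of distances. -/

open MeasureTheory Filter Topology Real

namespace Pool.Agent.E8helper29.PC

open Pool.Agent.Y744

theorem finite_exp : ∃ C c : ℝ, 0 < C ∧ 0 < c ∧ ∀ A : ℝ, 0 < A → ∀ s : ℝ, (s = 1 ∨ s = -1) →
    (s = 1 → Tendsto (fun T => Noff T / Xf T) atTop (𝓝 0)) →
    (∀ y, 0 < y → y < A → ∀ ε, 0 < ε → ∀ᶠ T in atTop, -ε ≤ s * (Aa T y - AG y)) →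
    ∀ x, 0 ≤ x → x < A → ∀ ε, 0 < ε → ∀ᶠ T in atTop,
      |Aa T x - AG x| ≤ C * Real.exp (-(c * (A - x))) + ε := by
  obtain ⟨C0, hC0, hex⟩ := exists_limit
  obtain ⟨M, hM, hwin⟩ := win_bound
  obtain ⟨C, c, hC, hc, hrig⟩ := exp_rigid (Mw := M + C0 + 3) (by linarith) (κ := 1 / 2) (by norm_num)
  refine ⟨C, c, hC, hc, fun A hA s hs hoff1 hyp => ?_⟩
  -- the sign of the limit
  have hlimw : ∀ (g : Ultrafilter ℝ), (g : Filter ℝ) ≤ atTop → ∀ A' : ℝ → ℝ,
      (∀ y, Tendsto (fun T => Aa T y) (g : Filter ℝ) (𝓝 (A' y))) →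
      (∀ y, 0 < y → y < A → 0 ≤ s * (A' y - AG y)) := by
    intro g hg A' hlim y hy hyA
    refine le_of_forall_pos_le_add fun ε hε => ?_
    have h1 : Tendsto (fun T => s * (Aa T y - AG y)) (g : Filter ℝ) (𝓝 (s * (A' y - AG y))) :=
      ((hlim y).sub_const _).const_mul _
    have h3 := ge_of_tendsto h1 (hg (hyp y hy hyA ε hε))
    linarith
  have hoff : Tendsto (fun T => Noff T / Xf T) atTop (𝓝 0) := by
    rcases hs with h | h
    · exact hoff1 h
    · refine (simple_of_diag ?_).2
      rw [tendsto_iff_ultrafilter]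
      intro g hg
      obtain ⟨A', hA', hneg, h0, hlim, havg, hmont⟩ := hex g hg
      have h1 := hlimw g hg A' hlim
      have h2 : A' 0 ≤ 1 := by
        refine le_of_forall_pos_le_add fun ε hε => ?_
        set z := min (A / 2) (ε / 2) with hz
        have hz0 : 0 < z := lt_min (by positivity) (by positivity)
        have hzA : z < A := (min_le_left _ _).trans_lt (by linarith)
        have hz2 : z ≤ ε / 2 := min_le_right _ _
        have h3 := h1 z hz0 hzA
        rw [h, AG_pos hz0.le] at h3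
        have h4 := hA' hz0.le
        have h5 := gp_le hz0.le
        linarith
      have h3 : A' 0 = 1 := le_antisymm h2 h0
      rw [← h3]
      exact hlim 0
  intro x hx hxA ε hε
  refine mem_iff_ultrafilter.2 fun g hg => ?_
  obtain ⟨A', hA', hneg, h0, hlim, havg, hmont⟩ := hex g hg
  have hwin' : ∀ y, 0 ≤ y → A' (y + 1) - A' y ≤ M + C0 + 3 := by
    intro y hy
    have h1 : ∀ᶠ T in (g : Filter ℝ), Aa T (y + 1) - Aa T y ≤ M := by
      filter_upwards [hg hwin] with T hT using hT y hy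
    have := le_of_tendsto ((hlim (y + 1)).sub (hlim y)) h1
    linarith
  have h0' : A' 0 ≤ M + C0 + 3 := by
    have h1 := havg 1 one_pos
    have h2 : ∫ y in (0 : ℝ)..1, A' 0 ≤ ∫ y in (0 : ℝ)..1, A' y :=
      intervalIntegral.integral_mono_on (by norm_num) intervalIntegrable_const
        hA'.intervalIntegrable fun z hz => hA' hz.1
    rw [intervalIntegral.integral_const, smul_eq_mul, sub_zero, one_mul] at h2
    have h4 : Real.log (1 + 1) / π ^ 2 ≤ 1 := by
      rw [div_le_one (by positivity)]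
      have h5 : Real.log (1 + 1) ≤ 1 + 1 - 1 := Real.log_le_sub_one_of_pos (by norm_num)
      have h6 := Real.pi_gt_three
      nlinarith
    linarith
  have h1 := hrig A' hA' hneg h0 h0' hwin' (hmont hoff) A hA s hs (hlimw g hg A' hlim) x hx hxA
  have h2 : Tendsto (fun T => |Aa T x - AG x|) (g : Filter ℝ) (𝓝 |A' x - AG x|) :=
    ((hlim x).sub_const _).abs
  have h3 := h2.eventually_lt_const
    (show |A' x - AG x| < C * Real.exp (-(c * (A - x))) + ε by linarith)
  exact h3.mono fun T hT => hT.le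

end Pool.Agent.E8helper29.PC
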