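import Pool.Agent.Y744.PCR.Lim

/-! Test functions: the primitives of `y ↦ y · (ct K) y` are again cosine transforms of Lipschitz
functions with the same support. -/

open MeasureTheory Filter Topology Real
open scoped ContDiff

namespace Pool.Agent.E8helper29.PC

open Pool.Agent.Y744 Pool.Agent.Y744.TK

variable {κ : ℝ} {K : ℝ → ℝ}

/-- `K'(ξ)/ξ` -/
noncomputable def rk (K : ℝ → ℝ) (ξ : ℝ) : ℝ := ∫ t in (0 : ℝ)..1, deriv (deriv K) (t * ξ)

lemma d1_diff (h : TK κ K) : Differentiable ℝ (deriv K) :=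
  (deriv_smooth h.smooth).differentiable (by simp)

lemma d1_cont (h : TK κ K) : Continuous (deriv K) := (deriv_smooth h.smooth).continuous

lemma d2_cont (h : TK κ K) : Continuous (deriv (deriv K)) :=
  (deriv_smooth (deriv_smooth h.smooth)).continuous

lemma d1_odd (h : TK κ K) (x : ℝ) : deriv K (-x) = -deriv K x := by
  have h1 : (fun x => K (-x)) = K := funext h.even
  have h3 := deriv_comp_neg K x
  rw [h1] at h3
  rw [h3, neg_neg]

lemma d1_zero (h : TK κ K) : deriv K 0 = 0 := by
  have := d1_odd h 0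
  rw [neg_zero] at this
  linarith

lemma d2_even (h : TK κ K) (x : ℝ) : deriv (deriv K) (-x) = deriv (deriv K) x := by
  have h5 : (fun x => deriv K (-x)) = fun x => -deriv K x := funext (d1_odd h)
  have h6 := deriv_comp_neg (deriv K) x
  rw [h5, deriv.fun_neg] at h6
  linarith

lemma mul_rk (h : TK κ K) (ξ : ℝ) : ξ * rk K ξ = deriv K ξ := by
  unfold rk
  have h1 : ∫ t in (0 : ℝ)..1, deriv (deriv K) (t * ξ) * ξ =
      deriv K (1 * ξ) - deriv K (0 * ξ) := by
    refine intervalIntegral.integral_eq_sub_of_hasDerivAt (f := fun t => deriv K (t * ξ))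
      (fun t _ => ?_) ?_
    · have h2 := (d1_diff h (t * ξ)).hasDerivAt.comp t ((hasDerivAt_id t).mul_const ξ)
      simpa [Function.comp_def] using h2
    · exact (((d2_cont h).comp (by fun_prop)).mul continuous_const).intervalIntegrable _ _
  rw [zero_mul, d1_zero h, sub_zero, one_mul, intervalIntegral.integral_mul_const] at h1
  rw [mul_comm]
  exact h1

lemma rk_supp (h : TK κ K) (hκ : 0 ≤ κ) (x : ℝ) (hx : κ < |x|) : rk K x = 0 := by
  have h1 := mul_rk h x
  rw [deriv_supp h.supp x hx] at h1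
  have hx0 : x ≠ 0 := by
    rintro rfl
    rw [abs_zero] at hx
    linarith
  exact (mul_eq_zero.1 h1).resolve_left hx0

lemma rk_even (h : TK κ K) (x : ℝ) : rk K (-x) = rk K x := by
  unfold rk
  congr 1
  funext t
  rw [mul_neg, d2_even h]

lemma d3_bdd (h : TK κ K) : ∃ C, 0 ≤ C ∧ (∀ x, |deriv (deriv (deriv K)) x| ≤ C) ∧
    ∀ x, |deriv (deriv K) x| ≤ C := by
  have hs := deriv_smooth (deriv_smooth h.smooth)
  have h1 : HasCompactSupport (deriv (deriv K)) := h.hcs.deriv.deriv
  have h2 : HasCompactSupport (deriv (deriv (deriv K))) := h1.deriv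
  obtain ⟨C1, hC1⟩ := h1.exists_bound_of_continuous hs.continuous
  obtain ⟨C2, hC2⟩ := h2.exists_bound_of_continuous (deriv_smooth hs).continuous
  refine ⟨max C1 C2, ?_, fun x => (hC2 x).trans (le_max_right _ _),
    fun x => (hC1 x).trans (le_max_left _ _)⟩
  exact (norm_nonneg _).trans ((hC1 0).trans (le_max_left _ _))

lemma rk_lip (h : TK κ K) : ∃ C, 0 ≤ C ∧ (∀ x y, |rk K x - rk K y| ≤ C * |x - y|) ∧
    ∀ x, |rk K x| ≤ C := by
  obtain ⟨C, hC, h3, h2⟩ := d3_bdd h
  have hs := deriv_smooth (deriv_smooth h.smooth)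
  have hlip : ∀ x y, |deriv (deriv K) x - deriv (deriv K) y| ≤ C * |x - y| := by
    intro x y
    have := Convex.norm_image_sub_le_of_norm_deriv_le (f := deriv (deriv K)) (s := Set.univ)
      (C := C) (x := y) (y := x) (fun z _ => (hs.differentiable (by simp)) z)
      (fun z _ => h3 z) convex_univ (Set.mem_univ _) (Set.mem_univ _)
    simpa [Real.norm_eq_abs] using this
  refine ⟨C, hC, fun x y => ?_, fun x => ?_⟩
  · unfold rk
    have hc : ∀ z : ℝ, Continuous fun t : ℝ => deriv (deriv K) (t * z) := fun z =>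
      (d2_cont h).comp (continuous_id.mul continuous_const)
    rw [← intervalIntegral.integral_sub ((hc x).intervalIntegrable _ _)
      ((hc y).intervalIntegrable _ _)]
    have := intervalIntegral.norm_integral_le_of_norm_le_const (a := (0 : ℝ)) (b := 1)
      (f := fun t => deriv (deriv K) (t * x) - deriv (deriv K) (t * y)) (C := C * |x - y|)
      (fun t ht => by
        rw [Set.uIoc_of_le (by norm_num)] at ht
        rw [Real.norm_eq_abs]
        refine (hlip _ _).trans ?_
        rw [← mul_sub, abs_mul, abs_of_pos ht.1]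
        have h1 := abs_nonneg (x - y)
        have h2 : t * |x - y| ≤ |x - y| := mul_le_of_le_one_left h1 ht.2
        exact mul_le_mul_of_nonneg_left h2 hC)
    simpa [Real.norm_eq_abs] using this
  · unfold rk
    have := intervalIntegral.norm_integral_le_of_norm_le_const (a := (0 : ℝ)) (b := 1)
      (f := fun t => deriv (deriv K) (t * x)) (C := C)
      (fun t ht => by rw [Real.norm_eq_abs]; exact h2 _)
    simpa [Real.norm_eq_abs] using this

lemma rk_cont (h : TK κ K) : Continuous (rk K) := by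
  obtain ⟨C, hC, h1, _⟩ := rk_lip h
  have : LipschitzWith C.toNNReal (rk K) := by
    refine LipschitzWith.of_dist_le_mul fun x y => ?_
    rw [Real.dist_eq, Real.dist_eq, Real.coe_toNNReal _ hC]
    exact h1 x y
  exact this.continuous

lemma rk_hcs (h : TK κ K) (hκ : 0 ≤ κ) : HasCompactSupport (rk K) := by
  refine HasCompactSupport.intro (isCompact_Icc (a := -κ) (b := κ)) fun x hx =>
    rk_supp h hκ x ?_
  by_contra hc
  exact hx (abs_le.1 (not_lt.1 hc))

lemma rk_mul_int (h : TK κ K) (hκ : 0 ≤ κ) {f : ℝ → ℝ} (hf : Continuous f) :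
    Integrable fun α => rk K α * f α :=
  ((rk_cont h).mul hf).integrable_of_hasCompactSupport (rk_hcs h hκ).mul_right

/-- the transform density of the test function -/
noncomputable def rr (K : ℝ → ℝ) (α : ℝ) : ℝ := -(rk K α) / (4 * π ^ 2)

/-- the test function -/
noncomputable def ph (K : ℝ → ℝ) (u : ℝ) : ℝ := ct (rr K) u

lemma ct_rk_deriv (h : TK κ K) (hκ : 0 ≤ κ) (u : ℝ) :
    HasDerivAt (ct (rk K)) (4 * π ^ 2 * (u * ct K u)) u := by
  have h1 : HasDerivAt (fun u => ∫ α, rk K α * Real.cos (2 * π * u * α))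
      (∫ α, rk K α * (-(2 * π * α) * Real.sin (2 * π * u * α))) u := by
    refine (hasDerivAt_integral_of_dominated_loc_of_deriv_le (μ := volume)
      (F := fun u α => rk K α * Real.cos (2 * π * u * α))
      (F' := fun u α => rk K α * (-(2 * π * α) * Real.sin (2 * π * u * α)))
      (s := Set.univ) (bound := fun α => |rk K α * (2 * π * α)|) Filter.univ_mem ?_ ?_ ?_ ?_ ?_ ?_).2
    · exact Eventually.of_forall fun x => (rk_mul_int h hκ (by fun_prop)).aestronglyMeasurable
    · exact rk_mul_int h hκ (by fun_prop)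
    · exact (rk_mul_int h hκ (by fun_prop)).aestronglyMeasurable
    · refine Eventually.of_forall fun α x _ => ?_
      rw [Real.norm_eq_abs, abs_mul, abs_mul, abs_mul, abs_neg]
      have := Real.abs_sin_le_one (2 * π * x * α)
      have h2 := abs_nonneg (rk K α)
      have h3 := abs_nonneg (2 * π * α)
      calc |rk K α| * (|2 * π * α| * |Real.sin (2 * π * x * α)|) ≤ |rk K α| * (|2 * π * α| * 1) := by
            gcongr
        _ = _ := by ring
    · exact (rk_mul_int h hκ (by fun_prop)).abs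
    · refine Eventually.of_forall fun α x _ => ?_
      have h2 : HasDerivAt (fun x : ℝ => 2 * π * x * α) (2 * π * α) x := by
        have := ((hasDerivAt_id x).const_mul (2 * π)).mul_const α
        simpa using this
      have h3 := (h2.cos).const_mul (rk K α)
      refine h3.congr_deriv ?_
      ring
  have h2 : ∫ α, rk K α * (-(2 * π * α) * Real.sin (2 * π * u * α)) =
      4 * π ^ 2 * (u * ct K u) := by
    have e1 : ∀ α, rk K α * (-(2 * π * α) * Real.sin (2 * π * u * α)) =
        -(2 * π) * (deriv K α * Real.sin (2 * π * u * α)) := by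
      intro α
      rw [← mul_rk h]
      ring
    simp_rw [e1]
    rw [integral_const_mul]
    have hc1 : HasCompactSupport (deriv K) := h.hcs.deriv
    have i2 : ∀ f : ℝ → ℝ, Continuous f → Integrable (fun α => deriv K α * f α) := fun f hf =>
      ((d1_cont h).mul hf).integrable_of_hasCompactSupport hc1.mul_right
    have hd1 : Differentiable ℝ K := h.smooth.differentiable (by simp)
    have e2 : ∫ α, K α * (2 * π * u * Real.cos (2 * π * u * α)) =
        -∫ α, deriv K α * Real.sin (2 * π * u * α) := by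
      refine integral_mul_deriv_eq_deriv_mul_of_integrable (u := K)
        (v := fun α => Real.sin (2 * π * u * α)) (fun α _ => (hd1 α).hasDerivAt) (fun α _ => ?_)
        (h.mul_int (by fun_prop)) (i2 _ (by fun_prop)) (h.mul_int (by fun_prop))
      have := ((hasDerivAt_id α).const_mul (2 * π * u)).sin
      simp only [id, mul_one] at this
      rw [mul_comm (2 * π * u) (Real.cos _)]
      exact this
    have e3 : ∫ α, K α * (2 * π * u * Real.cos (2 * π * u * α)) = 2 * π * u * ct K u := by
      unfold ct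
      rw [← integral_const_mul]
      refine integral_congr_ae (Eventually.of_forall fun α => ?_)
      show K α * (2 * π * u * Real.cos (2 * π * u * α)) = 2 * π * u * (K α * Real.cos _)
      ring
    rw [e3] at e2
    have e4 : ∫ α, deriv K α * Real.sin (2 * π * u * α) = -(2 * π * u * ct K u) := by linarith
    rw [e4]
    ring
  rw [h2] at h1
  exact h1

lemma ph_eq (K : ℝ → ℝ) (u : ℝ) : ph K u = -(1 / (4 * π ^ 2)) * ct (rk K) u := by
  unfold ph ct rr
  rw [← integral_const_mul]
  congr 1
  funext α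
  ring

lemma ph_deriv (h : TK κ K) (hκ : 0 ≤ κ) (u : ℝ) : HasDerivAt (ph K) (-(u * ct K u)) u := by
  have h1 := (ct_rk_deriv h hκ u).const_mul (-(1 / (4 * π ^ 2)))
  have h2 : ph K = fun u => -(1 / (4 * π ^ 2)) * ct (rk K) u := funext (ph_eq K)
  rw [h2]
  refine h1.congr_deriv ?_
  have := Real.pi_pos
  field_simp

lemma ph_neg (K : ℝ → ℝ) (u : ℝ) : ph K (-u) = ph K u := ct_neg _ _

lemma ph_abs (K : ℝ → ℝ) (u : ℝ) : ph K |u| = ph K u := by
  rcases abs_cases u with ⟨h, _⟩ | ⟨h, _⟩
  · rw [h]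
  · rw [h, ph_neg]

/-- Riemann–Lebesgue -/
lemma ct_tendsto (r : ℝ → ℝ) (hr : Integrable r) : Tendsto (ct r) atTop (𝓝 0) := by
  have h1 := Real.tendsto_integral_exp_smul_cocompact (fun x : ℝ => (r x : ℂ))
  have h2 : Tendsto (fun w : ℝ => ∫ v : ℝ, Real.fourierChar (-(v * w)) • (r v : ℂ)) atTop (𝓝 0) := by
    refine h1.mono_left ?_
    rw [cocompact_eq_atBot_atTop]
    exact le_sup_right
  have h3 := (Complex.continuous_re.tendsto 0).comp h2
  rw [Complex.zero_re] at h3
  refine h3.congr fun w => ?_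
  have hint : Integrable fun v : ℝ => Real.fourierChar (-(v * w)) • (r v : ℂ) := by
    have := (Real.fourierIntegral_convergent_iff (μ := volume) (f := fun x : ℝ => (r x : ℂ)) w).2
      hr.ofReal
    refine this.congr (Eventually.of_forall fun v => ?_)
    simp [mul_comm]
  show (∫ v : ℝ, Real.fourierChar (-(v * w)) • (r v : ℂ)).re = ct r w
  have h4 : (∫ v : ℝ, Real.fourierChar (-(v * w)) • (r v : ℂ)).re =
      ∫ v : ℝ, (Real.fourierChar (-(v * w)) • (r v : ℂ)).re := by
    have := integral_re (𝕜 := ℂ) hint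
    simpa using this.symm
  rw [h4]
  unfold ct
  congr 1
  funext v
  rw [Circle.smul_def, Real.fourierChar_apply, smul_eq_mul, Complex.re_mul_ofReal,
    mul_comm]
  congr 1
  have : (((2 * π * -(v * w) : ℝ) : ℂ) * Complex.I) = (((-(2 * π * w * v) : ℝ)) : ℂ) * Complex.I := by
    congr 2
    ring
  rw [this, Complex.exp_ofReal_mul_I_re, Real.cos_neg]

lemma rr_cont (h : TK κ K) : Continuous (rr K) := by
  unfold rr
  exact (rk_cont h).neg.div_const _

lemma rr_int (h : TK κ K) (hκ : 0 ≤ κ) : Integrable (rr K) := by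
  unfold rr
  exact ((rk_cont h).integrable_of_hasCompactSupport (rk_hcs h hκ)).neg.div_const _

lemma ph_tendsto (h : TK κ K) (hκ : 0 ≤ κ) : Tendsto (ph K) atTop (𝓝 0) :=
  ct_tendsto _ (rr_int h hκ)

/-- decay of the weight -/
lemma w_decay (h : TK κ K) (n : ℕ) : ∃ C, 0 ≤ C ∧ ∀ y, |y * ct K y| ≤ C / (1 + y ^ 2) ^ n := by
  obtain ⟨C, hC, hd⟩ := h.decay (n + 1)
  refine ⟨C, hC, fun y => ?_⟩
  rw [abs_mul]
  have h1 : |y| ≤ 1 + y ^ 2 := by
    rw [← sq_abs]
    nlinarith [abs_nonneg y, sq_nonneg (|y| - 1)]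
  have h2 : (0 : ℝ) < 1 + y ^ 2 := by positivity
  calc |y| * |ct K y| ≤ (1 + y ^ 2) * (C / (1 + y ^ 2) ^ (n + 1)) := by
        gcongr
        exact hd y
    _ = C / (1 + y ^ 2) ^ n := by
        rw [pow_succ]
        field_simp
        try ring

lemma w_int (h : TK κ K) : Integrable fun y => y * ct K y := by
  obtain ⟨C, hC, hd⟩ := w_decay h 1
  refine Integrable.mono' ((integrable_inv_one_add_sq).const_mul C)
    ((continuous_id.mul h.ct_cont).aestronglyMeasurable) (Eventually.of_forall fun y => ?_)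
  rw [Real.norm_eq_abs]
  refine (hd y).trans (le_of_eq ?_)
  rw [pow_one, div_eq_mul_inv]

/-- the tail integral -/
lemma ph_tail (h : TK κ K) (hκ : 0 ≤ κ) (t : ℝ) : ∫ y in Set.Ioi t, y * ct K y = ph K t := by
  have h1 := integral_Ioi_of_hasDerivAt_of_tendsto (f := ph K) (f' := fun y => -(y * ct K y))
    (a := t) (m := 0) (ph_deriv h hκ t).continuousAt.continuousWithinAt
    (fun y _ => ph_deriv h hκ y) (w_int h).neg.integrableOn (ph_tendsto h hκ)
  rw [integral_neg] at h1
  linarith

lemma ph_decay (h : TK κ K) (hκ : 0 ≤ κ) (n : ℕ) :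
    ∃ C, 0 ≤ C ∧ ∀ y, |ph K y| ≤ C / (1 + y ^ 2) ^ n := by
  obtain ⟨C, hC, hd⟩ := w_decay h (n + 1)
  refine ⟨C * π, by positivity, fun y => ?_⟩
  rw [← ph_abs, ← ph_tail h hκ]
  have hI : Integrable fun s : ℝ => C / (1 + y ^ 2) ^ n * (1 + s ^ 2)⁻¹ :=
    integrable_inv_one_add_sq.const_mul _
  calc |∫ s in Set.Ioi |y|, s * ct K s| ≤ ∫ s in Set.Ioi |y|, |s * ct K s| :=
        abs_integral_le_integral_abs
    _ ≤ ∫ s in Set.Ioi |y|, C / (1 + y ^ 2) ^ n * (1 + s ^ 2)⁻¹ := by
        refine setIntegral_mono_on (w_int h).abs.integrableOn hI.integrableOn measurableSet_Ioi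
          fun s hs => ?_
        refine (hd s).trans ?_
        have h1 : y ^ 2 ≤ s ^ 2 := by
          rw [← sq_abs y]
          exact pow_le_pow_left₀ (abs_nonneg _) (le_of_lt hs) 2
        rw [pow_succ, div_mul_eq_div_div, div_eq_mul_inv (C / (1 + s ^ 2) ^ n)]
        gcongr
    _ ≤ ∫ s : ℝ, C / (1 + y ^ 2) ^ n * (1 + s ^ 2)⁻¹ := by
        refine setIntegral_le_integral hI (Eventually.of_forall fun s => ?_)
        positivity
    _ = C / (1 + y ^ 2) ^ n * π := by
        rw [integral_const_mul, integral_univ_inv_one_add_sq]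
    _ = C * π / (1 + y ^ 2) ^ n := by ring

lemma ph_cont (h : TK κ K) (hκ : 0 ≤ κ) : Continuous (ph K) :=
  continuous_iff_continuousAt.2 fun u => (ph_deriv h hκ u).continuousAt

/-- scaling -/
lemma ph_scale (h : TK κ K) (hκ : 0 ≤ κ) : ∃ C, 0 ≤ C ∧ ∀ y s, 1 ≤ s →
    |ph K (s * y) - ph K y| ≤ C * (s - 1) / (1 + y ^ 2) := by
  obtain ⟨C, hC, hd⟩ := w_decay h 2
  refine ⟨C, hC, fun y s hs => ?_⟩
  have key : ∀ y : ℝ, 0 ≤ y → |ph K (s * y) - ph K y| ≤ C * (s - 1) / (1 + y ^ 2) := by
    intro y hy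
    have h1 : ∫ t in y..(s * y), -(t * ct K t) = ph K (s * y) - ph K y := by
      refine intervalIntegral.integral_eq_sub_of_hasDerivAt (fun t _ => ph_deriv h hκ t) ?_
      exact ((continuous_id.mul h.ct_cont).neg).intervalIntegrable _ _
    have hle : y ≤ s * y := by nlinarith
    rw [← h1]
    have h2 := intervalIntegral.norm_integral_le_of_norm_le_const (a := y) (b := s * y)
      (f := fun t => -(t * ct K t)) (C := C / (1 + y ^ 2) ^ 2) (fun t ht => by
        rw [Set.uIoc_of_le hle] at ht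
        rw [Real.norm_eq_abs, abs_neg]
        refine (hd t).trans ?_
        have : y ^ 2 ≤ t ^ 2 := pow_le_pow_left₀ hy ht.1.le 2
        gcongr)
    rw [Real.norm_eq_abs, abs_of_nonneg (by linarith : 0 ≤ s * y - y)] at h2
    refine h2.trans ?_
    have h3 : y ≤ 1 + y ^ 2 := by nlinarith [sq_nonneg (y - 1)]
    have h4 : (0 : ℝ) < 1 + y ^ 2 := by positivity
    have e : s * y - y = (s - 1) * y := by ring
    rw [e]
    calc C / (1 + y ^ 2) ^ 2 * ((s - 1) * y) ≤ C / (1 + y ^ 2) ^ 2 * ((s - 1) * (1 + y ^ 2)) := by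
          have : 0 ≤ s - 1 := by linarith
          gcongr
      _ = C * (s - 1) / (1 + y ^ 2) := by field_simp
  rcases le_total 0 y with hy | hy
  · exact key y hy
  · have := key (-y) (by linarith)
    rwa [mul_neg, ph_neg, ph_neg, neg_sq] at this

/-- the predicted integral -/
lemma AG_int (h : TK κ K) (hκ : 0 ≤ κ) : ∫ y, AG y * (y * ct K y) =
    ph K 0 + ∫ u, ph K u * (1 - Real.sinc (π * u) ^ 2) := by
  obtain ⟨C, hC, hd⟩ := ph_decay h hκ 2
  have e0 : ∫ y, AG y * (y * ct K y) = ∫ y in Set.Ioi 0, AG y * (y * ct K y) := by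
    rw [← integral_Ici_eq_integral_Ioi, ← integral_indicator measurableSet_Ici]
    congr 1
    funext y
    by_cases hy : 0 ≤ y
    · rw [Set.indicator_of_mem (show y ∈ Set.Ici (0 : ℝ) from hy)]
    · rw [Set.indicator_of_notMem (show y ∉ Set.Ici (0 : ℝ) from hy)]
      unfold AG
      rw [if_pos (not_le.1 hy), zero_mul]
  have e1 : ∫ y in Set.Ioi 0, AG y * (y * ct K y) =
      ∫ y in Set.Ioi 0, (1 + 2 * gp y) * (y * ct K y) := by
    refine setIntegral_congr_fun measurableSet_Ioi fun y hy => ?_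
    show AG y * (y * ct K y) = (1 + 2 * gp y) * (y * ct K y)
    unfold AG
    rw [if_neg (not_lt.2 (le_of_lt hy))]
  rw [e0, e1]
  -- integrability
  have hgpc := gp_cont
  have hw2 : Integrable fun y => (1 + 2 * gp y) * (y * ct K y) := by
    obtain ⟨C', hC', hd'⟩ := w_decay h 2
    refine Integrable.mono' ((integrable_inv_one_add_sq).const_mul (3 * C'))
      (((continuous_const.add (continuous_const.mul hgpc)).mul
        (continuous_id.mul h.ct_cont)).aestronglyMeasurable) (Eventually.of_forall fun y => ?_)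
    rw [Real.norm_eq_abs, abs_mul]
    have hg : |gp y| ≤ |y| := by
      rcases le_total 0 y with hy | hy
      · rw [abs_of_nonneg hy, abs_of_nonneg (gp_nonneg hy)]
        exact gp_le hy
      · have h1 : gp y = -∫ u in y..0, gd u := by
          unfold gp
          rw [intervalIntegral.integral_symm]
        have h2 : 0 ≤ ∫ u in y..0, gd u := intervalIntegral.integral_nonneg hy fun u _ => gd_nonneg u
        have h3 : ∫ u in y..0, gd u ≤ ∫ u in y..0, (1 : ℝ) :=
          intervalIntegral.integral_mono_on hy (gd_cont.intervalIntegrable _ _)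
            intervalIntegrable_const fun u _ => gd_le u
        rw [intervalIntegral.integral_const, smul_eq_mul, mul_one] at h3
        rw [h1, abs_neg, abs_of_nonneg h2, abs_of_nonpos hy]
        linarith
    have h1 : |1 + 2 * gp y| ≤ 3 * (1 + y ^ 2) := by
      refine (abs_add_le _ _).trans ?_
      rw [abs_one, abs_mul, abs_of_pos (by norm_num : (0 : ℝ) < 2)]
      have h2 : |y| ≤ 1 + y ^ 2 := by
        rw [← sq_abs]
        nlinarith [abs_nonneg y, sq_nonneg (|y| - 1)]
      nlinarith [sq_nonneg y]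
    have h4 : (0 : ℝ) < 1 + y ^ 2 := by positivity
    calc |1 + 2 * gp y| * |y * ct K y| ≤ 3 * (1 + y ^ 2) * (C' / (1 + y ^ 2) ^ 2) := by
          gcongr
          exact hd' y
      _ = 3 * C' * (1 + y ^ 2)⁻¹ := by field_simp
  have hphi : Integrable fun u => ph K u * gd u := by
    refine Integrable.mono' ((integrable_inv_one_add_sq).const_mul C)
      (((ph_cont h hκ).mul gd_cont).aestronglyMeasurable) (Eventually.of_forall fun y => ?_)
    rw [Real.norm_eq_abs, abs_mul, abs_of_nonneg (gd_nonneg y)]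
    have h4 : (1 : ℝ) ≤ 1 + y ^ 2 := by nlinarith [sq_nonneg y]
    calc |ph K y| * gd y ≤ C / (1 + y ^ 2) ^ 2 * 1 := by
          have := gd_le y
          have := gd_nonneg y
          gcongr
          exact hd y
      _ ≤ C / (1 + y ^ 2) := by
          rw [mul_one]
          gcongr
          nlinarith
      _ = C * (1 + y ^ 2)⁻¹ := by rw [div_eq_mul_inv]
  -- integration by parts
  have ht : Tendsto (fun y => (1 + 2 * gp y) * ph K y) atTop (𝓝 0) := by
    have h3 : Tendsto (fun y : ℝ => 3 * C * (1 + y ^ 2)⁻¹) atTop (𝓝 (3 * C * 0)) := by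
      refine Tendsto.const_mul _ ?_
      refine tendsto_inv_atTop_zero.comp ?_
      exact tendsto_atTop_add_const_left _ _ (tendsto_pow_atTop (by norm_num))
    rw [mul_zero] at h3
    refine squeeze_zero_norm' ?_ h3
    filter_upwards [eventually_ge_atTop (0 : ℝ)] with y hy
    rw [Real.norm_eq_abs, abs_mul]
    have h5 := gp_nonneg hy
    have h6 := gp_le hy
    rw [abs_of_nonneg (by linarith : 0 ≤ 1 + 2 * gp y)]
    have h4 : (0 : ℝ) < 1 + y ^ 2 := by positivity
    calc (1 + 2 * gp y) * |ph K y| ≤ (3 * (1 + y ^ 2)) * (C / (1 + y ^ 2) ^ 2) := by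
          gcongr
          · nlinarith [sq_nonneg (y - 1)]
          · exact hd y
      _ = 3 * C * (1 + y ^ 2)⁻¹ := by field_simp
  have hder : ∀ y ∈ Set.Ioi (0 : ℝ), HasDerivAt (fun y => (1 + 2 * gp y) * ph K y)
      (2 * gd y * ph K y - (1 + 2 * gp y) * (y * ct K y)) y := by
    intro y _
    have h1 := (((gp_deriv y).const_mul 2).const_add 1).mul (ph_deriv h hκ y)
    refine h1.congr_deriv ?_
    ring
  have hi2 : Integrable fun y => 2 * gd y * ph K y - (1 + 2 * gp y) * (y * ct K y) := by
    refine Integrable.sub ?_ hw2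
    refine (hphi.const_mul 2).congr (Eventually.of_forall fun y => ?_)
    show 2 * (ph K y * gd y) = 2 * gd y * ph K y
    ring
  have h1 : ∫ y in Set.Ioi (0 : ℝ), (2 * gd y * ph K y - (1 + 2 * gp y) * (y * ct K y)) =
      0 - (1 + 2 * gp 0) * ph K 0 :=
    integral_Ioi_of_hasDerivAt_of_tendsto (f := fun y => (1 + 2 * gp y) * ph K y) (a := 0) (m := 0)
      (((continuous_const.add (continuous_const.mul gp_cont)).mul
      (ph_cont h hκ)).continuousAt.continuousWithinAt) hder hi2.integrableOn ht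
  rw [gp_zero, mul_zero, add_zero, one_mul, zero_sub, integral_sub (by
    refine Integrable.integrableOn ?_
    refine (hphi.const_mul 2).congr (Eventually.of_forall fun y => ?_)
    show 2 * (ph K y * gd y) = 2 * gd y * ph K y
    ring) hw2.integrableOn] at h1
  have h2 : ∫ y in Set.Ioi 0, 2 * gd y * ph K y = ∫ u, ph K u * gd u := by
    have h3 : ∫ y in Set.Ioi (0 : ℝ), 2 * gd y * ph K y = 2 * ∫ y in Set.Ioi (0 : ℝ), ph K y * gd y := by
      rw [← integral_const_mul]
      refine setIntegral_congr_fun measurableSet_Ioi fun y _ => ?_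
      show 2 * gd y * ph K y = 2 * (ph K y * gd y)
      ring
    have h4 := integral_comp_abs (f := fun y => ph K y * gd y)
    rw [h3, ← h4]
    congr 1
    funext u
    show ph K |u| * gd |u| = ph K u * gd u
    rw [ph_abs]
    congr 1
    unfold gd
    rcases abs_cases u with ⟨h, _⟩ | ⟨h, _⟩
    · rw [h]
    · rw [h, mul_neg, Real.sinc_neg]
  rw [h2] at h1
  have h3 : ∫ u, ph K u * (1 - Real.sinc (π * u) ^ 2) = ∫ u, ph K u * gd u := rfl
  rw [h3]
  linarith

end Pool.Agent.E8helper29.PC
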