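import Pool.Agent.TH850.UV.NVh
import Pool.Agent.E8helper29.PC.Dyad

/-! The number variance and the pairs up to height `T`. -/

open Filter Topology MeasureTheory Set

namespace Pool.Agent.E8helper29.PC

open H370 TH803TW Pool.Agent.Y744
open Pool.Agent.TH850.UV (NS cnt mS)

lemma NS_ico (S : Finset ℂ) (h t : ℝ) : NS S h t =
    ∑ s ∈ S, mz s * (Set.Ico (s.im - h) s.im).indicator (fun _ => (1 : ℝ)) t := by
  unfold NS
  refine Finset.sum_congr rfl fun s _ => ?_
  show mz s * _ = mz s * _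
  congr 1
  by_cases ht : t < s.im ∧ s.im ≤ t + h
  · rw [if_pos ht, Set.indicator_of_mem]
    exact ⟨by linarith [ht.2], ht.1⟩
  · rw [if_neg ht, Set.indicator_of_notMem]
    intro h2
    exact ht ⟨h2.2, by linarith [h2.1]⟩

lemma ico_int (a b : ℝ) : Integrable ((Set.Ico a b).indicator (fun _ => (1 : ℝ))) := by
  rw [integrable_indicator_iff measurableSet_Ico]
  exact integrableOn_const (by simp [Real.volume_Ico])

lemma ico_integral (a b : ℝ) : ∫ t, (Set.Ico a b).indicator (fun _ => (1 : ℝ)) t = max 0 (b - a) := by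
  rw [integral_indicator measurableSet_Ico, setIntegral_const, smul_eq_mul, mul_one,
    Real.volume_real_Ico, max_comm]

lemma ico_mul (a b h t : ℝ) : (Set.Ico (a - h) a).indicator (fun _ => (1 : ℝ)) t *
    (Set.Ico (b - h) b).indicator (fun _ => (1 : ℝ)) t =
    (Set.Ico (max a b - h) (min a b)).indicator (fun _ => (1 : ℝ)) t := by
  by_cases h1 : t ∈ Set.Ico (a - h) a
  · by_cases h2 : t ∈ Set.Ico (b - h) b
    · rw [Set.indicator_of_mem h1, Set.indicator_of_mem h2, Set.indicator_of_mem, mul_one]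
      refine ⟨?_, lt_min h1.2 h2.2⟩
      rcases max_cases a b with ⟨h, _⟩ | ⟨h, _⟩ <;> rw [h]
      · exact h1.1
      · exact h2.1
    · rw [Set.indicator_of_notMem h2, mul_zero, Set.indicator_of_notMem]
      rintro ⟨h3, h4⟩
      exact h2 ⟨by linarith [le_max_right a b], (lt_min_iff.1 h4).2⟩
  · rw [Set.indicator_of_notMem h1, zero_mul, Set.indicator_of_notMem]
    rintro ⟨h3, h4⟩
    exact h1 ⟨by linarith [le_max_left a b], (lt_min_iff.1 h4).1⟩

lemma min_sub_max (a b h : ℝ) : min a b - (max a b - h) = h - |a - b| := by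
  rcases le_total a b with h1 | h1
  · rw [min_eq_left h1, max_eq_right h1, abs_of_nonpos (by linarith)]
    ring
  · rw [min_eq_right h1, max_eq_left h1, abs_of_nonneg (by linarith)]
    ring

lemma NS_sq (S : Finset ℂ) (h t : ℝ) : NS S h t ^ 2 = ∑ s ∈ S, ∑ s' ∈ S, mz s * mz s' *
    (Set.Ico (max s.im s'.im - h) (min s.im s'.im)).indicator (fun _ => (1 : ℝ)) t := by
  rw [NS_ico, sq, Finset.sum_mul_sum]
  refine Finset.sum_congr rfl fun s _ => Finset.sum_congr rfl fun s' _ => ?_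
  rw [← ico_mul]
  ring

lemma NS_sq_integrable (S : Finset ℂ) (h : ℝ) : Integrable fun t => NS S h t ^ 2 := by
  simp_rw [NS_sq]
  exact integrable_finsetSum _ fun s _ => integrable_finsetSum _ fun s' _ =>
    (ico_int _ _).const_mul _

/-- the second moment of the local counts is a pair sum -/
lemma NS_sq_int (S : Finset ℂ) (h : ℝ) : ∫ t, NS S h t ^ 2 =
    ∑ s ∈ S, ∑ s' ∈ S, mz s * mz s' * max 0 (h - |s.im - s'.im|) := by
  simp_rw [NS_sq]
  rw [integral_finsetSum _ fun s _ => integrable_finsetSum _ fun s' _ =>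
    (ico_int _ _).const_mul _]
  refine Finset.sum_congr rfl fun s _ => ?_
  rw [integral_finsetSum _ fun s' _ => (ico_int _ _).const_mul _]
  refine Finset.sum_congr rfl fun s' _ => ?_
  rw [integral_const_mul, ico_integral, min_sub_max]

/-- the first moment -/
lemma NS_int_le (S : Finset ℂ) {h : ℝ} (hh : 0 ≤ h) : ∫ t, NS S h t = h * ∑ s ∈ S, mz s := by
  simp_rw [NS_ico]
  rw [integral_finsetSum _ fun s _ => (ico_int _ _).const_mul _, Finset.mul_sum]
  refine Finset.sum_congr rfl fun s _ => ?_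
  rw [integral_const_mul, ico_integral]
  have : max 0 (s.im - (s.im - h)) = h := by
    rw [sub_sub_cancel, max_eq_right hh]
  rw [this, mul_comm]

lemma NS_integrable (S : Finset ℂ) (h : ℝ) : Integrable fun t => NS S h t := by
  simp_rw [NS_ico]
  exact integrable_finsetSum _ fun s _ => (ico_int _ _).const_mul _

/-- comparison with the full count -/
lemma NS_le_cnt {S : Finset ℂ} {T h t : ℝ} (hS : ∀ s ∈ S, s ∈ zset riemannZeta 0 T) (ht : 1 ≤ t) :
    NS S h t ≤ (cnt t h : ℝ) := by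
  classical
  rcases le_or_gt 0 h with hh | hh
  · rw [Pool.Agent.TH850.UV.cnt_eq (A := t) (B := t + h) ht le_rfl le_rfl]
    unfold NS
    have h1 : ∀ s : ℂ, mS s * (if t < s.im ∧ s.im ≤ t + h then (1 : ℝ) else 0) =
        if t < s.im ∧ s.im ≤ t + h then mS s else 0 := by
      intro s
      split_ifs <;> simp
    simp_rw [h1]
    rw [← Finset.sum_filter, ← Finset.sum_filter]
    refine Finset.sum_le_sum_of_subset_of_nonneg (fun s hs => ?_) fun s _ _ => mz_nonneg s
    rw [Finset.mem_filter] at hs ⊢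
    refine ⟨?_, hs.2⟩
    rw [mem_Zf good_zeta ht]
    obtain ⟨a1, a2, a3, a4, a5⟩ := hS s hs.1
    exact ⟨a1, a2, hs.2.1, hs.2.2, a5⟩
  · have : NS S h t = 0 := by
      unfold NS
      refine Finset.sum_eq_zero fun s _ => ?_
      rw [if_neg, mul_zero]
      rintro ⟨h1, h2⟩
      linarith
    rw [this]
    exact Nat.cast_nonneg _

lemma cnt_mono {t h h' : ℝ} (ht : 1 ≤ t) (hh : h ≤ h') : (cnt t h : ℝ) ≤ cnt t h' := by
  have e1 := Pool.Agent.TH850.UV.cnt_eq (A := t) (B := t + h') (h := h) ht le_rfl (by linarith)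
  have e2 := Pool.Agent.TH850.UV.cnt_eq (A := t) (B := t + h') (h := h') ht le_rfl le_rfl
  rw [e1, e2]
  exact Pool.Agent.TH850.UV.NS_mono _ hh t

/-- the first moment in a block -/
lemma cnt_first : ∃ C : ℝ, 0 < C ∧ ∃ T0 : ℝ, 10 ≤ T0 ∧ ∀ V : ℝ, T0 ≤ V → ∀ h : ℝ, 0 ≤ h → h ≤ 1 →
    ∫ t in V..(2 * V), (cnt t h : ℝ) ≤ h * (V * Real.log V / (2 * Real.pi) + C * V) := by
  classical
  obtain ⟨C1, T1, hC1, hT1, h1⟩ := nn_asymp good_zeta
  obtain ⟨C2, hC2, h2⟩ := short_count
  refine ⟨C1 + C2 * 2, by positivity, T1, hT1, fun V hV h hh hh1 => ?_⟩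
  have hV10 : 10 ≤ V := hT1.trans hV
  set S := Zf riemannZeta V (2 * V + 1) with hS
  have e1 : ∫ t in V..(2 * V), (cnt t h : ℝ) = ∫ t in V..(2 * V), NS S h t := by
    refine intervalIntegral.integral_congr fun t ht => ?_
    rw [uIcc_of_le (by linarith)] at ht
    exact Pool.Agent.TH850.UV.cnt_eq (by linarith) ht.1 (by linarith [ht.2])
  have e2 : ∫ t in V..(2 * V), NS S h t ≤ ∫ t, NS S h t := by
    rw [intervalIntegral.integral_of_le (by linarith)]
    exact setIntegral_le_integral (NS_integrable S h)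
      (Eventually.of_forall fun t => Pool.Agent.TH850.UV.NS_nonneg S h t)
  rw [e1]
  refine e2.trans ?_
  rw [NS_int_le S hh]
  refine mul_le_mul_of_nonneg_left ?_ hh
  have h3 : ∑ s ∈ S, mz s ≤ ∑ s ∈ Zb V (2 * V), mz s + ∑ s ∈ Zb (2 * V) (2 * V + 3), mz s := by
    have hsub : S ⊆ Zb V (2 * V) ∪ Zb (2 * V) (2 * V + 3) := by
      intro s hs
      rw [hS, mem_Zf good_zeta (by linarith)] at hs
      rw [Finset.mem_union, mem_Zb (by linarith), mem_Zb (by linarith)]
      obtain ⟨a1, a2, a3, a4, a5⟩ := hs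
      rcases le_or_gt s.im (2 * V) with h5 | h5
      · exact Or.inl ⟨a1, a2, a3, h5, a5⟩
      · exact Or.inr ⟨a1, a2, h5, by linarith, a5⟩
    refine (Finset.sum_le_sum_of_subset_of_nonneg hsub fun s _ _ => mz_nonneg s).trans ?_
    rw [← Finset.sum_union_inter]
    have : 0 ≤ ∑ s ∈ Zb V (2 * V) ∩ Zb (2 * V) (2 * V + 3), mz s :=
      Finset.sum_nonneg fun s _ => mz_nonneg s
    linarith
  have h4 := (abs_le.1 (h1 V hV V (2 * V) le_rfl (by linarith) (by linarith) le_rfl)).2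
  rw [← sum_Zb (by linarith)] at h4
  have h5 := h2 (2 * V) (by linarith)
  have h6 : Real.log (2 * V) ≤ 2 * V := by
    have := Real.log_le_sub_one_of_pos (show 0 < 2 * V by linarith)
    linarith
  have h7 : C2 * Real.log (2 * V) ≤ C2 * (2 * V) := by gcongr
  linarith

/-- the second moment in a block -/
lemma cnt_second : ∃ C : ℝ, 0 < C ∧ ∀ a : ℝ, 0 < a → ∀ ε : ℝ, 0 < ε → ∃ V1 : ℝ, 10 ≤ V1 ∧
    ∀ V : ℝ, V1 ≤ V →
    IntervalIntegrable (fun t => (cnt t (2 * Real.pi * a / Real.log V) : ℝ) ^ 2) volume V (2 * V) ∧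
    ∫ t in V..(2 * V), (cnt t (2 * Real.pi * a / Real.log V) : ℝ) ^ 2 ≤
      V * (a ^ 2 + C + Real.log (1 + a) / Real.pi ^ 2 + ε) := by
  obtain ⟨C, T0, hC, hT0, h⟩ := Pool.Agent.TH850.UV.nv2 1 le_rfl
  obtain ⟨C1, hC1, T1, hT1, h1⟩ := cnt_first
  refine ⟨C, hC, fun a ha ε hε => ?_⟩
  have hpi := Real.pi_pos
  have ev : ∀ᶠ V : ℝ in atTop, a * Real.log a ≤ Real.log V ∧ 2 * Real.pi * a ≤ Real.log V ∧
      2 * a * (2 * Real.pi * a * C1) / ε ≤ Real.log V ∧ T0 ≤ V ∧ T1 ≤ V :=
    (Real.tendsto_log_atTop.eventually_ge_atTop _).and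
      ((Real.tendsto_log_atTop.eventually_ge_atTop _).and
      ((Real.tendsto_log_atTop.eventually_ge_atTop _).and
      ((eventually_ge_atTop _).and (eventually_ge_atTop _))))
  obtain ⟨V1, hV1⟩ := ev.exists_forall_of_atTop
  refine ⟨max 10 V1, le_max_left _ _, fun V hV => ?_⟩
  have hV10 : 10 ≤ V := (le_max_left _ _).trans hV
  obtain ⟨e1, e2, e3, e4, e5⟩ := hV1 V ((le_max_right _ _).trans hV)
  have hL : 0 < Real.log V := Real.log_pos (by linarith)
  obtain ⟨i1, h2⟩ := h V e4 a ha (by rw [one_mul]; exact e1)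
  set hh := 2 * Real.pi * a / Real.log V with hhh
  have hh0 : 0 ≤ hh := by positivity
  have hh1 : hh ≤ 1 := by
    rw [hhh, div_le_one hL]
    exact e2
  have h3 := h1 V e5 hh hh0 hh1
  -- integrability of the count
  set S := Zf riemannZeta V (2 * V + 1) with hS
  have hc : ∀ t ∈ Set.uIcc V (2 * V), (cnt t hh : ℝ) = NS S hh t := by
    intro t ht
    rw [uIcc_of_le (by linarith)] at ht
    exact Pool.Agent.TH850.UV.cnt_eq (by linarith) ht.1 (by linarith [ht.2])
  have i2 : IntervalIntegrable (fun t => (cnt t hh : ℝ)) volume V (2 * V) := by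
    refine ((NS_integrable S hh).intervalIntegrable (a := V) (b := 2 * V)).congr fun t ht => ?_
    exact (hc t (Set.uIoc_subset_uIcc ht)).symm
  have e6 : ∀ t : ℝ, (cnt t hh : ℝ) ^ 2 = ((cnt t hh : ℝ) - a) ^ 2 + 2 * a * (cnt t hh : ℝ) +
      -(a ^ 2) := fun t => by ring
  have i3 : IntervalIntegrable (fun t => (cnt t hh : ℝ) ^ 2) volume V (2 * V) := by
    simp_rw [e6]
    exact (i1.add (i2.const_mul _)).add (continuous_const.intervalIntegrable _ _)
  refine ⟨i3, ?_⟩
  simp_rw [e6]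
  rw [intervalIntegral.integral_add (i1.add (i2.const_mul _))
    (continuous_const.intervalIntegrable _ _), intervalIntegral.integral_add i1 (i2.const_mul _),
    intervalIntegral.integral_const_mul, intervalIntegral.integral_const, smul_eq_mul]
  have h4 := (abs_le.1 h2).2
  have h5 : 2 * a * ∫ t in V..(2 * V), (cnt t hh : ℝ) ≤ 2 * a ^ 2 * V + ε * V := by
    have h6 : 2 * a * ∫ t in V..(2 * V), (cnt t hh : ℝ) ≤
        2 * a * (hh * (V * Real.log V / (2 * Real.pi) + C1 * V)) := by gcongr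
    refine h6.trans ?_
    have h7 : 2 * a * (hh * (V * Real.log V / (2 * Real.pi) + C1 * V)) =
        2 * a ^ 2 * V + 2 * a * (2 * Real.pi * a * C1) / Real.log V * V := by
      rw [hhh]
      field_simp
    rw [h7]
    have h8 : 2 * a * (2 * Real.pi * a * C1) / Real.log V ≤ ε := by
      rw [div_le_iff₀ hL]
      rw [div_le_iff₀ hε] at e3
      linarith
    have : 0 ≤ V := by linarith
    nlinarith
  have h9 : V / Real.pi ^ 2 * Real.log (1 + a) = V * (Real.log (1 + a) / Real.pi ^ 2) := by ring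
  rw [h9] at h4
  linarith

end Pool.Agent.E8helper29.PC
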